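import Pool.Agent.Lib.MP_0087d5_lc.UPM.NC

/-!
# Circuits whose input is a graph and whose output is a relation

As `UPM/NC.lean`; the output is a relation with `r` arguments.
-/

namespace PRS

open Pool.Agent.UPM (FODef)

/-- A first-order uniform family of circuits with NAND gates, whose input is a graph, and whose output is an `r`-ary relation on {0,…,n-1}. -/
structure CircuitFamily1 (r : ℕ) where
  /-- the tags -/
  T : Type
  finT : Finite T
  /-- the gates with tag `t` of the n-th circuit are the tuples `A t → Fin n` -/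
  A : T → Type
  finA : ∀ t, Finite (A t)
  /-- `inp t = some (i, j)`: the gates `(t, x)` read the entry `(x i, x j)` of the adjacency matrix -/
  inp : ∀ t, Option (A t × A t)
  /-- `wire a b n x y`: gate `(b, y)` is an input of gate `(a, x)` -/
  wire : ∀ (a b : T) (n : ℕ), (A a → Fin n) → (A b → Fin n) → Prop
  uniform : ∀ a b, FODef (A a ⊕ A b) (fun n z => wire a b n (fun i => z (Sum.inl i)) (fun i => z (Sum.inr i)))
  /-- the output gates are those with the tag `out`; their coordinates are the arguments of the output relation -/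
  out : T
  outA : A out ≃ Fin r

variable {r : ℕ}

/-- Gates of the n-th circuit. -/
def CircuitFamily1.Gate (C : CircuitFamily1 r) (n : ℕ) : Type := Σ t : C.T, (C.A t → Fin n)

/-- `h` is an input of `g`. -/
def CircuitFamily1.Wire (C : CircuitFamily1 r) (n : ℕ) (g h : C.Gate n) : Prop := C.wire g.1 h.1 n g.2 h.2

/-- The output gate for the arguments `x`. -/
def CircuitFamily1.outGate (C : CircuitFamily1 r) (n : ℕ) (x : Fin r → Fin n) : C.Gate n := ⟨C.out, fun i => x (C.outA i)⟩

/-- `v` is a correct assignment of truth values to the gates on the input graph `G`. -/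
def CircuitFamily1.Consistent (C : CircuitFamily1 r) (n : ℕ) (G : SimpleGraph (Fin n)) (v : C.Gate n → Prop) : Prop :=
  ∀ g : C.Gate n, v g ↔
    match C.inp g.1 with
    | some (i, j) => G.Adj (g.2 i) (g.2 j)
    | none => ¬ ∀ h, C.Wire n g h → v h

/-- Every gate has at most two inputs. -/
def CircuitFamily1.FanInTwo (C : CircuitFamily1 r) (n : ℕ) : Prop :=
  ∀ g h₁ h₂ h₃ : C.Gate n, C.Wire n g h₁ → C.Wire n g h₂ → C.Wire n g h₃ → h₁ = h₂ ∨ h₁ = h₃ ∨ h₂ = h₃

/-- The circuit has depth at most `d`: the gates can be put on levels 0,…,d such that wires go to lower levels. -/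
def CircuitFamily1.DepthLE (C : CircuitFamily1 r) (n d : ℕ) : Prop :=
  ∃ lev : C.Gate n → ℕ, (∀ g, lev g ≤ d) ∧ ∀ g h, C.Wire n g h → lev h < lev g

/-- The `r`-ary relation `P n G` is computed from the graph `G` by a first-order uniform family of Boolean circuits of polynomial size, fan-in two and depth `O((log n)^k)` for some `k`. -/
def RelNC1 (r : ℕ) (P : ∀ n : ℕ, SimpleGraph (Fin n) → (Fin r → Fin n) → Prop) : Prop :=
  ∃ (C : CircuitFamily1 r) (c k : ℕ), ∀ n, C.FanInTwo n ∧ C.DepthLE n (c * (Nat.log 2 n + 1) ^ k) ∧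
    ∀ G : SimpleGraph (Fin n), (∃ v, C.Consistent n G v) ∧ ∀ v, C.Consistent n G v → ∀ x, (v (C.outGate n x) ↔ P n G x)

end PRS
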