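import Pool.Agent.Lib.MP_0087d5_lc.UPM.NC
import Pool.Agent.Lib.MP_0087d5_lc.UPM.FO
import Pool.Agent.Lib.MP_0087d5_lc.AUG.NC2
import Pool.Agent.Lib.MP_0087d5_lcMT.Y2
import Pool.Agent.Lib.MP_0087d5_lcPR.Circ1

/-!
# The bridge: a circuit for graphs on `n + n` vertices, applied to the pair of `G` and `A`, is a circuit for the pair `(G, A)`

A gate `(t, y)` of the circuit of order `n + n`, with `y : A t → Fin (n + n)`, is written as `((t, β), x)` with bits `β : A t → Bool` and `x : A t → Fin n`: `y i = x i` if `β i` is false and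
`y i = n + x i` if `β i` is true. Tags of the new family: the pairs `(t, β)`. First-order definability at order `n + n` is first-order definability at order `n` (`FODef` by induction).
-/

set_option autoImplicit false

namespace MTC

open Pool.Agent.UPM Pool.Agent.AUG PRS

/-! ### The doubled numbers -/

/-- the number `a` of the first (`b = false`) or the second half of {0,…,2n-1} -/
private def emb (n : ℕ) (b : Bool) (a : Fin n) : Fin (n + n) := cond b (Fin.natAdd n a) (Fin.castAdd n a)

private lemma emb_false (n : ℕ) (a : Fin n) : emb n false a = Fin.castAdd n a := rfl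

private lemma emb_true (n : ℕ) (a : Fin n) : emb n true a = Fin.natAdd n a := rfl

private lemma emb_ff (n : ℕ) (a : Fin n) : (emb n false a : ℕ) = a := rfl

private lemma emb_tt (n : ℕ) (a : Fin n) : (emb n true a : ℕ) = n + a := rfl

private def unb (n : ℕ) (y : Fin (n + n)) : Bool := decide (n ≤ (y : ℕ))

private def unx (n : ℕ) (y : Fin (n + n)) : Fin n :=
  ⟨if (y : ℕ) < n then (y : ℕ) else (y : ℕ) - n, by have := y.2; split_ifs <;> omega⟩

private lemma unb_emb (n : ℕ) (b : Bool) (a : Fin n) : unb n (emb n b a) = b := by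
  have := a.2
  cases b
  · simp only [unb, emb_ff]
    simpa using this
  · simp only [unb, emb_tt]
    simp

private lemma unx_emb (n : ℕ) (b : Bool) (a : Fin n) : unx n (emb n b a) = a := by
  have := a.2
  apply Fin.ext
  cases b
  · simp only [unx, emb_ff]
    rw [if_pos this]
  · simp only [unx, emb_tt]
    rw [if_neg (by omega)]
    omega

private lemma emb_un (n : ℕ) (y : Fin (n + n)) : emb n (unb n y) (unx n y) = y := by
  have := y.2
  apply Fin.ext
  by_cases h : (y : ℕ) < n
  · have h1 : unb n y = false := by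
      simp only [unb]
      simpa using h
    rw [h1, emb_ff]
    simp only [unx]
    rw [if_pos h]
  · have h1 : unb n y = true := by
      simp only [unb]
      simpa using h
    rw [h1, emb_tt]
    simp only [unx]
    rw [if_neg h]
    omega

/-! ### Definable relations at order `n + n` -/

/-- `x i + x j = x k + n` is first-order definable -/
private lemma fo_over {ι : Type} (i j k : ι) : FODef ι (fun n x => (x i : ℕ) + (x j : ℕ) = (x k : ℕ) + n) := by
  have h1 : FODef (Option (Option (Option ι))) (fun n z => ((z (some (some none)) : ℕ) + 1 = n ∧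
      (z (some none) : ℕ) + (z (some (some (some i))) : ℕ) = (z (some (some none)) : ℕ)) ∧
      ((z (some (some (some k))) : ℕ) + (z (some none) : ℕ) = (z none : ℕ) ∧
        (z (some (some (some j))) : ℕ) = (z none : ℕ) + 1)) :=
    FODef.and (FODef.and (FODef.max _) (FODef.add _ _ _)) (FODef.and (FODef.add _ _ _) (FODef.succ _ _))
  have h2 := fo_ex1 (R := fun n (z : Option (Option ι) → Fin n) (e : Fin n) => ((z (some none) : ℕ) + 1 = n ∧
      (z none : ℕ) + (z (some (some i)) : ℕ) = (z (some none) : ℕ)) ∧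
      ((z (some (some k)) : ℕ) + (z none : ℕ) = (e : ℕ) ∧
        (z (some (some j)) : ℕ) = (e : ℕ) + 1)) h1
  have h3 := fo_ex1 (R := fun n (z : Option ι → Fin n) (d : Fin n) => ∃ e : Fin n, ((z none : ℕ) + 1 = n ∧
      (d : ℕ) + (z (some i) : ℕ) = (z none : ℕ)) ∧
      ((z (some k) : ℕ) + (d : ℕ) = (e : ℕ) ∧ (z (some j) : ℕ) = (e : ℕ) + 1)) h2
  have h4 := fo_ex1 (R := fun n (z : ι → Fin n) (m : Fin n) => ∃ d e : Fin n, ((m : ℕ) + 1 = n ∧
      (d : ℕ) + (z i : ℕ) = (m : ℕ)) ∧ ((z k : ℕ) + (d : ℕ) = (e : ℕ) ∧ (z j : ℕ) = (e : ℕ) + 1)) h3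
  refine fo_congr h4 (fun n x => ?_)
  constructor
  · rintro ⟨m, d, e, ⟨g1, g2⟩, g3, g4⟩
    omega
  · intro h
    have g1 := (x i).2
    have g2 := (x j).2
    have g3 := (x k).2
    exact ⟨⟨n - 1, by omega⟩, ⟨n - 1 - (x i : ℕ), by omega⟩, ⟨(x j : ℕ) - 1, by omega⟩,
      ⟨by simp only; omega, by simp only; omega⟩, by simp only; omega, by simp only; omega⟩

private lemma fo_none {ι : Type} {Q : ∀ n : ℕ, (ι → Fin n) → Prop} (hQ : ∀ n x, ¬ Q n x) : FODef ι Q :=
  fo_congr (FODef.const False) (fun n x => ⟨fun h => h.elim, fun h => (hQ n x h).elim⟩)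

/-- A relation definable at order `n + n` is definable at order `n`, for all choices of the halves of the variables. -/
private theorem fo_dbl {ι : Type} {P : ∀ n : ℕ, (ι → Fin n) → Prop} (h : FODef ι P) :
    ∀ β : ι → Bool, FODef ι (fun n x => P (n + n) (fun i => emb n (β i) (x i))) := by
  induction h with
  | le i j =>
    intro β
    rcases hi : β i with _ | _ <;> rcases hj : β j with _ | _
    · refine fo_congr (FODef.le i j) (fun n x => ?_)
      change _ ↔ emb n (β i) (x i) ≤ emb n (β j) (x j)
      rw [hi, hj, Fin.le_def, Fin.le_def, emb_ff, emb_ff]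
    · refine fo_congr (FODef.const True) (fun n x => ?_)
      change _ ↔ emb n (β i) (x i) ≤ emb n (β j) (x j)
      rw [hi, hj, Fin.le_def, emb_ff, emb_tt]
      have := (x i).2
      constructor
      · intro _
        omega
      · intro _
        trivial
    · refine fo_congr (FODef.const False) (fun n x => ?_)
      change _ ↔ emb n (β i) (x i) ≤ emb n (β j) (x j)
      rw [hi, hj, Fin.le_def, emb_ff, emb_tt]
      have := (x j).2
      constructor
      · intro h
        exact h.elim
      · intro _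
        omega
    · refine fo_congr (FODef.le i j) (fun n x => ?_)
      change _ ↔ emb n (β i) (x i) ≤ emb n (β j) (x j)
      rw [hi, hj, Fin.le_def, Fin.le_def, emb_tt, emb_tt]
      omega
  | add i j k =>
    intro β
    rcases hi : β i with _ | _ <;> rcases hj : β j with _ | _ <;> rcases hk : β k with _ | _
    · refine fo_congr (FODef.add i j k) (fun n x => ?_)
      change _ ↔ (emb n (β i) (x i) : ℕ) + (emb n (β j) (x j) : ℕ) = (emb n (β k) (x k) : ℕ)
      simp only [hi, hj, hk, emb_ff, emb_tt]
    · refine fo_congr (fo_over i j k) (fun n x => ?_)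
      change _ ↔ (emb n (β i) (x i) : ℕ) + (emb n (β j) (x j) : ℕ) = (emb n (β k) (x k) : ℕ)
      simp only [hi, hj, hk, emb_ff, emb_tt]
      omega
    · refine fo_none (fun n x => ?_)
      change ¬ ((emb n (β i) (x i) : ℕ) + (emb n (β j) (x j) : ℕ) = (emb n (β k) (x k) : ℕ))
      simp only [hi, hj, hk, emb_ff, emb_tt]
      have := (x k).2
      omega
    · refine fo_congr (FODef.add i j k) (fun n x => ?_)
      change _ ↔ (emb n (β i) (x i) : ℕ) + (emb n (β j) (x j) : ℕ) = (emb n (β k) (x k) : ℕ)
      simp only [hi, hj, hk, emb_ff, emb_tt]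
      omega
    · refine fo_none (fun n x => ?_)
      change ¬ ((emb n (β i) (x i) : ℕ) + (emb n (β j) (x j) : ℕ) = (emb n (β k) (x k) : ℕ))
      simp only [hi, hj, hk, emb_ff, emb_tt]
      have := (x k).2
      omega
    · refine fo_congr (FODef.add i j k) (fun n x => ?_)
      change _ ↔ (emb n (β i) (x i) : ℕ) + (emb n (β j) (x j) : ℕ) = (emb n (β k) (x k) : ℕ)
      simp only [hi, hj, hk, emb_ff, emb_tt]
      omega
    · refine fo_none (fun n x => ?_)
      change ¬ ((emb n (β i) (x i) : ℕ) + (emb n (β j) (x j) : ℕ) = (emb n (β k) (x k) : ℕ))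
      simp only [hi, hj, hk, emb_ff, emb_tt]
      have := (x k).2
      omega
    · refine fo_none (fun n x => ?_)
      change ¬ ((emb n (β i) (x i) : ℕ) + (emb n (β j) (x j) : ℕ) = (emb n (β k) (x k) : ℕ))
      simp only [hi, hj, hk, emb_ff, emb_tt]
      have := (x k).2
      omega
  | not _ ih =>
    intro β
    exact FODef.not (ih β)
  | and _ _ ih1 ih2 =>
    intro β
    exact FODef.and (ih1 β) (ih2 β)
  | @ex ι P _ ih =>
    intro β
    have key : ∀ b : Bool, FODef ι (fun n x => ∃ a : Fin n, P (n + n) (fun o => o.elim (emb n b a) (fun i => emb n (β i) (x i)))) := by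
      intro b
      refine fo_congr (FODef.ex (ih (fun o => o.elim b β))) (fun n x => ?_)
      apply exists_congr
      intro a
      have : (fun o : Option ι => emb n (o.elim b β) (o.elim a x)) = fun o => o.elim (emb n b a) (fun i => emb n (β i) (x i)) := by
        funext o
        cases o <;> rfl
      rw [this]
    refine fo_congr (FODef.or (key false) (key true)) (fun n x => ?_)
    constructor
    · rintro (⟨a, ha⟩ | ⟨a, ha⟩)
      · exact ⟨_, ha⟩
      · exact ⟨_, ha⟩
    · rintro ⟨y, hy⟩
      rw [← emb_un n y] at hy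
      rcases hb : unb n y with _ | _
      · rw [hb] at hy
        exact Or.inl ⟨_, hy⟩
      · rw [hb] at hy
        exact Or.inr ⟨_, hy⟩

/-! ### The adjacency in the pair graph -/

private lemma pair_ff {n : ℕ} (G A : SimpleGraph (Fin n)) (a b : Fin n) :
    (pair G A).Adj (emb n false a) (emb n false b) ↔ G.Adj a b := by
  change (G ⊕g A).Adj (finSumFinEquiv.symm (Fin.castAdd n a)) (finSumFinEquiv.symm (Fin.castAdd n b)) ↔ _
  rw [finSumFinEquiv_symm_apply_castAdd, finSumFinEquiv_symm_apply_castAdd]
  rfl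

private lemma pair_tt {n : ℕ} (G A : SimpleGraph (Fin n)) (a b : Fin n) :
    (pair G A).Adj (emb n true a) (emb n true b) ↔ A.Adj a b := by
  change (G ⊕g A).Adj (finSumFinEquiv.symm (Fin.natAdd n a)) (finSumFinEquiv.symm (Fin.natAdd n b)) ↔ _
  rw [finSumFinEquiv_symm_apply_natAdd, finSumFinEquiv_symm_apply_natAdd]
  rfl

private lemma pair_ft {n : ℕ} (G A : SimpleGraph (Fin n)) (a b : Fin n) :
    ¬ (pair G A).Adj (emb n false a) (emb n true b) := by
  change ¬ (G ⊕g A).Adj (finSumFinEquiv.symm (Fin.castAdd n a)) (finSumFinEquiv.symm (Fin.natAdd n b))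
  rw [finSumFinEquiv_symm_apply_castAdd, finSumFinEquiv_symm_apply_natAdd]
  simp

private lemma pair_tf {n : ℕ} (G A : SimpleGraph (Fin n)) (a b : Fin n) :
    ¬ (pair G A).Adj (emb n true a) (emb n false b) := by
  change ¬ (G ⊕g A).Adj (finSumFinEquiv.symm (Fin.natAdd n a)) (finSumFinEquiv.symm (Fin.castAdd n b))
  rw [finSumFinEquiv_symm_apply_castAdd, finSumFinEquiv_symm_apply_natAdd]
  simp

/-! ### The doubled circuit -/

private def rd {X : Type} (β : X → Bool) (p : X × X) : Option (Bool × X × X) :=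
  match β p.1, β p.2 with
  | false, false => some (true, p.1, p.2)
  | true, true => some (false, p.1, p.2)
  | _, _ => none

private lemma rd_ff {X : Type} {β : X → Bool} {i j : X} (h1 : β i = false) (h2 : β j = false) : rd β (i, j) = some (true, i, j) := by
  simp [rd, h1, h2]

private lemma rd_tt {X : Type} {β : X → Bool} {i j : X} (h1 : β i = true) (h2 : β j = true) : rd β (i, j) = some (false, i, j) := by
  simp [rd, h1, h2]

private lemma rd_ft {X : Type} {β : X → Bool} {i j : X} (h1 : β i = false) (h2 : β j = true) : rd β (i, j) = none := by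
  simp [rd, h1, h2]

private lemma rd_tf {X : Type} {β : X → Bool} {i j : X} (h1 : β i = true) (h2 : β j = false) : rd β (i, j) = none := by
  simp [rd, h1, h2]

private def dbl {r : ℕ} (C : CircuitFamily1 r) : CircuitFamily2 r where
  T := Σ t : C.T, (C.A t → Bool)
  finT := by
    have := C.finT
    have := C.finA
    infer_instance
  A t := C.A t.1
  finA t := C.finA t.1
  inp t := (C.inp t.1).bind (rd t.2)
  wire a b n x y := C.inp a.1 = none ∧ C.wire a.1 b.1 (n + n) (fun i => emb n (a.2 i) (x i)) (fun i => emb n (b.2 i) (y i))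
  uniform a b := FODef.and (FODef.const _) (fo_dbl (C.uniform a.1 b.1) (Sum.elim a.2 b.2))
  out := ⟨C.out, fun _ => false⟩
  outA := C.outA

private def up {r : ℕ} (C : CircuitFamily1 r) (n : ℕ) (g : (dbl C).Gate n) : C.Gate (n + n) :=
  ⟨g.1.1, fun i => emb n (g.1.2 i) (g.2 i)⟩

private def dn {r : ℕ} (C : CircuitFamily1 r) (n : ℕ) (g : C.Gate (n + n)) : (dbl C).Gate n :=
  ⟨⟨g.1, fun i => unb n (g.2 i)⟩, fun i => unx n (g.2 i)⟩

private lemma up_dn {r : ℕ} (C : CircuitFamily1 r) (n : ℕ) (g : C.Gate (n + n)) : up C n (dn C n g) = g := by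
  rcases g with ⟨t, y⟩
  simp only [up, dn, emb_un]

private lemma sig_ext {T : Type} {B A : T → Type} {n : ℕ} (t : T) {β β' : B t} {x x' : A t → Fin n} (h : β = β') (h' : x = x') :
    (⟨⟨t, β⟩, x⟩ : Σ s : (Σ t : T, B t), (A s.1 → Fin n)) = ⟨⟨t, β'⟩, x'⟩ := by
  subst h
  subst h'
  rfl

private lemma dn_up {r : ℕ} (C : CircuitFamily1 r) (n : ℕ) (g : (dbl C).Gate n) : dn C n (up C n g) = g := by
  rcases g with ⟨⟨t, β⟩, x⟩
  exact sig_ext (A := C.A) (B := fun t => C.A t → Bool) t (funext fun i => unb_emb n (β i) (x i)) (funext fun i => unx_emb n (β i) (x i))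

private lemma up_inj {r : ℕ} (C : CircuitFamily1 r) (n : ℕ) {g h : (dbl C).Gate n} (e : up C n g = up C n h) : g = h := by
  rw [← dn_up C n g, e, dn_up]

private lemma wire_up {r : ℕ} (C : CircuitFamily1 r) (n : ℕ) (g h : (dbl C).Gate n) :
    (dbl C).Wire n g h ↔ C.inp g.1.1 = none ∧ C.Wire (n + n) (up C n g) (up C n h) := Iff.rfl

private lemma cons2_iff {r : ℕ} (D : CircuitFamily2 r) (n : ℕ) (G M : SimpleGraph (Fin n)) (v : D.Gate n → Prop) :
    D.Consistent n G M v ↔ ∀ g : D.Gate n, (∀ i j, D.inp g.1 = some (true, i, j) → (v g ↔ G.Adj (g.2 i) (g.2 j))) ∧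
      (∀ i j, D.inp g.1 = some (false, i, j) → (v g ↔ M.Adj (g.2 i) (g.2 j))) ∧
      (D.inp g.1 = none → (v g ↔ ¬ ∀ h, D.Wire n g h → v h)) := by
  unfold CircuitFamily2.Consistent
  refine forall_congr' fun g => ?_
  rcases hi : D.inp g.1 with _ | ⟨b, i, j⟩
  · simp
  · rcases b with _ | _
    · simp only [Option.some.injEq, Prod.mk.injEq, reduceCtorEq, Bool.false_eq_true, false_and, false_imp_iff, implies_true, true_and, and_true]
      constructor
      · rintro H i' j' ⟨rfl, rfl⟩
        exact H
      · intro H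
        exact H i j ⟨rfl, rfl⟩
    · simp only [Option.some.injEq, Prod.mk.injEq, reduceCtorEq, Bool.true_eq_false, false_and, false_imp_iff, implies_true, true_and, and_true]
      constructor
      · rintro H i' j' ⟨rfl, rfl⟩
        exact H
      · intro H
        exact H i j ⟨rfl, rfl⟩

private lemma cons1_iff {r : ℕ} (D : CircuitFamily1 r) (n : ℕ) (G : SimpleGraph (Fin n)) (v : D.Gate n → Prop) :
    D.Consistent n G v ↔ ∀ g : D.Gate n, (∀ i j, D.inp g.1 = some (i, j) → (v g ↔ G.Adj (g.2 i) (g.2 j))) ∧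
      (D.inp g.1 = none → (v g ↔ ¬ ∀ h, D.Wire n g h → v h)) := by
  unfold CircuitFamily1.Consistent
  refine forall_congr' fun g => ?_
  rcases hi : D.inp g.1 with _ | ⟨i, j⟩
  · simp
  · simp only [Option.some.injEq, Prod.mk.injEq, reduceCtorEq, false_imp_iff, and_true]
    constructor
    · rintro H i' j' ⟨rfl, rfl⟩
      exact H
    · intro H
      exact H i j ⟨rfl, rfl⟩

private lemma all_up {r : ℕ} (C : CircuitFamily1 r) (n : ℕ) (g : (dbl C).Gate n) (hi : C.inp g.1.1 = none) (v : C.Gate (n + n) → Prop) :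
    (∀ h, (dbl C).Wire n g h → v (up C n h)) ↔ ∀ h, C.Wire (n + n) (up C n g) h → v h := by
  constructor
  · intro H h hw
    have := H (dn C n h) ((wire_up C n g _).2 ⟨hi, by rw [up_dn]; exact hw⟩)
    rwa [up_dn] at this
  · intro H h hw
    exact H _ ((wire_up C n g h).1 hw).2

private lemma cons_up {r : ℕ} (C : CircuitFamily1 r) (n : ℕ) (G A : SimpleGraph (Fin n)) (v : C.Gate (n + n) → Prop) :
    (dbl C).Consistent n G A (fun g => v (up C n g)) ↔ C.Consistent (n + n) (pair G A) v := by
  have key : ∀ g : (dbl C).Gate n, C.inp g.1.1 ≠ none → ¬ ¬ ∀ h, (dbl C).Wire n g h → v (up C n h) := by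
    intro g hg
    rw [not_not]
    intro h hw
    exact (hg ((wire_up C n g h).1 hw).1).elim
  rw [cons2_iff, cons1_iff]
  constructor
  · intro H g'
    obtain ⟨g, rfl⟩ : ∃ g, up C n g = g' := ⟨dn C n g', up_dn C n g'⟩
    obtain ⟨h1, h2, h3⟩ := H g
    refine ⟨fun i j hij => ?_, fun hn => ?_⟩
    · have hij' : C.inp g.1.1 = some (i, j) := hij
      have e0 : (dbl C).inp g.1 = rd g.1.2 (i, j) := by
        change (C.inp g.1.1).bind (rd g.1.2) = _
        rw [hij']
        rfl
      change _ ↔ (pair G A).Adj (emb n (g.1.2 i) (g.2 i)) (emb n (g.1.2 j) (g.2 j))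
      rcases hbi : g.1.2 i with _ | _ <;> rcases hbj : g.1.2 j with _ | _
      · exact (h1 i j (e0.trans (rd_ff hbi hbj))).trans (pair_ff G A _ _).symm
      · exact (h3 (e0.trans (rd_ft hbi hbj))).trans (iff_of_false (key g (by rw [hij']; simp)) (pair_ft G A _ _))
      · exact (h3 (e0.trans (rd_tf hbi hbj))).trans (iff_of_false (key g (by rw [hij']; simp)) (pair_tf G A _ _))
      · exact (h2 i j (e0.trans (rd_tt hbi hbj))).trans (pair_tt G A _ _).symm
    · have hn' : C.inp g.1.1 = none := hn
      have e0 : (dbl C).inp g.1 = none := by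
        change (C.inp g.1.1).bind (rd g.1.2) = _
        rw [hn']
        rfl
      exact (h3 e0).trans (not_congr (all_up C n g hn' v))
  · intro H g
    obtain ⟨h1, h3⟩ := H (up C n g)
    rcases hi : C.inp g.1.1 with _ | ⟨i, j⟩
    · have e0 : (dbl C).inp g.1 = none := by
        change (C.inp g.1.1).bind (rd g.1.2) = _
        rw [hi]
        rfl
      refine ⟨fun i j h => ?_, fun i j h => ?_, fun _ => ?_⟩
      · rw [e0] at h
        cases h
      · rw [e0] at h
        cases h
      · exact (h3 hi).trans (not_congr (all_up C n g hi v)).symm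
    · have e0 : (dbl C).inp g.1 = rd g.1.2 (i, j) := by
        change (C.inp g.1.1).bind (rd g.1.2) = _
        rw [hi]
        rfl
      have h4 : v (up C n g) ↔ (pair G A).Adj (emb n (g.1.2 i) (g.2 i)) (emb n (g.1.2 j) (g.2 j)) := h1 i j hi
      rcases hbi : g.1.2 i with _ | _ <;> rcases hbj : g.1.2 j with _ | _
      · have e1 : (dbl C).inp g.1 = some (true, i, j) := e0.trans (rd_ff hbi hbj)
        rw [hbi, hbj] at h4
        refine ⟨fun i' j' h => ?_, fun i' j' h => ?_, fun h => ?_⟩
        · rw [e1] at h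
          cases h
          exact h4.trans (pair_ff G A _ _)
        · rw [e1] at h
          cases h
        · rw [e1] at h
          cases h
      · have e1 : (dbl C).inp g.1 = none := e0.trans (rd_ft hbi hbj)
        rw [hbi, hbj] at h4
        refine ⟨fun i' j' h => ?_, fun i' j' h => ?_, fun h => ?_⟩
        · rw [e1] at h
          cases h
        · rw [e1] at h
          cases h
        · exact h4.trans (iff_of_false (pair_ft G A _ _) (key g (by rw [hi]; simp)))
      · have e1 : (dbl C).inp g.1 = none := e0.trans (rd_tf hbi hbj)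
        rw [hbi, hbj] at h4
        refine ⟨fun i' j' h => ?_, fun i' j' h => ?_, fun h => ?_⟩
        · rw [e1] at h
          cases h
        · rw [e1] at h
          cases h
        · exact h4.trans (iff_of_false (pair_tf G A _ _) (key g (by rw [hi]; simp)))
      · have e1 : (dbl C).inp g.1 = some (false, i, j) := e0.trans (rd_tt hbi hbj)
        rw [hbi, hbj] at h4
        refine ⟨fun i' j' h => ?_, fun i' j' h => ?_, fun h => ?_⟩
        · rw [e1] at h
          cases h
        · rw [e1] at h
          cases h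
          exact h4.trans (pair_tt G A _ _)
        · rw [e1] at h
          cases h

/-- **The bridge**: an `r`-ary relation computed in NC from graphs of order `n + n`, applied to the pair graph of `G` and `A` and to arguments in the first half, is computed in NC from the pair `(G, A)`. -/
theorem bridgeR {r : ℕ} {R : ∀ n : ℕ, SimpleGraph (Fin n) → (Fin r → Fin n) → Prop} (h : RelNC1 r R) :
    Pool.Agent.AUG.RelNC2 r (fun n G A x => R (n + n) (pair G A) (fun i => Fin.castAdd n (x i))) := by
  obtain ⟨C, c, k, hC⟩ := h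
  refine ⟨dbl C, c * 2 ^ k, k, fun n => ⟨?_, ?_, ?_⟩⟩
  · intro g h₁ h₂ h₃ w₁ w₂ w₃
    rcases (hC (n + n)).1 (up C n g) (up C n h₁) (up C n h₂) (up C n h₃) ((wire_up C n _ _).1 w₁).2
      ((wire_up C n _ _).1 w₂).2 ((wire_up C n _ _).1 w₃).2 with e | e | e
    · exact Or.inl (up_inj C n e)
    · exact Or.inr (Or.inl (up_inj C n e))
    · exact Or.inr (Or.inr (up_inj C n e))
  · obtain ⟨lev, h1, h2⟩ := (hC (n + n)).2.1
    refine ⟨fun g => lev (up C n g), fun g => (h1 _).trans ?_, fun g h w => h2 _ _ ((wire_up C n _ _).1 w).2⟩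
    have h3 : Nat.log 2 (n + n) + 1 ≤ 2 * (Nat.log 2 n + 1) := by
      rcases Nat.eq_zero_or_pos n with rfl | hn
      · simp
      · have : n + n = n * 2 := by ring
        rw [this, Nat.log_mul_base (by norm_num) hn.ne']
        omega
    calc c * (Nat.log 2 (n + n) + 1) ^ k ≤ c * (2 * (Nat.log 2 n + 1)) ^ k :=
          Nat.mul_le_mul_left _ (Nat.pow_le_pow_left h3 k)
      _ = c * 2 ^ k * (Nat.log 2 n + 1) ^ k := by rw [mul_pow, mul_assoc]
  · intro G A
    have h1 := (hC (n + n)).2.2 (pair G A)
    refine ⟨?_, ?_⟩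
    · obtain ⟨v, hv⟩ := h1.1
      exact ⟨_, (cons_up C n G A v).2 hv⟩
    · intro w hw x
      have e1 : (fun g => (fun g' => w (dn C n g')) (up C n g)) = w := by
        funext g
        simp only [dn_up]
      have h2 : C.Consistent (n + n) (pair G A) (fun g' => w (dn C n g')) := by
        rw [← cons_up C n G A, e1]
        exact hw
      have h3 := h1.2 _ h2 (fun i => Fin.castAdd n (x i))
      have e2 : dn C n (C.outGate (n + n) (fun i => Fin.castAdd n (x i))) = (dbl C).outGate n x := by
        have : C.outGate (n + n) (fun i => Fin.castAdd n (x i)) = up C n ((dbl C).outGate n x) := rfl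
        rw [this, dn_up]
      rw [e2] at h3
      exact h3

private lemma cons0_iff (D : CircuitFamily) (n : ℕ) (G : SimpleGraph (Fin n)) (v : D.Gate n → Prop) :
    D.Consistent n G v ↔ ∀ g : D.Gate n, (∀ i j, D.inp g.1 = some (i, j) → (v g ↔ G.Adj (g.2 i) (g.2 j))) ∧
      (D.inp g.1 = none → (v g ↔ ¬ ∀ h, D.Wire n g h → v h)) := by
  unfold CircuitFamily.Consistent
  refine forall_congr' fun g => ?_
  rcases hi : D.inp g.1 with _ | ⟨i, j⟩
  · simp
  · simp only [Option.some.injEq, Prod.mk.injEq, reduceCtorEq, false_imp_iff, and_true]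
    constructor
    · rintro H i' j' ⟨rfl, rfl⟩
      exact H
    · intro H
      exact H i j ⟨rfl, rfl⟩

private def one (C : CircuitFamily) : CircuitFamily1 0 where
  T := C.T
  finT := C.finT
  A := C.A
  finA := C.finA
  inp := C.inp
  wire := C.wire
  uniform := C.uniform
  out := C.out
  outA :=
    have := C.outA
    Equiv.equivOfIsEmpty _ _

private lemma cons_one (C : CircuitFamily) (n : ℕ) (G : SimpleGraph (Fin n)) (v : C.Gate n → Prop) :
    (one C).Consistent n G v ↔ C.Consistent n G v :=
  (cons1_iff (one C) n G v).trans (cons0_iff C n G v).symm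

/-- a property decided in NC is a relation without arguments -/
theorem relNC1_of_InNC {R : ∀ n : ℕ, SimpleGraph (Fin n) → Prop} (h : Pool.Agent.UPM.InNC R) :
    RelNC1 0 (fun n G _ => R n G) := by
  obtain ⟨C, c, k, hC⟩ := h
  refine ⟨one C, c, k, fun n => ⟨(hC n).1, (hC n).2.1, fun G => ⟨?_, fun v hv x => ?_⟩⟩⟩
  · obtain ⟨v, hv⟩ := ((hC n).2.2 G).1
    exact ⟨v, (cons_one C n G v).2 hv⟩
  · have h1 := ((hC n).2.2 G).2 v ((cons_one C n G v).1 hv)
    have e : (one C).outGate n x = C.outGate n :=
      congrArg (fun y : C.A C.out → Fin n => (⟨C.out, y⟩ : Σ t : C.T, (C.A t → Fin n))) (funext fun i => (C.outA.false i).elim)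
    rw [e]
    exact h1

/-- **The bridge for properties**: a property of graphs decided in NC, applied to the pair graph on `n + n` vertices, is a property of pairs of graphs decided in NC. -/
theorem bridge {R : ∀ n : ℕ, SimpleGraph (Fin n) → Prop} (h : Pool.Agent.UPM.InNC R) :
    Pool.Agent.AUG.InNC2 (fun n G A => R (n + n) (pair G A)) :=
  bridgeR (relNC1_of_InNC h)

end MTC
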