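import Pool.Agent.Lib.MP_0087d5_lcZE.ZG

/-!
# The theorem of Gallai and Edmonds for graphs of any deficiency

`D` is the set of the vertices which are not covered by some matching with the least number `d` of uncovered vertices, `A` the set of the neighbours of `D` outside of `D`.
The complement of `A` has exactly `card A + d` odd components.
-/

set_option autoImplicit false

namespace ZER

open Relation

variable {n : ℕ}

private theorem gea_symm {G : SimpleGraph (Fin n)} {A : Fin n → Prop} {v w : Fin n} (h : rch G A v w) :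
    rch G A w v := by
  unfold rch at *
  induction h with
  | refl => exact ReflTransGen.refl
  | tail h1 h2 ih => exact ReflTransGen.head ⟨h2.2.1, h2.1, h2.2.2.symm⟩ ih

private theorem gea_trans {G : SimpleGraph (Fin n)} {A : Fin n → Prop} {u v w : Fin n} (h1 : rch G A u v)
    (h2 : rch G A v w) : rch G A u w := ReflTransGen.trans h1 h2

private theorem gea_step {G : SimpleGraph (Fin n)} {A : Fin n → Prop} {u v w : Fin n} (h1 : rch G A u v)
    (hv : ¬ A v) (hw : ¬ A w) (h2 : G.Adj v w) : rch G A u w := ReflTransGen.tail h1 ⟨hv, hw, h2⟩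

private theorem gea_not {G : SimpleGraph (Fin n)} {A : Fin n → Prop} {v w : Fin n} (h : rch G A v w) (hv : ¬ A v) :
    ¬ A w := by
  unfold rch at h
  induction h with
  | refl => exact hv
  | tail h1 h2 ih => exact h2.2.1

private theorem gea_uniq {G : SimpleGraph (Fin n)} {A : Fin n → Prop} {r s v : Fin n} (hr : oddRep G A r)
    (hs : oddRep G A s) (h1 : rch G A r v) (h2 : rch G A s v) : r = s :=
  le_antisymm (hr.2.1 s (gea_trans h1 (gea_symm h2))) (hs.2.1 r (gea_trans h2 (gea_symm h1)))

private theorem gea_even (P : Fin n → Prop) (f : Fin n → Fin n) (h1 : ∀ x, f (f x) = x) (h2 : ∀ x, P x → P (f x))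
    (h3 : ∀ x, P x → f x ≠ x) : Even (Nat.card {x // P x}) := by
  classical
  rw [Nat.card_eq_fintype_card, Fintype.card_subtype]
  have h : ∑ _x ∈ Finset.univ.filter P, (1 : ZMod 2) = 0 := by
    refine Finset.sum_involution (fun a _ => f a) ?_ ?_ ?_ ?_
    · intro a _
      decide
    · intro a ha _
      exact h3 a (Finset.mem_filter.mp ha).2
    · intro a ha
      exact Finset.mem_filter.mpr ⟨Finset.mem_univ _, h2 a (Finset.mem_filter.mp ha).2⟩
    · intro a _
      exact h1 a
  rw [Finset.sum_const, nsmul_eq_mul, mul_one] at h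
  exact (ZMod.natCast_eq_zero_iff_even).mp h

/-- `G` with `k` new vertices which are joined to all others -/
private def gea_up (G : SimpleGraph (Fin n)) (k : ℕ) : SimpleGraph (Fin (n + k)) where
  Adj x y := x ≠ y ∧ (n ≤ x.val ∨ n ≤ y.val ∨ ∃ a b, G.Adj a b ∧ Fin.castAdd k a = x ∧ Fin.castAdd k b = y)
  symm := ⟨by
    rintro x y ⟨h1, h2⟩
    refine ⟨h1.symm, ?_⟩
    rcases h2 with h2 | h2 | ⟨a, b, h3, h4, h5⟩
    · exact Or.inr (Or.inl h2)
    · exact Or.inl h2
    · exact Or.inr (Or.inr ⟨b, a, h3.symm, h5, h4⟩)⟩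
  loopless := ⟨fun x h => h.1 rfl⟩

private theorem gea_up_adj (G : SimpleGraph (Fin n)) (k : ℕ) (a b : Fin n) :
    (gea_up G k).Adj (Fin.castAdd k a) (Fin.castAdd k b) ↔ G.Adj a b := by
  constructor
  · rintro ⟨_, h2 | h2 | ⟨a', b', h3, h4, h5⟩⟩
    · exact absurd h2 (by have := a.isLt; simp only [Fin.val_castAdd]; omega)
    · exact absurd h2 (by have := b.isLt; simp only [Fin.val_castAdd]; omega)
    · rw [← Fin.castAdd_injective n k h4, ← Fin.castAdd_injective n k h5]
      exact h3
  · intro h
    refine ⟨fun h2 => h.ne (Fin.castAdd_injective n k h2), Or.inr (Or.inr ⟨a, b, h, rfl, rfl⟩)⟩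

/-- the parity of the deficiency -/
private theorem gea_mod (G : SimpleGraph (Fin n)) (f : Fin n → Fin n) (hf : Mt G f) : mis f % 2 = n % 2 := by
  have h3 : Even (Nat.card {x // ¬ f x = x}) := by
    refine even_inv (fun x => ¬ f x = x) f hf.1 ?_
    intro x hx
    refine ⟨?_, hx⟩
    rw [hf.1]
    exact fun h => hx h.symm
  have h4 := cd_compl (fun x => f x = x)
  unfold mis
  rw [Nat.even_iff] at h3
  omega

/-- the theorem of Tutte and Berge -/
private theorem gea_tb (G : SimpleGraph (Fin n)) (d : ℕ) (h1 : ∃ f, Mt G f ∧ mis f = d)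
    (h2 : ∀ f, Mt G f → d ≤ mis f) :
    ∃ U : Fin n → Prop, Nat.card {v // U v} + d ≤ Nat.card {v // oddRep G U v} := by
  classical
  obtain ⟨f0, hf0, hm0⟩ := h1
  have hn := gea_mod G f0 hf0
  rw [hm0] at hn
  have hempty : Nat.card {v : Fin n // (fun _ : Fin n => False) v} = 0 := by
    rw [Nat.card_eq_zero]
    exact Or.inl ⟨fun x => x.2⟩
  rcases Nat.lt_or_ge d 2 with hd | hd
  · refine ⟨fun _ => False, ?_⟩
    have h3 := oc_parity G (fun _ => False)
    rw [hempty] at h3 ⊢
    omega
  obtain ⟨k, rfl⟩ : ∃ k, d = k + 2 := ⟨d - 2, by omega⟩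
  rcases tutte_on (gea_up G k) (fun _ => True) with ⟨f, hf1, -, hf3⟩ | ⟨S, -, hS⟩
  · exfalso
    let F : Fin n → Fin n := fun a =>
      if h : (f (Fin.castAdd k a)).val < n then ⟨(f (Fin.castAdd k a)).val, h⟩ else a
    have F1 : ∀ a (h : (f (Fin.castAdd k a)).val < n), Fin.castAdd k (F a) = f (Fin.castAdd k a) := by
      intro a h
      simp only [F]
      rw [dif_pos h]
      exact Fin.ext rfl
    have F2 : ∀ a, ¬ (f (Fin.castAdd k a)).val < n → F a = a := by
      intro a h
      simp only [F]
      rw [dif_neg h]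
    have hM : Mt G F := by
      constructor
      · intro a
        by_cases h : (f (Fin.castAdd k a)).val < n
        · have h4 := F1 a h
          have h5 : (f (Fin.castAdd k (F a))).val < n := by
            rw [h4, hf1]
            exact a.isLt
          have h6 := F1 (F a) h5
          rw [h4, hf1] at h6
          exact Fin.castAdd_injective n k h6
        · rw [F2 a h, F2 a h]
      · intro a ha
        by_cases h : (f (Fin.castAdd k a)).val < n
        · have h4 := hf3 (Fin.castAdd k a) trivial
          rw [← F1 a h, gea_up_adj] at h4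
          exact h4
        · exact absurd (F2 a h) ha
    have h4 := h2 F hM
    have h5 : mis F ≤ k := by
      have h6 : ∀ a : {a // F a = a}, n ≤ (f (Fin.castAdd k a.1)).val := by
        intro a
        by_contra h
        have h7 := F1 a.1 (by omega)
        rw [a.2] at h7
        exact (hf3 (Fin.castAdd k a.1) trivial).ne h7
      have h7 : ∀ a : {a // F a = a}, (f (Fin.castAdd k a.1)).val - n < k := by
        intro a
        have := (f (Fin.castAdd k a.1)).isLt
        have := h6 a
        omega
      unfold mis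
      rw [← Nat.card_fin k]
      refine Nat.card_le_card_of_injective
        (fun a : {a // F a = a} => (⟨(f (Fin.castAdd k a.1)).val - n, h7 a⟩ : Fin k)) ?_
      intro a b hab
      have h8 := congrArg Fin.val hab
      simp only at h8
      have h9 : f (Fin.castAdd k a.1) = f (Fin.castAdd k b.1) := by
        apply Fin.ext
        have := h6 a
        have := h6 b
        omega
      have h10 : Fin.castAdd k a.1 = Fin.castAdd k b.1 := by
        rw [← hf1 (Fin.castAdd k a.1), h9, hf1]
      exact Subtype.ext (Fin.castAdd_injective n k h10)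
    omega
  · have h3 : (fun x : Fin (n + k) => ¬ True ∨ S x) = S := by
      funext x
      simp
    rw [h3] at hS
    have h4 := oc_parity (gea_up G k) S
    -- all the new vertices are in `S`
    have hall : ∀ w : Fin (n + k), n ≤ w.val → S w := by
      intro w hw
      by_contra hwS
      have h5 : ∀ v, oddRep (gea_up G k) S v → rch (gea_up G k) S v w := by
        intro v hv
        by_cases hvw : v = w
        · rw [hvw]
          exact ReflTransGen.refl
        · exact gea_step ReflTransGen.refl hv.1 hwS ⟨hvw, Or.inr (Or.inl hw)⟩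
      have h6 : Nat.card {v // oddRep (gea_up G k) S v} ≤ 1 := by
        rw [← Nat.card_unique (α := Unit)]
        refine Nat.card_le_card_of_injective (fun _ => ()) ?_
        intro a b _
        exact Subtype.ext (gea_uniq a.2 b.2 (h5 a.1 a.2) (h5 b.1 b.2))
      omega
    refine ⟨fun a => S (Fin.castAdd k a), ?_⟩
    have h5 := oc_eq (gea_up G k) S (X := {a : Fin n // ¬ S (Fin.castAdd k a)}) (G.comap Subtype.val)
      (fun a => Fin.castAdd k a.1) (fun a b hab => Subtype.ext (Fin.castAdd_injective n k hab)) ?_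
      (fun a b => (gea_up_adj G k a.1 b.1).symm)
    · have h6 := oc_eq G (fun a => S (Fin.castAdd k a)) (X := {a : Fin n // ¬ S (Fin.castAdd k a)})
        (G.comap Subtype.val) Subtype.val Subtype.val_injective
        (fun x => ⟨fun h => ⟨⟨x, h⟩, rfl⟩, fun ⟨a, ha⟩ => ha ▸ a.2⟩) (fun a b => Iff.rfl)
      have h7 : Nat.card {v // S v} = Nat.card {a : Fin n // S (Fin.castAdd k a)} + k := by
        have h8 : Nat.card {v // S v} = Nat.card ({a : Fin n // S (Fin.castAdd k a)} ⊕ Fin k) := by
          refine Nat.card_congr ?_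
          exact
            { toFun := fun v => if h : v.1.val < n then Sum.inl ⟨⟨v.1.val, h⟩, v.2⟩
                else Sum.inr ⟨v.1.val - n, by have := v.1.isLt; omega⟩
              invFun := fun z => Sum.elim (fun a => ⟨Fin.castAdd k a.1, a.2⟩)
                (fun i => ⟨Fin.natAdd n i, hall _ (by simp)⟩) z
              left_inv := by
                intro v
                by_cases h : v.1.val < n
                · simp only [dif_pos h, Sum.elim_inl]
                  exact Subtype.ext (Fin.ext rfl)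
                · simp only [dif_neg h, Sum.elim_inr]
                  refine Subtype.ext (Fin.ext ?_)
                  simp only [Fin.natAdd_mk]
                  omega
              right_inv := by
                rintro (a | i)
                · have h : (Fin.castAdd k a.1).val < n := a.1.isLt
                  simp only [Sum.elim_inl]
                  rw [dif_pos h]
                  rfl
                · have h : ¬ (Fin.natAdd n i).val < n := by simp
                  simp only [Sum.elim_inr]
                  rw [dif_neg h]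
                  congr 1
                  exact Fin.ext (by simp) }
        rw [h8, Nat.card_sum, Nat.card_fin]
      rw [h5, ← h6] at hS h4
      rw [h7] at hS h4
      show Nat.card {a : Fin n // S (Fin.castAdd k a)} + (k + 2) ≤
        Nat.card {v // oddRep G (fun a => S (Fin.castAdd k a)) v}
      omega
    · intro x
      constructor
      · intro h
        have hx : x.val < n := by
          by_contra hx
          exact h (hall x (by omega))
        have hx2 : Fin.castAdd k ⟨x.val, hx⟩ = x := Fin.ext rfl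
        exact ⟨⟨⟨x.val, hx⟩, by rw [hx2]; exact h⟩, hx2⟩
      · rintro ⟨a, rfl⟩
        exact a.2

/-- A maximal barrier: all components of its complement are odd and factor-critical. -/
private theorem gea_barrier (G : SimpleGraph (Fin n)) (d : ℕ) (h1 : ∃ f, Mt G f ∧ mis f = d)
    (h2 : ∀ f, Mt G f → d ≤ mis f) :
    ∃ U : Fin n → Prop, Nat.card {v // oddRep G U v} = Nat.card {v // U v} + d ∧
      (∀ v, ¬ U v → ∃ r, oddRep G U r ∧ rch G U r v) ∧
      (∀ v, ¬ U v → ∃ f : Fin n → Fin n, (∀ x, f (f x) = x) ∧ (∀ x, ¬ (rch G U v x ∧ x ≠ v) → f x = x) ∧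
        ∀ x, rch G U v x → x ≠ v → G.Adj x (f x)) := by
  classical
  obtain ⟨U0, hU0⟩ := gea_tb G d h1 h2
  obtain ⟨f0, hf0, hm0⟩ := h1
  -- the upper bound
  have hub : ∀ U : Fin n → Prop, Nat.card {v // oddRep G U v} ≤ Nat.card {v // U v} + d := by
    intro U
    have := berge_le G U hf0
    rw [hm0] at this
    exact this
  obtain ⟨U, hU, hmax⟩ := Finset.exists_max_image
    (Finset.univ.filter fun U : Fin n → Prop => Nat.card {v // U v} + d ≤ Nat.card {v // oddRep G U v})
    (fun U => Nat.card {v // U v}) ⟨U0, Finset.mem_filter.mpr ⟨Finset.mem_univ _, hU0⟩⟩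
  have hU1 : Nat.card {v // U v} + d ≤ Nat.card {v // oddRep G U v} := (Finset.mem_filter.mp hU).2
  have hU2 : Nat.card {v // oddRep G U v} = Nat.card {v // U v} + d := le_antisymm (hub U) hU1
  have hmax' : ∀ V : Fin n → Prop, Nat.card {v // V v} + d ≤ Nat.card {v // oddRep G V v} →
      Nat.card {v // V v} ≤ Nat.card {v // U v} :=
    fun V hV => hmax V (Finset.mem_filter.mpr ⟨Finset.mem_univ _, hV⟩)
  -- the main inequality
  have main : ∀ (v : Fin n) (X : Fin n → Prop), ¬ U v → (∀ x, X x → rch G U v x) → X v →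
      Nat.card {w // oddRep G U w ∧ ¬ rch G U v w} +
        Nat.card {w // oddRep G (fun x => ¬ rch G U v x ∨ X x) w} <
        Nat.card {v // U v} + Nat.card {x // X x} + d := by
    intro v X hv hX hXv
    have h3 := oc_split G U X v hv hX
    have h4 : Nat.card {x // U x ∨ X x} = Nat.card {x // U x} + Nat.card {x // X x} :=
      cd_or fun x hx hx' => rch_not G U (hX x hx') hv hx
    have h5 : 0 < Nat.card {x // X x} := by
      have : Nonempty {x // X x} := ⟨⟨v, hXv⟩⟩
      exact Nat.card_pos
    by_contra h6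
    have h7 := hmax' (fun x => U x ∨ X x) (by omega)
    omega
  have hpar : ∀ (v : Fin n) (X : Fin n → Prop), (∀ x, X x → rch G U v x) →
      (Nat.card {w // oddRep G (fun x => ¬ rch G U v x ∨ X x) w} + Nat.card {x // X x} +
        Nat.card {x // rch G U v x}) % 2 = 0 := by
    intro v X hX
    have h3 := oc_parity G (fun x => ¬ rch G U v x ∨ X x)
    have h4 : Nat.card {x // ¬ rch G U v x ∨ X x} = Nat.card {x // ¬ rch G U v x} + Nat.card {x // X x} :=
      cd_or fun x hx hx' => hx (hX x hx')
    have h5 := cd_compl (fun x => rch G U v x)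
    omega
  -- all components are odd
  have hodd : ∀ v, ¬ U v → Odd (Nat.card {x // rch G U v x}) := by
    intro v hv
    by_contra hev
    rw [Nat.odd_iff] at hev
    have h3 := main v (fun x => x = v) hv (by rintro x rfl; exact ReflTransGen.refl) rfl
    have h4 := hpar v (fun x => x = v) (by rintro x rfl; exact ReflTransGen.refl)
    rw [cd_one] at h3 h4
    have h5 : Nat.card {w // oddRep G U w ∧ ¬ rch G U v w} = Nat.card {w // oddRep G U w} := by
      refine cd_congr fun w => ⟨fun h => h.1, fun h => ⟨h, fun hr => ?_⟩⟩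
      have h6 : Nat.card {x // rch G U v x} = Nat.card {x // rch G U w x} :=
        cd_congr fun x => ⟨fun hx => (rch_symm G U hr).trans hx, fun hx => hr.trans hx⟩
      have h7 := h.2.2
      rw [← h6, Nat.odd_iff] at h7
      exact hev h7
    omega
  have hrep : ∀ v, ¬ U v → ∃ r, oddRep G U r ∧ rch G U r v := by
    intro v hv
    obtain ⟨r, hr, hmin⟩ := Finset.exists_min_image (Finset.univ.filter fun w => rch G U v w) id
      ⟨v, Finset.mem_filter.mpr ⟨Finset.mem_univ _, ReflTransGen.refl⟩⟩
    have hvr : rch G U v r := (Finset.mem_filter.mp hr).2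
    have hr' : ¬ U r := rch_not G U hvr hv
    refine ⟨r, ⟨hr', ?_, hodd r hr'⟩, rch_symm G U hvr⟩
    intro w hw
    exact hmin w (Finset.mem_filter.mpr ⟨Finset.mem_univ _, hvr.trans hw⟩)
  refine ⟨U, hU2, hrep, ?_⟩
  intro v hv
  rcases tutte_on G (fun x => rch G U v x ∧ x ≠ v) with ⟨f, hf1, hf2, hf3⟩ | ⟨S, hS1, hS2⟩
  · exact ⟨f, hf1, hf2, fun x hx hx' => hf3 x ⟨hx, hx'⟩⟩
  · exfalso
    have hX : ∀ x, (S x ∨ x = v) → rch G U v x := by
      rintro x (hx | rfl)
      · exact (hS1 x hx).1
      · exact ReflTransGen.refl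
    have h3 := main v (fun x => S x ∨ x = v) hv hX (Or.inr rfl)
    have h4 := hpar v (fun x => S x ∨ x = v) hX
    have h5 : Nat.card {x // S x ∨ x = v} = Nat.card {x // S x} + 1 := by
      rw [cd_or fun x hx hx' => (hS1 x hx).2 hx', cd_one]
    have h6 : (fun x => ¬ (rch G U v x ∧ x ≠ v) ∨ S x) = (fun x => ¬ rch G U v x ∨ (S x ∨ x = v)) := by
      funext x
      apply propext
      tauto
    rw [h6] at hS2
    have h7 := hodd v hv
    rw [Nat.odd_iff] at h7
    have h8 : Nat.card {w // oddRep G U w} ≤ Nat.card {w // oddRep G U w ∧ ¬ rch G U v w} + 1 := by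
      obtain ⟨r, hr, hrv⟩ := hrep v hv
      rw [← cd_one r, ← cd_or (P := fun w => oddRep G U w ∧ ¬ rch G U v w) (Q := fun w => w = r)]
      · refine cd_mono fun w hw => ?_
        by_cases hw' : rch G U v w
        · right
          have h9 : rch G U r w := hrv.trans hw'
          exact le_antisymm (hw.2.1 _ (rch_symm G U h9)) (hr.2.1 _ h9)
        · exact Or.inl ⟨hw, hw'⟩
      · rintro w ⟨_, hw⟩ rfl
        exact hw (rch_symm G U hrv)
    omega

/-- the injective choices given by a matching -/
private theorem gea_fwd (G : SimpleGraph (Fin n)) (d : ℕ) (U : Fin n → Prop)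
    (hc : Nat.card {v // oddRep G U v} = Nat.card {v // U v} + d)
    (f : Fin n → Fin n) (hf : Mt G f) (hm : mis f = d) :
    ∃ φ : {u // U u} → {r // oddRep G U r}, Function.Injective φ ∧
      (∀ u, ∃ x, rch G U (φ u).1 x ∧ G.Adj u.1 x) ∧
      ∀ v, f v = v → ∃ r : {r // oddRep G U r}, rch G U r.1 v ∧ ∀ u, φ u ≠ r := by
  classical
  have hx : ∀ r : {r // oddRep G U r}, ∃ x, rch G U r.1 x ∧ (U (f x) ∨ f x = x) := by
    intro r
    by_contra hno
    push Not at hno
    refine Nat.not_even_iff_odd.mpr r.2.2.2 (gea_even _ f hf.1 ?_ ?_)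
    · intro x hx
      exact gea_step hx (gea_not hx r.2.1) (hno x hx).1 (hf.2 x (hno x hx).2)
    · intro x hx
      exact (hno x hx).2
  choose x hx1 hx2 using hx
  have finj : Function.Injective f := fun a b hab => by rw [← hf.1 a, hab, hf.1 b]
  have xinj : Function.Injective x := by
    intro r s hrs
    have h := hx1 s
    rw [← hrs] at h
    exact Subtype.ext (gea_uniq r.2 s.2 (hx1 r) h)
  have ginj : Function.Injective fun r => f (x r) := finj.comp xinj
  rw [Nat.card_eq_fintype_card, Nat.card_eq_fintype_card, Fintype.card_subtype U] at hc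
  have hm' : (Finset.univ.filter fun y => f y = y).card = d := by
    rw [← hm, mis, Nat.card_eq_fintype_card, Fintype.card_subtype]
  have himg : (Finset.univ.image fun r => f (x r)) ⊆ Finset.univ.filter U ∪ Finset.univ.filter fun y => f y = y := by
    intro y hy
    obtain ⟨r, _, rfl⟩ := Finset.mem_image.mp hy
    rcases hx2 r with h | h
    · exact Finset.mem_union_left _ (Finset.mem_filter.mpr ⟨Finset.mem_univ _, h⟩)
    · exact Finset.mem_union_right _ (Finset.mem_filter.mpr ⟨Finset.mem_univ _, by rw [h, h]⟩)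
  have hci : (Finset.univ.image fun r => f (x r)).card = (Finset.univ.filter U).card + d := by
    rw [Finset.card_image_of_injective _ ginj, Finset.card_univ, hc]
  have hu := Finset.card_union_add_card_inter (Finset.univ.filter U) (Finset.univ.filter fun y => f y = y)
  have hle := Finset.card_le_card himg
  have heq : (Finset.univ.image fun r => f (x r)) = Finset.univ.filter U ∪ Finset.univ.filter fun y => f y = y :=
    Finset.eq_of_subset_of_card_le himg (by omega)
  have hint : (Finset.univ.filter U ∩ Finset.univ.filter fun y => f y = y) = ∅ := by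
    rw [← Finset.card_eq_zero]
    omega
  have hφ : ∀ u : {u // U u}, ∃ s, f (x s) = u.1 := by
    intro u
    have : u.1 ∈ (Finset.univ.image fun r => f (x r)) := by
      rw [heq]
      exact Finset.mem_union_left _ (Finset.mem_filter.mpr ⟨Finset.mem_univ _, u.2⟩)
    obtain ⟨s, _, hs⟩ := Finset.mem_image.mp this
    exact ⟨s, hs⟩
  choose φ hφ using hφ
  refine ⟨φ, ?_, ?_, ?_⟩
  · intro a b hab
    apply Subtype.ext
    rw [← hφ a, hab, hφ b]
  · intro u
    refine ⟨x (φ u), hx1 _, ?_⟩
    have h1 : f (x (φ u)) ≠ x (φ u) := by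
      intro h
      refine gea_not (hx1 (φ u)) (φ u).2.1 ?_
      rw [← h, hφ u]
      exact u.2
    have h2 := hf.2 _ h1
    rw [hφ u] at h2
    exact h2.symm
  · intro v hv
    have hvU : ¬ U v := by
      intro h
      have : v ∈ (Finset.univ.filter U ∩ Finset.univ.filter fun y => f y = y) :=
        Finset.mem_inter.mpr ⟨Finset.mem_filter.mpr ⟨Finset.mem_univ _, h⟩, Finset.mem_filter.mpr ⟨Finset.mem_univ _, hv⟩⟩
      rw [hint] at this
      exact absurd this (Finset.notMem_empty _)
    have hvi : v ∈ (Finset.univ.image fun r => f (x r)) := by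
      rw [heq]
      exact Finset.mem_union_right _ (Finset.mem_filter.mpr ⟨Finset.mem_univ _, hv⟩)
    obtain ⟨r, _, hr⟩ := Finset.mem_image.mp hvi
    have hxr : x r = v := finj (by rw [hr, hv])
    refine ⟨r, hxr ▸ hx1 r, fun u hu2 => ?_⟩
    apply hvU
    have h1 := hφ u
    rw [hu2, hxr, hv] at h1
    rw [h1]
    exact u.2

/-- the matching given by injective choices -/
private theorem gea_bwd (G : SimpleGraph (Fin n)) (d : ℕ) (h2 : ∀ f, Mt G f → d ≤ mis f) (U : Fin n → Prop)
    (hc : Nat.card {v // oddRep G U v} = Nat.card {v // U v} + d)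
    (hrep : ∀ v, ¬ U v → ∃ r, oddRep G U r ∧ rch G U r v)
    (hpm : ∀ v, ¬ U v → ∃ f : Fin n → Fin n, (∀ x, f (f x) = x) ∧ (∀ x, ¬ (rch G U v x ∧ x ≠ v) → f x = x) ∧
        ∀ x, rch G U v x → x ≠ v → G.Adj x (f x))
    (r : {r // oddRep G U r}) (v : Fin n) (hv : rch G U r.1 v)
    (φ : {u // U u} → {r // oddRep G U r}) (hinj : Function.Injective φ)
    (hR : ∀ u, ∃ x, rch G U (φ u).1 x ∧ G.Adj u.1 x) (hne : ∀ u, φ u ≠ r) :
    ∃ f, Mt G f ∧ mis f = d ∧ f v = v := by
  classical
  have hroot : ∀ s : {r // oddRep G U r}, ∃ y, rch G U s.1 y ∧ (s = r → y = v) ∧ ∀ u, φ u = s → G.Adj u.1 y := by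
    intro s
    by_cases h1 : s = r
    · subst h1
      exact ⟨v, hv, fun _ => rfl, fun u hu => absurd hu (hne u)⟩
    · by_cases h3 : ∃ u, φ u = s
      · obtain ⟨u, hu⟩ := h3
        obtain ⟨y, hy1, hy2⟩ := hR u
        refine ⟨y, hu ▸ hy1, fun h => absurd h h1, ?_⟩
        intro u' hu'
        have : u' = u := hinj (hu'.trans hu.symm)
        rw [this]
        exact hy2
      · exact ⟨s.1, ReflTransGen.refl, fun h => absurd h h1, fun u hu => absurd ⟨u, hu⟩ h3⟩
  choose root hr1 hr2 hr3 using hroot
  have hrootU : ∀ s, ¬ U (root s) := fun s => gea_not (hr1 s) s.2.1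
  have hm : ∀ s : {r // oddRep G U r}, ∃ m : Fin n → Fin n, (∀ x, m (m x) = x) ∧
      (∀ x, ¬ (rch G U s.1 x ∧ x ≠ root s) → m x = x) ∧ ∀ x, rch G U s.1 x → x ≠ root s → G.Adj x (m x) := by
    intro s
    obtain ⟨m, hm1, hm2, hm3⟩ := hpm (root s) (hrootU s)
    refine ⟨m, hm1, ?_, ?_⟩
    · intro x hx
      exact hm2 x fun h => hx ⟨gea_trans (hr1 s) h.1, h.2⟩
    · intro x hx hne'
      exact hm3 x (gea_trans (gea_symm (hr1 s)) hx) hne'
  choose m hm1 hm2 hm3 using hm
  have hρ : ∀ x, ¬ U x → ∃ s : {r // oddRep G U r}, rch G U s.1 x := fun x hx => by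
    obtain ⟨s, hs1, hs2⟩ := hrep x hx
    exact ⟨⟨s, hs1⟩, hs2⟩
  choose ρ hρ using hρ
  have hρu : ∀ x (hx : ¬ U x) (s : {r // oddRep G U r}), rch G U s.1 x → ρ x hx = s := fun x hx s hs =>
    Subtype.ext (gea_uniq (ρ x hx).2 s.2 (hρ x hx) hs)
  -- the matching
  let F : Fin n → Fin n := fun x =>
    if hx : U x then root (φ ⟨x, hx⟩)
    else if x = root (ρ x hx) then (if h : ∃ u, φ u = ρ x hx then h.choose.1 else x)
    else m (ρ x hx) x
  have F1 : ∀ x (hx : U x), F x = root (φ ⟨x, hx⟩) := fun x hx => by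
    simp only [F]
    rw [dif_pos hx]
  have F2 : ∀ u : {u // U u}, F (root (φ u)) = u.1 := by
    intro u
    have h0 : ρ (root (φ u)) (hrootU (φ u)) = φ u := hρu _ _ _ (hr1 _)
    have h3 : ∃ u', φ u' = ρ (root (φ u)) (hrootU (φ u)) := ⟨u, h0.symm⟩
    simp only [F]
    rw [dif_neg (hrootU (φ u)), if_pos (by rw [h0]), dif_pos h3]
    exact congrArg Subtype.val (hinj (h3.choose_spec.trans h0))
  have F3 : ∀ s : {r // oddRep G U r}, (¬ ∃ u, φ u = s) → F (root s) = root s := by
    intro s hs
    have h0 : ρ (root s) (hrootU s) = s := hρu _ _ _ (hr1 _)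
    simp only [F]
    rw [dif_neg (hrootU s), if_pos (by rw [h0]), dif_neg (by rw [h0]; exact hs)]
  have F4 : ∀ (s : {r // oddRep G U r}) x, rch G U s.1 x → x ≠ root s → F x = m s x := by
    intro s x hx hne'
    have hxU : ¬ U x := gea_not hx s.2.1
    have h0 : ρ x hxU = s := hρu _ _ _ hx
    simp only [F]
    rw [dif_neg hxU, if_neg (by rw [h0]; exact hne'), h0]
  have hms : ∀ (s : {r // oddRep G U r}) x, rch G U s.1 x → x ≠ root s → rch G U s.1 (m s x) ∧ m s x ≠ root s := by
    intro s x hx hne'
    by_contra hno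
    have h1 := hm2 s (m s x) hno
    rw [hm1 s x] at h1
    have h3 := hm3 s x hx hne'
    rw [← h1] at h3
    exact G.loopless.irrefl _ h3
  have hMt : Mt G F := by
    constructor
    · intro x
      by_cases hx : U x
      · rw [F1 x hx, F2]
      · by_cases hxr : x = root (ρ x hx)
        · by_cases h : ∃ u, φ u = ρ x hx
          · obtain ⟨u, hu⟩ := h
            rw [hxr, ← hu, F2, F1 u.1 u.2]
          · have h3 := F3 (ρ x hx) h
            rw [← hxr] at h3
            rw [h3, h3]
        · have h3 := F4 (ρ x hx) x (hρ x hx) hxr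
          obtain ⟨h4, h5⟩ := hms (ρ x hx) x (hρ x hx) hxr
          rw [h3, F4 (ρ x hx) _ h4 h5, hm1]
    · intro x hFx
      by_cases hx : U x
      · rw [F1 x hx]
        exact hr3 _ ⟨x, hx⟩ rfl
      · by_cases hxr : x = root (ρ x hx)
        · by_cases h : ∃ u, φ u = ρ x hx
          · obtain ⟨u, hu⟩ := h
            have h3 := F2 u
            rw [hu, ← hxr] at h3
            rw [h3]
            have h4 := hr3 _ u hu
            rw [← hxr] at h4
            exact h4.symm
          · have h3 := F3 (ρ x hx) h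
            rw [← hxr] at h3
            exact absurd h3 hFx
        · rw [F4 (ρ x hx) x (hρ x hx) hxr]
          exact hm3 _ x (hρ x hx) hxr
  have hfix : ∀ x, F x = x → ∃ s : {r // oddRep G U r}, (¬ ∃ u, φ u = s) ∧ root s = x := by
    intro x hFx
    by_cases hx : U x
    · rw [F1 x hx] at hFx
      exact absurd (hFx ▸ hx) (hrootU _)
    · by_cases hxr : x = root (ρ x hx)
      · refine ⟨ρ x hx, ?_, hxr.symm⟩
        rintro ⟨u, hu⟩
        have h3 := F2 u
        rw [hu, ← hxr, hFx] at h3
        exact hx (h3 ▸ u.2)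
      · exfalso
        rw [F4 (ρ x hx) x (hρ x hx) hxr] at hFx
        have h3 := hm3 _ x (hρ x hx) hxr
        rw [hFx] at h3
        exact G.loopless.irrefl _ h3
  have hmis : mis F ≤ d := by
    have h3 : Nat.card {s : {r // oddRep G U r} // ¬ ∃ u, φ u = s} = d := by
      rw [Nat.card_eq_fintype_card, Fintype.card_subtype_compl,
        Fintype.card_subtype fun s : {r // oddRep G U r} => ∃ u, φ u = s]
      have h4 : (Finset.univ.filter fun s => ∃ u, φ u = s) = Finset.univ.image φ := by
        ext s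
        simp
      rw [h4, Finset.card_image_of_injective _ hinj, Finset.card_univ]
      rw [Nat.card_eq_fintype_card, Nat.card_eq_fintype_card] at hc
      omega
    rw [← h3]
    choose g hg1 hg2 using hfix
    refine Nat.card_le_card_of_injective (fun x : {x // F x = x} =>
      (⟨g x.1 x.2, hg1 x.1 x.2⟩ : {s : {r // oddRep G U r} // ¬ ∃ u, φ u = s})) ?_
    intro a b hab
    have h4 : g a.1 a.2 = g b.1 b.2 := congrArg Subtype.val hab
    apply Subtype.ext
    rw [← hg2 a.1 a.2, ← hg2 b.1 b.2, h4]
  refine ⟨F, hMt, le_antisymm hmis (h2 F hMt), ?_⟩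
  have h3 := F3 r fun ⟨u, hu⟩ => hne u hu
  rw [hr2 r rfl] at h3
  exact h3

private theorem gea_main (G : SimpleGraph (Fin n)) (d : ℕ) (h1 : ∃ f, Mt G f ∧ mis f = d)
    (h2 : ∀ f, Mt G f → d ≤ mis f) (D : Fin n → Prop) (hD : ∀ v, D v ↔ ∃ f, Mt G f ∧ mis f = d ∧ f v = v) :
    Nat.card {v // oddRep G (NA G D) v} = Nat.card {v // NA G D v} + d := by
  classical
  obtain ⟨U, hc, hrep, hpm⟩ := gea_barrier G d h1 h2
  let R : {u // U u} → {r // oddRep G U r} → Prop := fun u r => ∃ x, rch G U r.1 x ∧ G.Adj u.1 x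
  have hbase : ∃ φ : {u // U u} → {r // oddRep G U r}, Function.Injective φ ∧ ∀ a, R a (φ a) := by
    obtain ⟨f, hf, hm⟩ := h1
    obtain ⟨φ, h3, h4, _⟩ := gea_fwd G d U hc f hf hm
    exact ⟨φ, h3, h4⟩
  obtain ⟨S, hS1, hS2⟩ := hall_tight R hbase
  let Dc : {r // oddRep G U r} → Prop := fun b =>
    ∃ f : {u // U u} → {r // oddRep G U r}, Function.Injective f ∧ (∀ a, R a (f a)) ∧ ∀ a, f a ≠ b
  have hS1' : ∀ b, (∃ a ∈ S, R a b) ↔ ¬ Dc b := hS1
  have hDD : ∀ v, D v ↔ ∃ r : {r // oddRep G U r}, rch G U r.1 v ∧ Dc r := by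
    intro v
    constructor
    · intro hDv
      obtain ⟨f, hf, hm, hv⟩ := (hD v).mp hDv
      obtain ⟨φ, h4, h5, h6⟩ := gea_fwd G d U hc f hf hm
      obtain ⟨r, h7, h8⟩ := h6 v hv
      exact ⟨r, h7, φ, h4, h5, h8⟩
    · rintro ⟨r, h3, φ, h4, h5, h6⟩
      exact (hD v).mpr (gea_bwd G d h2 U hc hrep hpm r v h3 φ h4 h5 h6)
  have hNA : ∀ a, NA G D a → ∃ h : U a, (⟨a, h⟩ : {u // U u}) ∉ S := by
    rintro a ⟨ha, u, hu, hadj⟩
    obtain ⟨r, hr1, hr2⟩ := (hDD u).mp hu
    have hUa : U a := by
      by_contra hUa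
      refine ha ((hDD a).mpr ⟨r, gea_step hr1 (gea_not hr1 r.2.1) hUa hadj.symm, hr2⟩)
    refine ⟨hUa, fun haS => ?_⟩
    exact ((hS1' r).mp ⟨⟨a, hUa⟩, haS, u, hr1, hadj⟩) hr2
  have hDDn : ∀ a, NA G D a → ¬ D a := fun a ha => ha.1
  have hc1 : Nat.card {v // NA G D v} + S.card ≤ Nat.card {v // U v} := by
    have h3 : Nat.card {u : {u // U u} // u ∉ S} = Nat.card {v // U v} - S.card := by
      rw [Nat.card_eq_fintype_card, Nat.card_eq_fintype_card, Fintype.card_subtype_compl, Fintype.card_coe]
    have h4 : Nat.card {v // NA G D v} ≤ Nat.card {u : {u // U u} // u ∉ S} := by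
      refine Nat.card_le_card_of_injective (fun a : {v // NA G D v} =>
        (⟨⟨a.1, (hNA a.1 a.2).choose⟩, (hNA a.1 a.2).choose_spec⟩ : {u : {u // U u} // u ∉ S})) ?_
      intro a b hab
      apply Subtype.ext
      have h5 := congrArg (fun z : {u : {u // U u} // u ∉ S} => z.1.1) hab
      exact h5
    have h5 : S.card ≤ Nat.card {v // U v} := by
      rw [Nat.card_eq_fintype_card]
      exact Finset.card_le_univ S
    omega
  have hc2 : Nat.card {b // Dc b} + S.card = Nat.card {v // oddRep G U v} := by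
    rw [← hS2]
    have h3 : Nat.card {b : {r // oddRep G U r} // ∃ a ∈ S, R a b} = Nat.card {b // ¬ Dc b} :=
      Nat.card_congr (Equiv.subtypeEquivRight hS1')
    rw [h3, Nat.card_eq_fintype_card, Nat.card_eq_fintype_card, Nat.card_eq_fintype_card,
      Fintype.card_subtype_compl]
    have h4 := Fintype.card_subtype_le Dc
    omega
  have hsame : ∀ b : {r // oddRep G U r}, Dc b → ∀ w, rch G (NA G D) b.1 w ↔ rch G U b.1 w := by
    intro b hb w
    constructor
    · intro h
      induction h with
      | refl => exact ReflTransGen.refl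
      | tail h3 h4 ih =>
        rename_i x y
        have hxD : D x := (hDD x).mpr ⟨b, ih, hb⟩
        have hyD : D y := by
          by_contra hyD
          exact h4.2.1 ⟨hyD, x, hxD, h4.2.2.symm⟩
        obtain ⟨s, hs1, hs2⟩ := (hDD y).mp hyD
        exact gea_step ih (gea_not ih b.2.1) (gea_not hs1 s.2.1) h4.2.2
    · intro h
      have h3 : ∀ w, rch G U b.1 w → ¬ NA G D w := fun w hw hN => hN.1 ((hDD w).mpr ⟨b, hw, hb⟩)
      clear hS2 hc2 hc1
      induction h with
      | refl => exact ReflTransGen.refl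
      | tail h5 h4 ih =>
        exact gea_step ih (h3 _ h5) (h3 _ (ReflTransGen.tail h5 h4)) h4.2.2
  have hodd : ∀ b : {r // oddRep G U r}, Dc b → oddRep G (NA G D) b.1 := by
    intro b hb
    refine ⟨fun h => h.1 ((hDD b.1).mpr ⟨b, ReflTransGen.refl, hb⟩), ?_, ?_⟩
    · intro w hw
      exact b.2.2.1 w ((hsame b hb w).mp hw)
    · have h3 : Nat.card {w // rch G (NA G D) b.1 w} = Nat.card {w // rch G U b.1 w} :=
        Nat.card_congr (Equiv.subtypeEquivRight (hsame b hb))
      rw [h3]
      exact b.2.2.2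
  have hc3 : Nat.card {b // Dc b} ≤ Nat.card {v // oddRep G (NA G D) v} := by
    refine Nat.card_le_card_of_injective (fun b : {b // Dc b} =>
      (⟨b.1.1, hodd b.1 b.2⟩ : {v // oddRep G (NA G D) v})) ?_
    intro a b hab
    have h3 := congrArg Subtype.val hab
    exact Subtype.ext (Subtype.ext h3)
  obtain ⟨f, hf, hm⟩ := h1
  have hle := berge_le G (NA G D) hf
  rw [hm] at hle
  omega

/-- The theorem of Gallai and Edmonds for a graph of deficiency `d`. `D`: the vertices which are not covered by some maximum matching; `A = NA G D`: the neighbours of `D` outside of `D`.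
The complement of `A` has exactly `card A + d` odd components.
PROOF. `≤`: `berge_le`. `≥`: as `ge_ineq` (which is the case `d = 2`), with a maximal set `U` such that `G - U` has `card U + d` odd components (`gea_tb`: Tutte's theorem for the join of `G` with the complete graph with `d - 2` vertices). -/
theorem ge_all {n : ℕ} (G : SimpleGraph (Fin n)) (d : ℕ) (h1 : ∃ f, Mt G f ∧ mis f = d)
    (h2 : ∀ f, Mt G f → d ≤ mis f) :
    Nat.card {v // oddRep G (NA G fun v => ∃ f, Mt G f ∧ mis f = d ∧ f v = v) v} =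
      Nat.card {v // NA G (fun v => ∃ f, Mt G f ∧ mis f = d ∧ f v = v) v} + d :=
  gea_main G d h1 h2 _ fun _ => Iff.rfl

end ZER
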