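import Pool.Agent.Lib.MP_0087d5_lcZE.ZFin
import Pool.Agent.Lib.MP_0087d5_lcMT.Y3
import Pool.Agent.Lib.MP_0087d5_lcLI.Uni
import Pool.Agent.Lib.MP_0087d5_lcLI.NC2

/-!
# The errorless test of all graphs with a separate source
-/

set_option autoImplicit false
set_option linter.all false

namespace PRS

open Relation Pool.Agent Pool.Agent.PMNC MTC ZER LIN

section
variable {H : ∀ n : ℕ, SimpleGraph (Fin n) → SimpleGraph (Fin n)}

/-- the tested graphs -/
def TH (H : ∀ n : ℕ, SimpleGraph (Fin n) → SimpleGraph (Fin n)) (n : ℕ) (G : SimpleGraph (Fin n)) (e : Fin n × (Fin n × Fin n)) :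
    SimpleGraph (Fin n) :=
  TT n (H n G) e

theorem defH (hH : DefP (E := fun n => Fin n × Fin n) (fun n G X y => (H n G).Adj y.1 y.2)) {E : ℕ → Type} [Env E]
    {x y : ∀ n : ℕ, E n → Fin n} (hx : Tm (F := fun n => Fin n) x) (hy : Tm (F := fun n => Fin n) y) :
    DefP (fun n G X e => (H n G).Adj (x n e) (y n e)) :=
  DefP.comp (F := fun n => Fin n × Fin n) (f := fun n e => (x n e, y n e)) hH (Tm.pair (F := fun n => Fin n) (H := fun n => Fin n) hx hy)

theorem def_TH (hH : DefP (E := fun n => Fin n × Fin n) (fun n G X y => (H n G).Adj y.1 y.2)) :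
    DefP (E := fun n => (Fin n × (Fin n × Fin n)) × (Fin n × Fin n)) (fun n G X y => (TH H n G y.1).Adj y.2.1 y.2.2) := by
  have k : Tm (E := fun n => (Fin n × (Fin n × Fin n)) × (Fin n × Fin n)) (F := fun n => Fin n) (fun n y => y.1.1) :=
    Tm.fst (F := fun n => Fin n) (H := fun n => Fin n × Fin n) (Tm.fst (F := fun n => Fin n × (Fin n × Fin n)) (H := fun n => Fin n × Fin n) Tm.id)
  have uv : Tm (E := fun n => (Fin n × (Fin n × Fin n)) × (Fin n × Fin n)) (F := fun n => Fin n × Fin n) (fun n y => y.1.2) :=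
    Tm.snd (F := fun n => Fin n) (H := fun n => Fin n × Fin n) (Tm.fst (F := fun n => Fin n × (Fin n × Fin n)) (H := fun n => Fin n × Fin n) Tm.id)
  have xy : Tm (E := fun n => (Fin n × (Fin n × Fin n)) × (Fin n × Fin n)) (F := fun n => Fin n × Fin n) (fun n y => y.2) :=
    Tm.snd (F := fun n => Fin n × (Fin n × Fin n)) (H := fun n => Fin n × Fin n) Tm.id
  have u := Tm.fst (F := fun n => Fin n) (H := fun n => Fin n) uv
  have v := Tm.snd (F := fun n => Fin n) (H := fun n => Fin n) uv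
  have x := Tm.fst (F := fun n => Fin n) (H := fun n => Fin n) xy
  have y := Tm.snd (F := fun n => Fin n) (H := fun n => Fin n) xy
  refine (DefP.and (DefP.not (DefP.eqFin x y)) (DefP.or (DefP.and (DefP.not (DefP.eqFin x y)) (DefP.or (defH hH x y)
    (DefP.or (DefP.lt x k) (DefP.lt y k)))) (DefP.or (DefP.and (DefP.eqFin x u) (DefP.eqFin y v))
      (DefP.and (DefP.eqFin x v) (DefP.eqFin y u))))).congr fun n G X z => ?_
  exact Iff.rfl

variable {E : ℕ → Type} [Env E] {A : ∀ n : ℕ, SimpleGraph (Fin n) → E n → Fin n → Prop}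

theorem defH_rch (hH : DefP (E := fun n => Fin n × Fin n) (fun n G X y => (H n G).Adj y.1 y.2))
    (hA : DefP (E := fun n => E n × Fin n) (fun n G X y => A n G y.1 y.2)) :
    DefP (E := fun n => E n × (Fin n × Fin n)) (fun n G X y => rch (H n G) (A n G y.1) y.2.1 y.2.2) := by
  unfold rch
  refine DefP.rtc (E := fun n => E n × (Fin n × Fin n)) (S := fun n => Fin n)
    (R := fun n G X y a b => ¬ A n G y.1 a ∧ ¬ A n G y.1 b ∧ (H n G).Adj a b) ?_
    (Tm.fst (F := fun n => Fin n) (H := fun n => Fin n) (Tm.snd Tm.id)) (Tm.snd (F := fun n => Fin n) (H := fun n => Fin n) (Tm.snd Tm.id))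
  have e : Tm (E := fun n => (E n × (Fin n × Fin n)) × (Fin n × Fin n)) (F := E) (fun n y => y.1.1) := Tm.fst (Tm.fst Tm.id)
  have a : Tm (E := fun n => (E n × (Fin n × Fin n)) × (Fin n × Fin n)) (F := fun n => Fin n) (fun n y => y.2.1) :=
    Tm.fst (F := fun n => Fin n) (H := fun n => Fin n) (Tm.snd Tm.id)
  have b : Tm (E := fun n => (E n × (Fin n × Fin n)) × (Fin n × Fin n)) (F := fun n => Fin n) (fun n y => y.2.2) :=
    Tm.snd (F := fun n => Fin n) (H := fun n => Fin n) (Tm.snd Tm.id)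
  exact DefP.and (DefP.not (DefP.comp (F := fun n => E n × Fin n) hA (Tm.pair (H := fun n => Fin n) e a)))
    (DefP.and (DefP.not (DefP.comp (F := fun n => E n × Fin n) hA (Tm.pair (H := fun n => Fin n) e b))) (defH hH a b))

theorem defH_oddRep (hH : DefP (E := fun n => Fin n × Fin n) (fun n G X y => (H n G).Adj y.1 y.2))
    (hA : DefP (E := fun n => E n × Fin n) (fun n G X y => A n G y.1 y.2)) :
    DefP (E := fun n => E n × Fin n) (fun n G X y => oddRep (H n G) (A n G y.1) y.2) := by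
  have hr := defH_rch hH hA
  have e : Tm (E := fun n => (E n × Fin n) × Fin n) (F := E) (fun n y => y.1.1) := Tm.fst (Tm.fst Tm.id)
  have a : Tm (E := fun n => (E n × Fin n) × Fin n) (F := fun n => Fin n) (fun n y => y.1.2) := Tm.snd (Tm.fst Tm.id)
  have b : Tm (E := fun n => (E n × Fin n) × Fin n) (F := fun n => Fin n) (fun n y => y.2) := Tm.snd Tm.id
  have hr' : DefP (E := fun n => (E n × Fin n) × Fin n) (fun n G X y => rch (H n G) (A n G y.1.1) y.1.2 y.2) :=
    DefP.comp (F := fun n => E n × (Fin n × Fin n)) (f := fun n (y : (E n × Fin n) × Fin n) => (y.1.1, (y.1.2, y.2))) hr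
      (Tm.pair (H := fun n => Fin n × Fin n) e (Tm.pair (F := fun n => Fin n) (H := fun n => Fin n) a b))
  unfold oddRep
  refine DefP.and (DefP.not hA) (DefP.and (DefP.allFin (DefP.imp hr' (DefP.le a b))) (DefP.oddCard (S := fun n => Fin n) hr'))

theorem defH_viol (hH : DefP (E := fun n => Fin n × Fin n) (fun n G X y => (H n G).Adj y.1 y.2))
    (hA : DefP (E := fun n => E n × Fin n) (fun n G X y => A n G y.1 y.2)) :
    DefP (fun n G X x => Viol (H n G) (A n G x)) := by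
  unfold Viol
  exact DefP.cardLt (S := fun n => Fin n) (T := fun n => Fin n) hA (defH_oddRep hH hA)

end

/-- the second test -/
def NoH (H : ∀ n : ℕ, SimpleGraph (Fin n) → SimpleGraph (Fin n)) (P : ∀ n : ℕ, SimpleGraph (Fin n) → Fin n × (Fin n × Fin n) → Prop)
    (n : ℕ) (G : SimpleGraph (Fin n)) : Prop :=
  Odd (Nat.card {a : Fin n // True}) ∨ ∃ k : Fin n, Viol (H n G) (NA (uni (H n G) (k : ℕ)) fun v => ∃ u, P n G (k, (u, v)))

theorem def_NoH {H : ∀ n : ℕ, SimpleGraph (Fin n) → SimpleGraph (Fin n)}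
    (hH : DefP (E := fun n => Fin n × Fin n) (fun n G X y => (H n G).Adj y.1 y.2))
    {P : ∀ n : ℕ, SimpleGraph (Fin n) → Fin n × (Fin n × Fin n) → Prop}
    (hP : DefP (E := fun n => Fin n × (Fin n × Fin n)) (fun n G X e => P n G e)) :
    DefP (E := fun _ => Unit) (fun n G X _ => NoH H P n G) := by
  unfold NoH
  refine DefP.or (DefP.oddCard (S := fun n => Fin n) (DefP.const _)) (DefP.exFin ?_)
  refine defH_viol hH (E := fun n => Unit × Fin n) (A := fun n G y => NA (uni (H n G) (y.2 : ℕ)) fun v => ∃ u, P n G (y.2, (u, v))) ?_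
  have hD : DefP (E := fun n => (Unit × Fin n) × Fin n) (fun n G X y => ∃ u, P n G (y.1.2, (u, y.2))) := by
    refine DefP.exFin (DefP.comp (F := fun n => Fin n × (Fin n × Fin n)) (f := fun n (y : ((Unit × Fin n) × Fin n) × Fin n) => (y.1.1.2, (y.2, y.1.2))) hP ?_)
    exact Tm.pair (F := fun n => Fin n) (H := fun n => Fin n × Fin n)
      (Tm.snd (F := fun _ => Unit) (H := fun n => Fin n) (Tm.fst (Tm.fst Tm.id)))
      (Tm.pair (F := fun n => Fin n) (H := fun n => Fin n) (Tm.snd Tm.id) (Tm.snd (Tm.fst Tm.id)))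
  unfold NA
  refine DefP.and (DefP.not hD) (DefP.exFin (DefP.and ?_ ?_))
  · refine DefP.comp (E := fun n => ((Unit × Fin n) × Fin n) × Fin n) (F := fun n => (Unit × Fin n) × Fin n)
      (f := fun n (y : ((Unit × Fin n) × Fin n) × Fin n) => (y.1.1, y.2)) hD ?_
    exact Tm.pair (F := fun n => Unit × Fin n) (H := fun n => Fin n) (Tm.fst (Tm.fst Tm.id)) (Tm.snd Tm.id)
  · have k : Tm (E := fun n => ((Unit × Fin n) × Fin n) × Fin n) (F := fun n => Fin n) (fun n y => y.1.1.2) :=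
      Tm.snd (F := fun _ => Unit) (H := fun n => Fin n) (Tm.fst (Tm.fst Tm.id))
    have x : Tm (E := fun n => ((Unit × Fin n) × Fin n) × Fin n) (F := fun n => Fin n) (fun n y => y.1.2) := Tm.snd (Tm.fst Tm.id)
    have y : Tm (E := fun n => ((Unit × Fin n) × Fin n) × Fin n) (F := fun n => Fin n) (fun n y => y.2) := Tm.snd Tm.id
    refine (DefP.and (DefP.not (DefP.eqFin x y)) (DefP.or (defH hH x y) (DefP.or (DefP.lt x k) (DefP.lt y k)))).congr fun n G X z => ?_
    exact Iff.rfl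

theorem noH_sound {H : ∀ n : ℕ, SimpleGraph (Fin n) → SimpleGraph (Fin n)}
    {P : ∀ n : ℕ, SimpleGraph (Fin n) → Fin n × (Fin n × Fin n) → Prop} {n : ℕ} {G : SimpleGraph (Fin n)}
    (h : NoH H P n G) : ¬ HasPM (H n G) := by
  rw [hp_iff]
  rcases h with h | ⟨k, h⟩
  · rw [card_true] at h
    exact odd_sound h _
  · exact viol_sound _ _ h

theorem noH_complete {H : ∀ n : ℕ, SimpleGraph (Fin n) → SimpleGraph (Fin n)}
    {P : ∀ n : ℕ, SimpleGraph (Fin n) → Fin n × (Fin n × Fin n) → Prop} {n : ℕ} {G : SimpleGraph (Fin n)}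
    (hP : ∀ e, P n G e ↔ HasPM (TH H n G e)) (h : ¬ HasPM (H n G)) : NoH H P n G := by
  rw [hp_iff] at h
  rcases Nat.even_or_odd n with hn | hn
  · obtain ⟨k, hk1, hk2⟩ := exists_k hn (H n G) h
    refine Or.inr ⟨k, ?_⟩
    have h1 := exists_mis2 (H n G) k hk2
    have hD : (fun v => ∃ u, P n G (k, (u, v))) = DD (uni (H n G) (k : ℕ)) := by
      funext v
      apply propext
      rw [dd_iff hk1]
      refine exists_congr fun u => ?_
      rw [hP, hp_iff]
      exact Iff.rfl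
    rw [hD]
    have h2 := ge_ineq (uni (H n G) (k : ℕ)) h1 (two_le_mis hn hk1)
    exact (viol_congr (H n G) fun x hx => uni_na hk1 h1 hx).1 h2
  · exact Or.inl (by rw [card_true]; exact hn)

/-- the number of the pairs of a set of natural numbers of order `n + n` -/
theorem pow_le (C n : ℕ) (hn : 2 ≤ n) : (n + n) ^ (C * (n + n)) ≤ n ^ (4 * C * n) := by
  have h : n + n ≤ n ^ 2 := by nlinarith
  calc (n + n) ^ (C * (n + n)) ≤ (n ^ 2) ^ (C * (n + n)) := Nat.pow_le_pow_left h _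
    _ = n ^ (4 * C * n) := by
        rw [← pow_mul]
        congr 1
        ring

/-- **The errorless test of all graphs, with a separate source**, in terms of graphs on `n + n` vertices -/
theorem pairs_all : ∃ (Yes No : ∀ n : ℕ, SimpleGraph (Fin n) → Prop) (C : ℕ), PMNC.InNC Yes ∧ PMNC.InNC No ∧
    (∀ (n : ℕ) (G A : SimpleGraph (Fin n)), Yes (n + n) (pair G A) → HasPM G) ∧
    (∀ (n : ℕ) (G A : SimpleGraph (Fin n)), No (n + n) (pair G A) → ¬ HasPM G) ∧
    ∀ n : ℕ, Nat.card {A : SimpleGraph (Fin n) // ∃ G : SimpleGraph (Fin n), ¬ Yes (n + n) (pair G A) ∧ ¬ No (n + n) (pair G A)} ≤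
      n ^ (C * n) := by
  obtain ⟨C, hU⟩ := universal2
  obtain ⟨Y, hY1, hY2, hY3⟩ := nc2_defP C def_SP def_TP
  obtain ⟨P, hP1, hP2, hP3⟩ := nc2_def C (B := fun n => Fin n × (Fin n × Fin n)) (A := fun n G _ => SP n G) (T := TH TP)
    (defH def_SP (Tm.fst (F := fun n => Fin n) (H := fun n => Fin n) (Tm.snd Tm.id))
      (Tm.snd (F := fun n => Fin n) (H := fun n => Fin n) (Tm.snd Tm.id))) (def_TH def_TP)
  refine ⟨fun n G => (n ≤ 2 ∧ HasPM (TP n G)) ∨ Y n G, fun n G => (n ≤ 2 ∧ ¬ HasPM (TP n G)) ∨ NoH TP P n G, 4 * C, ?_, ?_, ?_, ?_, ?_⟩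
  · exact PMNC.InNC.or (inNC_of_defP (defP_small 2 (fun n G => HasPM (TP n G)))) hY1
  · exact PMNC.InNC.or (inNC_of_defP (defP_small 2 (fun n G => ¬ HasPM (TP n G)))) (inNC_of_defP (def_NoH def_TP hP1))
  · rintro n G A (h | h)
    · exact (hasPM_TP G A).1 h.2
    · exact (hasPM_TP G A).1 (hY2 _ _ h)
  · rintro n G A (h | h)
    · exact fun h' => h.2 ((hasPM_TP G A).2 h')
    · exact fun h' => noH_sound h ((hasPM_TP G A).2 h')
  · intro n
    rcases Nat.lt_or_ge 1 n with hn | hn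
    · refine le_trans ?_ ((hU (n + n) (by omega)).trans (pow_le C n hn))
      refine Nat.card_le_card_of_injective (fun A : {A : SimpleGraph (Fin n) // ∃ G : SimpleGraph (Fin n),
        ¬ ((n + n ≤ 2 ∧ HasPM (TP (n + n) (pair G A))) ∨ Y (n + n) (pair G A)) ∧
        ¬ ((n + n ≤ 2 ∧ ¬ HasPM (TP (n + n) (pair G A))) ∨ NoH TP P (n + n) (pair G A))} =>
        (⟨SP (n + n) (pair ⊥ A.1), ?_⟩ : {A : SimpleGraph (Fin (n + n)) // ∃ G : SimpleGraph (Fin (n + n)), HasPM G ∧ ¬ OK2 C G A})) ?_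
      · by_contra hc
        push Not at hc
        obtain ⟨G, hG1, hG2⟩ := A.2
        rw [SP_congr ⊥ G A.1] at hc
        apply hG2
        refine Or.inr (noH_complete (fun e => ⟨hP2 (n + n) _ e, fun h => ?_⟩) fun h => ?_)
        · exact hP3 (n + n) (by omega) _ e (hc _ h)
        · exact hG1 (Or.inr (hY3 (n + n) (by omega) _ (hc _ h)))
      · intro a b hab
        exact Subtype.ext (SP_inj _ _ _ (congrArg (fun z : {A : SimpleGraph (Fin (n + n)) // ∃ G : SimpleGraph (Fin (n + n)), HasPM G ∧ ¬ OK2 C G A} => z.1) hab))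
    · have h0 : IsEmpty {A : SimpleGraph (Fin n) // ∃ G : SimpleGraph (Fin n),
          ¬ ((n + n ≤ 2 ∧ HasPM (TP (n + n) (pair G A))) ∨ Y (n + n) (pair G A)) ∧
          ¬ ((n + n ≤ 2 ∧ ¬ HasPM (TP (n + n) (pair G A))) ∨ NoH TP P (n + n) (pair G A))} := by
        refine ⟨fun A => ?_⟩
        obtain ⟨G, hG1, hG2⟩ := A.2
        by_cases h : HasPM (TP (n + n) (pair G A.1))
        · exact hG1 (Or.inl ⟨by omega, h⟩)
        · exact hG2 (Or.inl ⟨by omega, h⟩)
      rw [Nat.card_of_isEmpty]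
      exact Nat.zero_le _

end PRS
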