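import Pool.Agent.Lib.MP_0087d5_lcLI.NC2
import Pool.Agent.Lib.MP_0087d5_lcMT.Y2
import Pool.Agent.Lib.MP_0087d5_lcZE.ZS

/-!
# Search with certificates: definitions

`pair G A` (file MT/Y2) is the graph on `Fin (n + n)` with `G` on the first half and `A` on the second half; `lo u`: the vertex `u` is in the first half.
-/

set_option autoImplicit false
set_option linter.all false

namespace PRS

open Finset Pool.Agent Pool.Agent.PMNC MTC LIN ZER

section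
variable {n : ℕ}

/-- the tested graph for the deficiency `d`: the edges inside the first half, all pairs inside the second half, and the last `d` vertices of the second half are joined to the
first half -/
def T1 (N : ℕ) (X : SimpleGraph (Fin N)) (d : Fin N) : SimpleGraph (Fin N) where
  Adj u v := u ≠ v ∧ ((lo u ∧ lo v ∧ X.Adj u v) ∨ (¬ lo u ∧ ¬ lo v) ∨ (lo u ∧ ¬ lo v ∧ ¬ ∃ w : Fin N, (v : ℕ) + (d : ℕ) = (w : ℕ)) ∨
    (¬ lo u ∧ lo v ∧ ¬ ∃ w : Fin N, (u : ℕ) + (d : ℕ) = (w : ℕ)))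
  symm := ⟨by
    rintro u v ⟨h, h1 | h1 | h1 | h1⟩
    · exact ⟨h.symm, Or.inl ⟨h1.2.1, h1.1, h1.2.2.symm⟩⟩
    · exact ⟨h.symm, Or.inr (Or.inl ⟨h1.2, h1.1⟩)⟩
    · exact ⟨h.symm, Or.inr (Or.inr (Or.inr ⟨h1.2.1, h1.1, h1.2.2⟩))⟩
    · exact ⟨h.symm, Or.inr (Or.inr (Or.inl ⟨h1.2.1, h1.1, h1.2.2⟩))⟩⟩
  loopless := ⟨fun _ h => h.1 rfl⟩

/-- moreover the vertex `v` loses its neighbours in the first half -/
def T2 (N : ℕ) (X : SimpleGraph (Fin N)) (e : Fin N × Fin N) : SimpleGraph (Fin N) where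
  Adj x y := (T1 N X e.1).Adj x y ∧ ¬ (lo x ∧ lo y ∧ (x = e.2 ∨ y = e.2))
  symm := ⟨fun x y h => ⟨h.1.symm, fun h1 => h.2 ⟨h1.2.1, h1.1, h1.2.2.symm⟩⟩⟩
  loopless := ⟨fun _ h => h.1.1 rfl⟩

/-- the graph without the edge `u v` -/
def del (T : SimpleGraph (Fin n)) (e : Fin n × Fin n) : SimpleGraph (Fin n) where
  Adj x y := T.Adj x y ∧ ¬ ((x = e.1 ∧ y = e.2) ∨ (x = e.2 ∧ y = e.1))
  symm := ⟨fun x y h => ⟨h.1.symm, fun h1 => h.2 (h1.elim (fun h => Or.inr ⟨h.2, h.1⟩) fun h => Or.inl ⟨h.2, h.1⟩)⟩⟩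
  loopless := ⟨fun _ h => T.irrefl h.1⟩

end

/-- the parameters `K, q, g, y, t, y', t', p, e` -/
abbrev Par (S : ℕ → Type) (n : ℕ) : Type := S n × (S n × (S n × (S n × (S n × (S n × (S n × (S n × S n)))))))

section
variable {S : ℕ → Type} [Env S] [∀ n, Fintype (S n)] {n : ℕ}

/-- the sum over `x` of `x ^ e` times the determinant: the coefficient of `x ^ (p - 1 - e)` up to the sign -/
noncomputable def co (T A : SimpleGraph (Fin n)) (a : Par S n) : ℤ :=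
  ∑ x : S n, cnd (nv x < nv a.2.2.2.2.2.2.2.1 ∧ ¬ nv x = 0) (((nv x : ℕ) : ℤ) ^ nv a.2.2.2.2.2.2.2.2 *
    zdet (T := fun n => Fin n) (zM2 (nv a.1) (nv a.2.1) T A (nv a.2.2.1) (nv a.2.2.2.1) (nv a.2.2.2.2.1) (nv a.2.2.2.2.2.1)
      (nv a.2.2.2.2.2.2.1) (nv x))) 0

/-- the edge `u v` is read off as an edge of the matching -/
def ed (T A : SimpleGraph (Fin n)) (a : Par S n) (u v : Fin n) : Prop :=
  prS a.2.2.2.2.2.2.2.1 ∧ (¬ nv a.2.1 = 0) ∧ T.Adj u v ∧ ¬ nd a.2.2.2.2.2.2.2.1 (co (del T (u, v)) A a)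

/-- `R` is a perfect matching -/
def PMr (R : Fin n → Fin n → Prop) : Prop :=
  (∀ u, ∃ v, R u v) ∧ (∀ u v w, R u v → R u w → v = w) ∧ ∀ u v, R u v → R v u

/-- the least parameters `d, a` which give a perfect matching of `T1 n X d` with the source `SP n X` -/
def Lst (n : ℕ) (X : SimpleGraph (Fin n)) (e : Fin n × Par S n) : Prop :=
  PMr (ed (T1 n X e.1) (SP n X) e.2) ∧ ∀ e' : Fin n × Par S n, PMr (ed (T1 n X e'.1) (SP n X) e'.2) →
    e.1 < e'.1 ∨ (e.1 = e'.1 ∧ nv e.2 ≤ nv e'.2)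

/-- the matching in the first half -/
def MR (S : ℕ → Type) [Env S] [∀ n, Fintype (S n)] (n : ℕ) (X : SimpleGraph (Fin n)) (u v : Fin n) : Prop :=
  lo u ∧ lo v ∧ ∃ e : Fin n × Par S n, Lst n X e ∧ ed (T1 n X e.1) (SP n X) e.2 u v

/-- the set `D` of the decomposition of Gallai and Edmonds, in the first half -/
def DR (S : ℕ → Type) [Env S] [∀ n, Fintype (S n)] (n : ℕ) (X : SimpleGraph (Fin n)) (v : Fin n) : Prop :=
  lo v ∧ ∃ e : Fin n × Par S n, Lst n X e ∧ ∃ b : Par S n, acc2 (T2 n X (e.1, v)) (SP n X) b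

/-- the set `A` of the decomposition of Gallai and Edmonds, in the first half -/
def UR (S : ℕ → Type) [Env S] [∀ n, Fintype (S n)] (n : ℕ) (X : SimpleGraph (Fin n)) (w : Fin n) : Prop :=
  lo w ∧ ¬ DR S n X w ∧ ∃ u, DR S n X u ∧ X.Adj w u

end

end PRS
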