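import Pool.Agent.Lib.MP_0087d5_lcPR.SDefs

/-!
# Leaf XF (medium): the perfect matchings of the tested graphs

`Fin.castAdd n a` is the vertex `a` of the first half of `Fin (n + n)`, `Fin.natAdd n a` the vertex `a` of the second half (value `n + a`). A vertex `n + a` of the second half is joined to the first half if and only if `n + n ≤ n + a + d`.
(See the lemmas `Y2_lo`, `Y2_hi`, `Y2_ll` in MT/Y2, which are private: copy them.)

`t1_restrict`: `g u = w` if `f (castAdd u) = castAdd w`, `g u = u` if `f (castAdd u)` is in the second half. The uncovered vertices `u` of `g` have different partners `n + a`, `n - d ≤ a`, so there are at most `d`.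
`t1_char`: (→) by `t1_restrict` (`hasPM_iff : HasPM G ↔ ∃ f, (∀ v, f (f v) = v) ∧ ∀ v, G.Adj v (f v)`). (←) let `f` be a matching of `G` with `m = mis f ≤ d` (`m ≤ n` always). Choose a bijection `β : Fin n ≃ Fin n` with `f x = x ↔ n - m ≤ β x`
(both sets have `m` elements: `Equiv` from `Nat.card`/`Fintype.card` and `Equiv.subtypeCongr` or `Equiv.extendSubtype`). The perfect matching: `x ↦ f x` in the first half if `f x ≠ x`; `x ↔ n + β x` if `f x = x` (joined: `n - m ≤ β x`, `m ≤ d`);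
`n + β x ↔ n + β (f x)` if `f x ≠ x`.
`t2_char`: `T2 (n + n) (pair G A) (d, castAdd v)` is `T1 (n + n) (pair G' A) d` with `G'` the graph `G` without the edges at `v`, and `Mt G' f ↔ Mt G f ∧ f v = v`.
-/

set_option autoImplicit false
set_option linter.all false

namespace PRS

open Finset Pool.Agent Pool.Agent.PMNC MTC LIN

private lemma XF_lo {n : ℕ} (a : Fin n) : lo (Fin.castAdd n a : Fin (n + n)) := by
  have := a.2
  simp only [lo, Fin.val_castAdd]
  omega

private lemma XF_hi {n : ℕ} (a : Fin n) : ¬ lo (Fin.natAdd n a : Fin (n + n)) := by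
  simp only [lo, Fin.val_natAdd]
  omega

private lemma XF_pp {n : ℕ} (G A : SimpleGraph (Fin n)) (a b : Fin n) :
    (pair G A).Adj (Fin.castAdd n a) (Fin.castAdd n b) ↔ G.Adj a b := by
  change (G ⊕g A).Adj (finSumFinEquiv.symm (Fin.castAdd n a)) (finSumFinEquiv.symm (Fin.castAdd n b)) ↔ _
  rw [finSumFinEquiv_symm_apply_castAdd, finSumFinEquiv_symm_apply_castAdd]
  rfl

private lemma XF_ll {n : ℕ} (G A : SimpleGraph (Fin n)) (d : Fin (n + n)) (a b : Fin n) :
    (T1 (n + n) (pair G A) d).Adj (Fin.castAdd n a) (Fin.castAdd n b) ↔ G.Adj a b := by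
  constructor
  · rintro ⟨-, h | h | h | h⟩
    · exact (XF_pp G A a b).1 h.2.2
    · exact absurd (XF_lo a) h.1
    · exact absurd (XF_lo b) h.2.1
    · exact absurd (XF_lo a) h.1
  · intro h
    exact ⟨fun h1 => h.ne (Fin.castAdd_injective n n h1), Or.inl ⟨XF_lo a, XF_lo b, (XF_pp G A a b).2 h⟩⟩

private lemma XF_ex {n : ℕ} (d : Fin (n + n)) (a : Fin n) :
    (¬ ∃ w : Fin (n + n), ((Fin.natAdd n a : Fin (n + n)) : ℕ) + (d : ℕ) = (w : ℕ)) ↔ n ≤ (a : ℕ) + (d : ℕ) := by
  rw [Fin.val_natAdd]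
  constructor
  · intro h
    by_contra h1
    exact h ⟨⟨n + (a : ℕ) + (d : ℕ), by omega⟩, rfl⟩
  · rintro h ⟨w, hw⟩
    have := w.2
    omega

private lemma XF_lr {n : ℕ} (G A : SimpleGraph (Fin n)) (d : Fin (n + n)) (a b : Fin n) :
    (T1 (n + n) (pair G A) d).Adj (Fin.castAdd n a) (Fin.natAdd n b) ↔ n ≤ (b : ℕ) + (d : ℕ) := by
  constructor
  · rintro ⟨-, h | h | h | h⟩
    · exact absurd h.2.1 (XF_hi b)
    · exact absurd (XF_lo a) h.1
    · exact (XF_ex d b).1 h.2.2
    · exact absurd (XF_lo a) h.1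
  · intro h
    refine ⟨fun h1 => XF_hi b (h1 ▸ XF_lo a), Or.inr (Or.inr (Or.inl ⟨XF_lo a, XF_hi b, (XF_ex d b).2 h⟩))⟩

private lemma XF_rl {n : ℕ} (G A : SimpleGraph (Fin n)) (d : Fin (n + n)) (a b : Fin n) :
    (T1 (n + n) (pair G A) d).Adj (Fin.natAdd n a) (Fin.castAdd n b) ↔ n ≤ (a : ℕ) + (d : ℕ) := by
  rw [SimpleGraph.adj_comm]
  exact XF_lr G A d b a

private lemma XF_rr {n : ℕ} (G A : SimpleGraph (Fin n)) (d : Fin (n + n)) (a b : Fin n) :
    (T1 (n + n) (pair G A) d).Adj (Fin.natAdd n a) (Fin.natAdd n b) ↔ a ≠ b := by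
  constructor
  · rintro ⟨h, -⟩ h1
    exact h (by rw [h1])
  · intro h
    exact ⟨fun h1 => h (Fin.natAdd_injective n n h1), Or.inr (Or.inl ⟨XF_hi a, XF_hi b⟩)⟩

private lemma XF_beta {n : ℕ} (f : Fin n → Fin n) :
    ∃ β : Equiv.Perm (Fin n), ∀ x, f x = x ↔ n - ZER.mis f ≤ (β x : ℕ) := by
  classical
  have hm : ZER.mis f ≤ n := by
    have := ZER.mis_add f
    omega
  have e1 : {x : Fin n // n - ZER.mis f ≤ (x : ℕ)} ≃ Fin (ZER.mis f) :=
    { toFun := fun x => ⟨n - 1 - ((x : Fin n) : ℕ), by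
        have h1 := x.2
        have h2 := (x : Fin n).2
        omega⟩
      invFun := fun y => ⟨⟨n - 1 - (y : ℕ), by
        have := y.2
        omega⟩, by
        have := y.2
        simp only
        omega⟩
      left_inv := fun x => by
        have h1 := x.2
        have h2 := (x : Fin n).2
        apply Subtype.ext
        apply Fin.ext
        simp only
        omega
      right_inv := fun y => by
        have := y.2
        apply Fin.ext
        simp only
        omega }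
  have e2 : {x : Fin n // f x = x} ≃ Fin (ZER.mis f) := Finite.equivFin _
  have e : {x : Fin n // f x = x} ≃ {x : Fin n // n - ZER.mis f ≤ (x : ℕ)} := e2.trans e1.symm
  refine ⟨e.extendSubtype, fun x => ⟨fun h => e.extendSubtype_mem x h, fun h => ?_⟩⟩
  by_contra h1
  exact e.extendSubtype_not_mem x h1 h

theorem t1_restrict {n : ℕ} (G A : SimpleGraph (Fin n)) (d : Fin (n + n)) (f : Fin (n + n) → Fin (n + n))
    (hf : IsPM (T1 (n + n) (pair G A) d).Adj f) : ∃ g : Fin n → Fin n, ZER.Mt G g ∧ ZER.mis g ≤ (d : ℕ) ∧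
      ∀ u v : Fin n, f (Fin.castAdd n u) = Fin.castAdd n v ↔ (g u = v ∧ u ≠ v) := by
  obtain ⟨hinv, hadj⟩ := hf
  have hcase : ∀ u : Fin n, (∃ w, f (Fin.castAdd n u) = Fin.castAdd n w ∧ G.Adj u w) ∨
      (∃ a, f (Fin.castAdd n u) = Fin.natAdd n a ∧ n ≤ (a : ℕ) + (d : ℕ)) := by
    intro u
    have h1 := hadj (Fin.castAdd n u)
    revert h1
    generalize f (Fin.castAdd n u) = w
    refine Fin.addCases (fun b => ?_) (fun b => ?_) w
    · intro h
      exact Or.inl ⟨b, rfl, (XF_ll G A d u b).1 h⟩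
    · intro h
      exact Or.inr ⟨b, rfl, (XF_lr G A d u b).1 h⟩
  obtain ⟨g, hgl, hgr⟩ : ∃ g : Fin n → Fin n, (∀ u w, f (Fin.castAdd n u) = Fin.castAdd n w → g u = w) ∧
      ∀ u a, f (Fin.castAdd n u) = Fin.natAdd n a → g u = u :=
    ⟨fun u => Fin.addCases (motive := fun _ => Fin n) (fun w => w) (fun _ => u) (f (Fin.castAdd n u)),
      fun u w h => by simp only [h, Fin.addCases_left], fun u a h => by simp only [h, Fin.addCases_right]⟩
  have hfix : ∀ u, g u = u → ∃ a : Fin n, f (Fin.castAdd n u) = Fin.natAdd n a ∧ n ≤ (a : ℕ) + (d : ℕ) := by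
    intro u hu
    rcases hcase u with ⟨w, hw, hG⟩ | h
    · rw [hgl u w hw] at hu
      exact absurd hu.symm hG.ne
    · exact h
  refine ⟨g, ⟨?_, ?_⟩, ?_, ?_⟩
  · intro u
    rcases hcase u with ⟨w, hw, -⟩ | ⟨a, ha, -⟩
    · rw [hgl u w hw]
      refine hgl w u ?_
      rw [← hw, hinv]
    · rw [hgr u a ha, hgr u a ha]
  · intro u hu
    rcases hcase u with ⟨w, hw, hG⟩ | ⟨a, ha, -⟩
    · rw [hgl u w hw]
      exact hG
    · exact absurd (hgr u a ha) hu
  · unfold ZER.mis
    choose a ha had using fun u : {u // g u = u} => hfix u.1 u.2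
    have h1 : Nat.card {u // g u = u} ≤ Nat.card (Fin (d : ℕ)) := by
      refine Nat.card_le_card_of_injective (fun u => (⟨n - 1 - (a u : ℕ), by
        have h1 := had u
        have h2 := (a u).2
        omega⟩ : Fin (d : ℕ))) ?_
      intro u v huv
      have h1 : n - 1 - (a u : ℕ) = n - 1 - (a v : ℕ) := congrArg Fin.val huv
      have h2 := (a u).2
      have h3 := (a v).2
      have h4 : a u = a v := Fin.ext (by omega)
      have h5 : f (Fin.castAdd n u.1) = f (Fin.castAdd n v.1) := by rw [ha, ha, h4]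
      have h6 : (Fin.castAdd n u.1 : Fin (n + n)) = Fin.castAdd n v.1 := by
        rw [← hinv (Fin.castAdd n u.1), h5, hinv]
      exact Subtype.ext (Fin.castAdd_injective n n h6)
    rwa [Nat.card_eq_fintype_card (α := Fin (d : ℕ)), Fintype.card_fin] at h1
  · intro u v
    constructor
    · intro h
      refine ⟨hgl u v h, ?_⟩
      rintro rfl
      have h1 := hadj (Fin.castAdd n u)
      rw [h] at h1
      exact h1.ne rfl
    · rintro ⟨h, hne⟩
      rcases hcase u with ⟨w, hw, hG⟩ | ⟨a, ha, -⟩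
      · rw [hw, ← hgl u w hw, h]
      · exact absurd ((hgr u a ha).symm.trans h) hne

theorem t1_char {n : ℕ} (G A : SimpleGraph (Fin n)) (d : Fin (n + n)) :
    HasPM (T1 (n + n) (pair G A) d) ↔ ∃ f, ZER.Mt G f ∧ ZER.mis f ≤ (d : ℕ) := by
  rw [hasPM_iff]
  constructor
  · rintro ⟨f, hf⟩
    obtain ⟨g, h1, h2, -⟩ := t1_restrict G A d f hf
    exact ⟨g, h1, h2⟩
  · rintro ⟨f, ⟨hinv, hadj⟩, hd⟩
    classical
    obtain ⟨β, hβ⟩ := XF_beta f
    obtain ⟨F, hF1, hF2, hF3, hF4⟩ : ∃ F : Fin (n + n) → Fin (n + n),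
        (∀ x, f x = x → F (Fin.castAdd n x) = Fin.natAdd n (β x)) ∧
        (∀ x, f x ≠ x → F (Fin.castAdd n x) = Fin.castAdd n (f x)) ∧
        (∀ x, f x = x → F (Fin.natAdd n (β x)) = Fin.castAdd n x) ∧
        (∀ x, f x ≠ x → F (Fin.natAdd n (β x)) = Fin.natAdd n (β (f x))) := by
      refine ⟨fun v => Fin.addCases (motive := fun _ => Fin (n + n))
        (fun x => if f x = x then Fin.natAdd n (β x) else Fin.castAdd n (f x))
        (fun a => if f (β.symm a) = β.symm a then Fin.castAdd n (β.symm a) else Fin.natAdd n (β (f (β.symm a)))) v,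
        ?_, ?_, ?_, ?_⟩
      · intro x hx
        simp only [Fin.addCases_left, if_pos hx]
      · intro x hx
        simp only [Fin.addCases_left, if_neg hx]
      · intro x hx
        simp only [Fin.addCases_right, Equiv.symm_apply_apply, if_pos hx]
      · intro x hx
        simp only [Fin.addCases_right, Equiv.symm_apply_apply, if_neg hx]
    have hff : ∀ x, f x ≠ x → f (f x) ≠ f x := fun x hx => by
      rw [hinv]
      exact fun h => hx h.symm
    refine ⟨F, ?_, ?_⟩
    · intro v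
      refine Fin.addCases (fun x => ?_) (fun a => ?_) v
      · by_cases hx : f x = x
        · rw [hF1 x hx, hF3 x hx]
        · rw [hF2 x hx, hF2 (f x) (hff x hx), hinv]
      · obtain ⟨x, rfl⟩ := β.surjective a
        by_cases hx : f x = x
        · rw [hF3 x hx, hF1 x hx]
        · rw [hF4 x hx, hF4 (f x) (hff x hx), hinv]
    · intro v
      refine Fin.addCases (fun x => ?_) (fun a => ?_) v
      · by_cases hx : f x = x
        · rw [hF1 x hx, XF_lr]
          have := (hβ x).1 hx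
          omega
        · rw [hF2 x hx, XF_ll]
          exact hadj x hx
      · obtain ⟨x, rfl⟩ := β.surjective a
        by_cases hx : f x = x
        · rw [hF3 x hx, XF_rl]
          have := (hβ x).1 hx
          omega
        · rw [hF4 x hx, XF_rr]
          exact fun h => hx (β.injective h).symm

private def XF_G' {n : ℕ} (G : SimpleGraph (Fin n)) (v : Fin n) : SimpleGraph (Fin n) where
  Adj a b := G.Adj a b ∧ a ≠ v ∧ b ≠ v
  symm := ⟨fun _ _ h => ⟨h.1.symm, h.2.2, h.2.1⟩⟩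
  loopless := ⟨fun _ h => G.irrefl h.1⟩

private lemma XF_T2 {n : ℕ} (G A : SimpleGraph (Fin n)) (d : Fin (n + n)) (v : Fin n) :
    T2 (n + n) (pair G A) (d, Fin.castAdd n v) = T1 (n + n) (pair (XF_G' G v) A) d := by
  ext x y
  change ((T1 (n + n) (pair G A) d).Adj x y ∧ ¬ (lo x ∧ lo y ∧ (x = Fin.castAdd n v ∨ y = Fin.castAdd n v))) ↔ _
  refine Fin.addCases (fun a => ?_) (fun a => ?_) x
  · refine Fin.addCases (fun b => ?_) (fun b => ?_) y
    · rw [XF_ll, XF_ll]
      constructor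
      · rintro ⟨h1, h2⟩
        refine ⟨h1, ?_, ?_⟩
        · rintro rfl
          exact h2 ⟨XF_lo _, XF_lo _, Or.inl rfl⟩
        · rintro rfl
          exact h2 ⟨XF_lo _, XF_lo _, Or.inr rfl⟩
      · rintro ⟨h1, h2, h3⟩
        refine ⟨h1, ?_⟩
        rintro ⟨-, -, h4 | h4⟩
        · exact h2 (Fin.castAdd_injective n n h4)
        · exact h3 (Fin.castAdd_injective n n h4)
    · rw [XF_lr, XF_lr]
      exact ⟨fun h => h.1, fun h => ⟨h, fun h1 => XF_hi b h1.2.1⟩⟩
  · refine Fin.addCases (fun b => ?_) (fun b => ?_) y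
    · rw [XF_rl, XF_rl]
      exact ⟨fun h => h.1, fun h => ⟨h, fun h1 => XF_hi a h1.1⟩⟩
    · rw [XF_rr, XF_rr]
      exact ⟨fun h => h.1, fun h => ⟨h, fun h1 => XF_hi a h1.1⟩⟩

theorem t2_char {n : ℕ} (G A : SimpleGraph (Fin n)) (d : Fin (n + n)) (v : Fin n) :
    HasPM (T2 (n + n) (pair G A) (d, Fin.castAdd n v)) ↔ ∃ f, ZER.Mt G f ∧ ZER.mis f ≤ (d : ℕ) ∧ f v = v := by
  rw [XF_T2, t1_char]
  constructor
  · rintro ⟨f, ⟨hinv, hadj⟩, hd⟩
    refine ⟨f, ⟨hinv, fun x hx => (hadj x hx).1⟩, hd, ?_⟩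
    by_contra h
    exact (hadj v h).2.1 rfl
  · rintro ⟨f, ⟨hinv, hadj⟩, hd, hv⟩
    refine ⟨f, ⟨hinv, fun x hx => ⟨hadj x hx, ?_, ?_⟩⟩, hd⟩
    · rintro rfl
      exact hx hv
    · intro h
      have h1 : x = v := by rw [← hinv x, h, hv]
      subst h1
      exact hx hv

end PRS
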