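import Pool.Agent.Lib.MP_0087d5_lcPR.XC
import Pool.Agent.Lib.MP_0087d5_lcPR.XF
import Pool.Agent.Lib.MP_0087d5_lcPR.GE

/-!
# Leaf XH (medium): correctness

`mr_matching`: the least parameters are unique (`nv_injective`), and `PMr`, the adjacency in `T1` of two vertices of the first half is the one of `G` (`pair`).
`mr_main`: Let `d₀` be the least value of `ZER.mis f`, `ZER.Mt G f` (the identity has `mis = n < n + n`). By `t1_char` the graph `T1 (n + n) (pair G A) d` has a perfect matching if and only if `d₀ ≤ d`. If `PMr (ed (T1 …) …)` then the tested graph has a perfect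
matching (`ed` contains `T.Adj`; choose the partner), so `d ≥ d₀`; for `d = d₀` there are parameters by `ed_complete`. So there are least parameters `(d₀, a)` (well-ordering of `ℕ`), and for them the relation is a perfect matching `f` of `T1 … d₀`; `t1_restrict` gives
`g` with `Mt G g`, `mis g ≤ d₀`, so `mis g = d₀`, and `MR` on the first half is `g u = v ∧ u ≠ v`; its uncovered vertices are the fixed points of `g`. `DR … (castAdd v)` is `HasPM (T2 …)` (`acc2_sound`, `acc2_complete` with `hok`), so by `t2_char` it is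
`∃ f, Mt G f ∧ mis f = d₀ ∧ f v = v`. So `UR` is the set `NA G _` of `ge_all` (leaf GE, by helper25), which gives the equation.
-/

set_option autoImplicit false
set_option linter.all false

namespace PRS

open Finset Pool.Agent Pool.Agent.PMNC MTC LIN

private theorem XH_lo {n : ℕ} (a : Fin n) : lo (Fin.castAdd n a : Fin (n + n)) := by
  have := a.2
  simp only [lo, Fin.val_castAdd]
  omega

private theorem XH_hi {n : ℕ} (a : Fin n) : ¬ lo (Fin.natAdd n a : Fin (n + n)) := by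
  simp only [lo, Fin.val_natAdd]
  omega

private theorem XH_ll {n : ℕ} (G A : SimpleGraph (Fin n)) (a b : Fin n) :
    (pair G A).Adj (Fin.castAdd n a) (Fin.castAdd n b) ↔ G.Adj a b := by
  change (G ⊕g A).Adj (finSumFinEquiv.symm (Fin.castAdd n a)) (finSumFinEquiv.symm (Fin.castAdd n b)) ↔ _
  rw [finSumFinEquiv_symm_apply_castAdd, finSumFinEquiv_symm_apply_castAdd]
  rfl

private theorem XH_uniq {S : ℕ → Type} [Env S] [∀ n, Fintype (S n)] {N : ℕ} {X : SimpleGraph (Fin N)}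
    {e e' : Fin N × Par S N} (h : Lst N X e) (h' : Lst N X e') : e = e' := by
  have h1 := h.2 e' h'.1
  have h2 := h'.2 e h.1
  have e1 : e.1 = e'.1 := by
    rcases h1 with h1 | h1
    · rcases h2 with h2 | h2
      · exact absurd h1 (lt_asymm h2)
      · exact h2.1.symm
    · exact h1.1
  have e2 : nv e.2 = nv e'.2 := by
    rcases h1 with h1 | h1
    · exact absurd e1 (ne_of_lt h1)
    · rcases h2 with h2 | h2
      · exact absurd e1.symm (ne_of_lt h2)
      · exact le_antisymm h1.2 h2.2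
  exact Prod.ext e1 (nv_injective e2)

theorem mr_matching {S : ℕ → Type} [Env S] [∀ n, Fintype (S n)] {n : ℕ} (G A : SimpleGraph (Fin n)) :
    (∀ u v, MR S (n + n) (pair G A) (Fin.castAdd n u) (Fin.castAdd n v) → G.Adj u v) ∧
    (∀ u v, MR S (n + n) (pair G A) (Fin.castAdd n u) (Fin.castAdd n v) → MR S (n + n) (pair G A) (Fin.castAdd n v) (Fin.castAdd n u)) ∧
    ∀ u v w, MR S (n + n) (pair G A) (Fin.castAdd n u) (Fin.castAdd n v) → MR S (n + n) (pair G A) (Fin.castAdd n u) (Fin.castAdd n w) → v = w := by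
  refine ⟨?_, ?_, ?_⟩
  · rintro u v ⟨-, -, e, -, he⟩
    have h1 := he.2.2.1
    obtain ⟨-, h2 | h2 | h2 | h2⟩ := h1
    · exact (XH_ll G A u v).1 h2.2.2
    · exact absurd (XH_lo u) h2.1
    · exact absurd (XH_lo v) h2.2.1
    · exact absurd (XH_lo u) h2.1
  · rintro u v ⟨h1, h2, e, hL, he⟩
    exact ⟨h2, h1, e, hL, hL.1.2.2 _ _ he⟩
  · rintro u v w ⟨-, -, e, hL, he⟩ ⟨-, -, e', hL', he'⟩
    have h1 := XH_uniq hL hL'
    subst h1
    exact Fin.castAdd_injective n n (hL.1.2.1 _ _ _ he he')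

theorem mr_main {S : ℕ → Type} [Env S] [∀ n, Fintype (S n)] {C n : ℕ} (hS : 2 * C + 12 ≤ dim S) (hn : 1 ≤ n) (G A : SimpleGraph (Fin n))
    (hok : ∀ T : SimpleGraph (Fin (n + n)), HasPM T → OK2 C T (SP (n + n) (pair G A))) :
    Nat.card {v // ZER.oddRep G (fun w => UR S (n + n) (pair G A) (Fin.castAdd n w)) v} =
      Nat.card {w : Fin n // UR S (n + n) (pair G A) (Fin.castAdd n w)} +
      Nat.card {v : Fin n // ∀ w : Fin n, ¬ MR S (n + n) (pair G A) (Fin.castAdd n v) (Fin.castAdd n w)} := by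
  classical
  -- the least deficiency
  have hex : ∃ d, ∃ f, ZER.Mt G f ∧ ZER.mis f = d := by
    refine ⟨_, id, ⟨fun x => rfl, fun x hx => absurd rfl hx⟩, rfl⟩
  obtain ⟨d₀, ⟨f0, hf0, hm0⟩, hmin⟩ : ∃ d, (∃ f, ZER.Mt G f ∧ ZER.mis f = d) ∧
      ∀ f, ZER.Mt G f → d ≤ ZER.mis f :=
    ⟨Nat.find hex, Nat.find_spec hex, fun f hf => Nat.find_min' hex ⟨f, hf, rfl⟩⟩
  have hd : d₀ < n + n := by
    have h1 : ZER.mis f0 ≤ n := by
      unfold ZER.mis
      rw [Nat.card_eq_fintype_card]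
      exact (Fintype.card_subtype_le _).trans_eq (Fintype.card_fin n)
    omega
  obtain ⟨dF, hdF⟩ : ∃ dF : Fin (n + n), (dF : ℕ) = d₀ := ⟨⟨d₀, hd⟩, rfl⟩
  -- a perfect matching read off is one
  have hB : ∀ (d : Fin (n + n)) (a : Par S (n + n)),
      PMr (ed (T1 (n + n) (pair G A) d) (SP (n + n) (pair G A)) a) →
      ∃ f : Fin (n + n) → Fin (n + n), MTC.IsPM (T1 (n + n) (pair G A) d).Adj f ∧
        ∀ u v, ed (T1 (n + n) (pair G A) d) (SP (n + n) (pair G A)) a u v ↔ f u = v := by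
    intro d a h
    choose f hf using h.1
    have hfv : ∀ u v, ed (T1 (n + n) (pair G A) d) (SP (n + n) (pair G A)) a u v ↔ f u = v := by
      intro u v
      constructor
      · intro h1
        exact h.2.1 u _ _ (hf u) h1
      · intro h1
        rw [← h1]
        exact hf u
    refine ⟨f, ⟨fun v => ?_, fun v => (hf v).2.2.1⟩, hfv⟩
    exact (hfv _ _).1 (h.2.2 _ _ (hf v))
  have hge : ∀ (d : Fin (n + n)) (a : Par S (n + n)),
      PMr (ed (T1 (n + n) (pair G A) d) (SP (n + n) (pair G A)) a) → dF ≤ d := by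
    intro d a h
    obtain ⟨f, hf, -⟩ := hB d a h
    obtain ⟨f', hf', hm'⟩ := (t1_char G A d).1 (hasPM_iff.2 ⟨f, hf.1, hf.2⟩)
    have h1 := (hmin f' hf').trans hm'
    rw [← hdF] at h1
    exact h1
  -- there are least parameters
  obtain ⟨a, ha, hamin⟩ : ∃ a : Par S (n + n),
      PMr (ed (T1 (n + n) (pair G A) dF) (SP (n + n) (pair G A)) a) ∧
      ∀ a' : Par S (n + n), PMr (ed (T1 (n + n) (pair G A) dF) (SP (n + n) (pair G A)) a') →
        nv a ≤ nv a' := by
    have hpm : HasPM (T1 (n + n) (pair G A) dF) :=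
      (t1_char G A dF).2 ⟨f0, hf0, by rw [hm0, hdF]⟩
    obtain ⟨a1, f1, hf1, he1⟩ := ed_complete (S := S) (C := C) hS (by omega : 2 ≤ n + n)
      (T1 (n + n) (pair G A) dF) (SP (n + n) (pair G A)) (hok _ hpm)
    have ha1 : PMr (ed (T1 (n + n) (pair G A) dF) (SP (n + n) (pair G A)) a1) := by
      refine ⟨fun u => ⟨f1 u, (he1 _ _).2 rfl⟩, fun u v w h1 h2 => ?_, fun u v h1 => ?_⟩
      · exact ((he1 _ _).1 h1).symm.trans ((he1 _ _).1 h2)
      · refine (he1 _ _).2 ?_
        rw [← (he1 _ _).1 h1]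
        exact hf1.1 u
    have hex2 : ∃ m, ∃ a : Par S (n + n),
        PMr (ed (T1 (n + n) (pair G A) dF) (SP (n + n) (pair G A)) a) ∧ nv a = m :=
      ⟨_, a1, ha1, rfl⟩
    obtain ⟨a, ha, hav⟩ := Nat.find_spec hex2
    refine ⟨a, ha, fun a' ha' => ?_⟩
    rw [hav]
    exact Nat.find_min' hex2 ⟨a', ha', rfl⟩
  have hL : Lst (n + n) (pair G A) (dF, a) := by
    refine ⟨ha, fun e' he' => ?_⟩
    rcases lt_or_eq_of_le (hge _ _ he') with h1 | h1
    · exact Or.inl h1
    · refine Or.inr ⟨h1, hamin _ ?_⟩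
      obtain ⟨d', a'⟩ := e'
      simp only at h1
      subst h1
      exact he'
  obtain ⟨f, hf, hfe⟩ := hB dF a ha
  obtain ⟨g, hg, hgm, hgf⟩ := t1_restrict G A dF f hf
  have hgm0 : ZER.mis g = d₀ := le_antisymm (hgm.trans_eq hdF) (hmin g hg)
  have hMR : ∀ u v : Fin n, MR S (n + n) (pair G A) (Fin.castAdd n u) (Fin.castAdd n v) ↔
      (g u = v ∧ u ≠ v) := by
    intro u v
    rw [← hgf, ← hfe]
    constructor
    · rintro ⟨-, -, e, he, h1⟩
      have h2 := XH_uniq he hL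
      rw [h2] at h1
      exact h1
    · intro h1
      exact ⟨XH_lo u, XH_lo v, (dF, a), hL, h1⟩
  have hDR : ∀ v : Fin n, DR S (n + n) (pair G A) (Fin.castAdd n v) ↔
      ∃ f, ZER.Mt G f ∧ ZER.mis f = d₀ ∧ f v = v := by
    intro v
    constructor
    · rintro ⟨-, e, he, b, hb⟩
      have h2 := XH_uniq he hL
      rw [h2] at hb
      obtain ⟨f', h3, h4, h5⟩ := (t2_char G A dF v).1 (acc2_sound _ _ hb)
      exact ⟨f', h3, le_antisymm (h4.trans_eq hdF) (hmin f' h3), h5⟩
    · rintro ⟨f', h3, h4, h5⟩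
      have hpm : HasPM (T2 (n + n) (pair G A) (dF, Fin.castAdd n v)) :=
        (t2_char G A dF v).2 ⟨f', h3, by rw [h4, hdF], h5⟩
      obtain ⟨K, q, t, t', g', y, y', hq, hK, hqC, ht, ht', hi⟩ := hok _ hpm
      obtain ⟨b, hb⟩ := acc2_complete (S := S) (C := C) hS (by omega : 2 ≤ n + n) _ _ K q t t' g' y y'
        hq hK hqC ht ht' hi
      exact ⟨XH_lo v, (dF, a), hL, b, hb⟩
  have hUR : (fun w : Fin n => UR S (n + n) (pair G A) (Fin.castAdd n w)) =
      ZER.NA G (fun v => ∃ f, ZER.Mt G f ∧ ZER.mis f = d₀ ∧ f v = v) := by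
    funext w
    refine propext ⟨?_, ?_⟩
    · rintro ⟨-, h1, u, h2, h3⟩
      refine ⟨fun h4 => h1 ((hDR w).2 h4), ?_⟩
      revert h2 h3
      refine Fin.addCases (fun u' => ?_) (fun u' => ?_) u
      · intro h2 h3
        exact ⟨u', (hDR u').1 h2, (XH_ll G A w u').1 h3⟩
      · intro h2 _
        exact absurd h2.1 (XH_hi u')
    · rintro ⟨h1, u, h2, h3⟩
      exact ⟨XH_lo w, fun h4 => h1 ((hDR w).1 h4), Fin.castAdd n u, (hDR u).2 h2,
        (XH_ll G A w u).2 h3⟩
  have hcard : Nat.card {v : Fin n // ∀ w : Fin n,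
      ¬ MR S (n + n) (pair G A) (Fin.castAdd n v) (Fin.castAdd n w)} = d₀ := by
    rw [← hgm0]
    unfold ZER.mis
    have h1 : (fun v : Fin n => ∀ w : Fin n,
        ¬ MR S (n + n) (pair G A) (Fin.castAdd n v) (Fin.castAdd n w)) = fun v => g v = v := by
      funext v
      refine propext ⟨fun h => ?_, fun h w h2 => ?_⟩
      · by_contra h2
        exact h (g v) ((hMR _ _).2 ⟨rfl, fun h3 => h2 h3.symm⟩)
      · have h3 := (hMR _ _).1 h2
        exact h3.2 (h.symm.trans h3.1)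
    exact congrArg (fun P : Fin n → Prop => Nat.card {v // P v}) h1
  have hmain := ZER.ge_all G d₀ ⟨f0, hf0, hm0⟩ hmin
  rw [hcard]
  have e1 : Nat.card {w : Fin n // UR S (n + n) (pair G A) (Fin.castAdd n w)} =
      Nat.card {v // ZER.NA G (fun v => ∃ f, ZER.Mt G f ∧ ZER.mis f = d₀ ∧ f v = v) v} :=
    congrArg (fun P : Fin n → Prop => Nat.card {v // P v}) hUR
  rw [e1, hUR]
  exact hmain

end PRS
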