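import Pool.Agent.Lib.MP_0087d5_lcPR.Circ1
import Pool.Agent.Lib.MP_0087d5_lc.WBridge
import Pool.Agent.Lib.MP_0087d5_lc.Def
import Pool.Agent.Lib.MP_0087d5_lc.AUG.Compile2

/-!
# Leaf XI (medium): definable relations are computed by circuits with outputs

`relNC1_of_NCP`: copy of `Pool.Agent.AUG.relNC2_of_NCP` (file AUG/Compile2) for one graph (`UPM.GS`, `UPM.GB` in place of `GS2`, `GB2`; compare also `UPM.inNC_of_NCP`, file UPM/Compile).
`rel1_of_defP`, `rel2_of_defP`: `Pool.Agent.PMNC.Br.br` (file WBridge) for the formula `φ : Fm (dim E)` of `DefP`, with `ι := Empty`, `G := fun n G => G`, the empty context, as in `PMNC.InNC.circuits`; `dim (fun n => Fin n) = 1`, `dim (fun n => Fin n × Fin n) = 2`,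
`vec n y = ![y.1, y.2]` (`vec_pair`, `vec_fin`, `Fin.append`); then `NCP.comap` along `Empty ⊕ Fin k → Fin r`.
-/

set_option autoImplicit false
set_option linter.all false

namespace PRS

open Pool.Agent Pool.Agent.PMNC

open Pool.Agent.UPM (OC Comp Readers RF CnNew FODef cn_fo_out cn_depth GS GB NCP) in
/-- Version of `Comp.not` in which the output map is a bijection. -/
private theorem XI_not {S : ℕ → Type} {B : Readers S} {ι : Type} {P : RF S ι} (h : Comp S B ι P) :
    ∃ (C : OC S B) (o : C.T) (e : C.A o ≃ ι) (c k : ℕ),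
      (∀ n, C.FanInTwo n ∧ C.DepthLE n (c * (Nat.log 2 n + 1) ^ k)) ∧
      ∀ n s, ∃ v, C.Consistent n s v ∧ ∀ x, v ⟨o, fun i => x (e i)⟩ ↔ ¬ P n s x := by
  obtain ⟨hι, C, o, e, c, k, hC, hv⟩ := h
  let N : CnNew C :=
    { T := Unit
      finT := inferInstance
      A := fun _ => ι
      finA := fun _ => hι
      inp := fun _ => none
      w1 := fun _ b n x y => (⟨b, y⟩ : C.Gate n) = ⟨o, fun i => x (e i)⟩
      w2 := fun _ _ _ _ _ => False
      u1 := fun _ b => cn_fo_out C o b e
      u2 := fun _ _ => FODef.const False }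
  refine ⟨N.ext, Sum.inr (), Equiv.refl ι, c + 2, k, ?_, ?_⟩
  · intro n
    have hb := N.bounds (n := n) (d₂ := 0) (hC n).1 (hC n).2 (fun _ _ => 0) (fun _ _ => le_rfl) (fun _ _ _ _ w => absurd w id) (by
      rintro a x ⟨b₁ | b₁, y₁⟩ ⟨b₂ | b₂, y₂⟩ ⟨b₃ | b₃, y₃⟩ w₁ w₂ w₃
      · left
        have h1 : (⟨b₁, y₁⟩ : C.Gate n) = ⟨b₂, y₂⟩ := Eq.trans w₁ (Eq.symm w₂)
        cases h1
        rfl
      · exact absurd w₃ id
      · exact absurd w₂ id
      · exact absurd w₂ id
      · exact absurd w₁ id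
      · exact absurd w₁ id
      · exact absurd w₁ id
      · exact absurd w₁ id)
    refine ⟨hb.1, ?_⟩
    obtain ⟨l, hl1, hl2⟩ := hb.2
    refine ⟨l, fun g => (hl1 g).trans ?_, hl2⟩
    have := cn_depth (c := c) (k := k) (n := n)
    omega
  · intro n s
    obtain ⟨v, hcons, hval⟩ := hv n s
    refine ⟨N.val v (fun _ x => ¬ v ⟨o, fun i => x (e i)⟩), N.consistent hcons (fun a x r hr => ?_) (fun a x _ => ?_), ?_⟩
    · exact absurd hr (by simp [N])
    · show ¬ v ⟨o, fun i => x (e i)⟩ ↔ ¬ ((∀ b y, (⟨b, y⟩ : C.Gate n) = ⟨o, fun i => x (e i)⟩ → v ⟨b, y⟩) ∧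
        ∀ (_ : Unit) (y : ι → Fin n), False → ¬ v ⟨o, fun i => y (e i)⟩)
      apply not_congr
      constructor
      · intro h1
        refine ⟨fun b y hby => ?_, fun _ _ hf => hf.elim⟩
        rw [hby]
        exact h1
      · rintro ⟨h1, _⟩
        exact h1 _ _ rfl
    · intro x
      exact not_congr (hval x)

open Pool.Agent.UPM (OC Comp Readers RF CnNew FODef GS GB NCP) in
/-- A reader of `GB` reads one entry of the adjacency matrix. -/
private theorem XI_reader {ι A : Type} {P : RF GS ι} (h : GB ι P) (e : ι → A) :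
    ∃ q : A × A, ∀ (n : ℕ) (G : SimpleGraph (Fin n)) (x : A → Fin n),
      P n G (fun i => x (e i)) ↔ G.Adj (x q.1) (x q.2) := by
  cases h
  exact ⟨(e 0, e 1), fun n G x => Iff.rfl⟩

open Pool.Agent.UPM (OC Comp Readers RF CnNew FODef GS GB NCP) in
/-- The input maps of the closed circuit. -/
private theorem XI_inp (C : OC GS GB) (t : C.T) : ∃ q : Option (C.A t × C.A t),
    (C.inp t = none ∧ q = none) ∨
    ∃ (ι : Type) (P : RF GS ι) (hB : GB ι P) (e : ι → C.A t) (i j : C.A t),
      C.inp t = some ⟨ι, P, hB, e⟩ ∧ q = some (i, j) ∧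
      ∀ (n : ℕ) (G : SimpleGraph (Fin n)) (x : C.A t → Fin n), P n G (fun i => x (e i)) ↔ G.Adj (x i) (x j) := by
  rcases C.inp t with _ | ⟨ι, P, hB, e⟩
  · exact ⟨none, Or.inl ⟨rfl, rfl⟩⟩
  · obtain ⟨q, hq⟩ := XI_reader hB e
    exact ⟨some q, Or.inr ⟨ι, P, hB, e, q.1, q.2, rfl, rfl, hq⟩⟩

/-- Consistent assignments of a circuit with levels are unique. -/
private theorem XI_unique {r : ℕ} (C : CircuitFamily1 r) (n d : ℕ) (hd : C.DepthLE n d)
    (G : SimpleGraph (Fin n)) {v w : C.Gate n → Prop} (hv : C.Consistent n G v)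
    (hw : C.Consistent n G w) (g : C.Gate n) : v g ↔ w g := by
  obtain ⟨lev, -, hlev⟩ := hd
  suffices H : ∀ (m : ℕ) (g : C.Gate n), lev g < m → (v g ↔ w g) from H _ g (Nat.lt_succ_self _)
  intro m
  induction m with
  | zero => exact fun g hg => absurd hg (Nat.not_lt_zero _)
  | succ m ih =>
    intro g hg
    have h1 := hv g
    have h2 := hw g
    rcases hC : C.inp g.1 with _ | ⟨i, j⟩
    · rw [hC] at h1 h2
      rw [h1, h2]
      have hih : ∀ h, C.Wire n g h → (v h ↔ w h) := fun h hh => ih h (by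
        have := hlev g h hh
        omega)
      refine not_congr (forall_congr' fun h => ?_)
      exact ⟨fun k hh => (hih h hh).1 (k hh), fun k hh => (hih h hh).2 (k hh)⟩
    · rw [hC] at h1 h2
      exact h1.trans h2.symm

theorem relNC1_of_NCP {r : ℕ} {F : UPM.RF UPM.GS (Fin r)} (h : UPM.NCP UPM.GS UPM.GB (Fin r) F) : RelNC1 r (fun n G x => F n G x) := by
  obtain ⟨C, o, e, c, k, hCD, hV⟩ := XI_not (UPM.Comp.not h.comp)
  choose q hq using XI_inp C
  let C' : CircuitFamily1 r :=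
    { T := C.T
      finT := C.finT
      A := C.A
      finA := C.finA
      inp := q
      wire := C.wire
      uniform := C.uniform
      out := o
      outA := e }
  refine ⟨C', c, k, fun n => ⟨(hCD n).1, (hCD n).2, fun G => ?_⟩⟩
  obtain ⟨v, hv, hvF⟩ := hV n G
  have hcons : C'.Consistent n G v := by
    intro g
    have h1 := hv g
    have h2 : C'.inp g.1 = q g.1 := rfl
    rw [h2]
    rcases hq g.1 with ⟨h3, h4⟩ | ⟨ι, P, hB, e', i, j, h3, h4, h5⟩
    · rw [h3] at h1
      rw [h4]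
      exact h1
    · rw [h3] at h1
      rw [h4]
      exact h1.trans (h5 n G g.2)
  refine ⟨⟨v, hcons⟩, fun w hw x => ?_⟩
  rw [← XI_unique C' n _ (hCD n).2 G hcons hw (C'.outGate n x)]
  exact (hvF x).trans not_not

/-- Equivalent relations. -/
private theorem XI_congr {r : ℕ} {P Q : ∀ n : ℕ, SimpleGraph (Fin n) → (Fin r → Fin n) → Prop} (h : RelNC1 r P)
    (hPQ : ∀ n G x, P n G x ↔ Q n G x) : RelNC1 r Q := by
  have e : P = Q := by
    funext n G x
    exact propext (hPQ n G x)
  rwa [← e]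

/-- A formula is computed by a circuit. -/
private theorem XI_fm {k r : ℕ} (φ : Fm k) (e : Fin k → Fin r) :
    RelNC1 r (fun n G x => φ.eval G (fun _ _ => False) (fun j => x (e j))) := by
  have h1 := Br.br φ Pool.Agent.UPM.GS Pool.Agent.UPM.GB Empty inferInstance (fun n G => G)
    (fun n G _ => fun _ _ => False) (Pool.Agent.UPM.NCP.base inferInstance Pool.Agent.UPM.GB.adj)
    (fun i r => Pool.Agent.UPM.NCP.const inferInstance False)
  have h2 := Pool.Agent.UPM.NCP.comap (κ := Fin r) inferInstance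
    (fun o : Empty ⊕ Fin k => match o with
      | Sum.inl j => j.elim
      | Sum.inr j => e j) h1
  exact relNC1_of_NCP h2

theorem rel1_of_defP {P : ∀ n : ℕ, SimpleGraph (Fin n) → Fin n → Prop} (h : DefP (E := fun n => Fin n) (fun n G X v => P n G v)) :
    RelNC1 1 (fun n G x => P n G (x 0)) := by
  obtain ⟨φ, hφ⟩ := h
  refine XI_congr (XI_fm (r := 1) φ (fun j : Fin 1 => j)) fun n G x => ?_
  have h0 := hφ n G (fun _ _ => False) (x 0)
  simp only at h0
  rw [← h0]
  have h1 : (fun j : Fin 1 => x j) = vec (E := fun n => Fin n) n (x 0) := by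
    funext j
    rw [vec_fin, Subsingleton.elim j 0]
  exact Eq.to_iff (congrArg (fun y => φ.eval G (fun _ _ => False) y) h1)

theorem rel2_of_defP {P : ∀ n : ℕ, SimpleGraph (Fin n) → Fin n → Fin n → Prop}
    (h : DefP (E := fun n => Fin n × Fin n) (fun n G X y => P n G y.1 y.2)) : RelNC1 2 (fun n G x => P n G (x 0) (x 1)) := by
  obtain ⟨φ, hφ⟩ := h
  refine XI_congr (XI_fm (r := 2) φ (fun j : Fin 2 => j)) fun n G x => ?_
  have h0 := hφ n G (fun _ _ => False) (x 0, x 1)
  simp only at h0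
  rw [← h0]
  have h1 : (fun j : Fin 2 => x j) = vec (E := fun n => Fin n × Fin n) n (x 0, x 1) := by
    rw [vec_pair (E := fun n => Fin n) (F := fun n => Fin n)]
    funext j
    fin_cases j
    · rfl
    · rfl
  exact Eq.to_iff (congrArg (fun y => φ.eval G (fun _ _ => False) y) h1)

end PRS
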