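import Pool.Agent.Lib.MP_0087d5_lcPR.XG
import Pool.Agent.Lib.MP_0087d5_lcPR.XH
import Pool.Agent.Lib.MP_0087d5_lcPR.XI
import Pool.Agent.Lib.MP_0087d5_lcPR.Br2

/-!
# Search with certificates: assembly
-/

set_option autoImplicit false
set_option linter.all false

namespace PRS

open Pool.Agent Pool.Agent.PMNC MTC LIN ZER

/-- the matching -/
def MM (S : ℕ → Type) [Env S] [∀ n, Fintype (S n)] (n : ℕ) (G A : SimpleGraph (Fin n)) : SimpleGraph (Fin n) where
  Adj u v := MR S (n + n) (pair G A) (Fin.castAdd n u) (Fin.castAdd n v)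
  symm := ⟨fun u v h => (mr_matching G A).2.1 u v h⟩
  loopless := ⟨fun u h => G.irrefl ((mr_matching G A).1 u u h)⟩

/-- the set -/
def UU (S : ℕ → Type) [Env S] [∀ n, Fintype (S n)] (n : ℕ) (G A : SimpleGraph (Fin n)) : Set (Fin n) :=
  {w | UR S (n + n) (pair G A) (Fin.castAdd n w)}

theorem odd_eq {n : ℕ} (G : SimpleGraph (Fin n)) (U : Set (Fin n)) :
    Nat.card {v // oddRep G (fun w => w ∈ U) v} = ((⊤ : G.Subgraph).deleteVerts U).coe.oddComponents.ncard := by
  refine oc_eq G (fun w => w ∈ U) ((⊤ : G.Subgraph).deleteVerts U).coe (fun a => a.1) (fun a b hab => Subtype.ext hab) ?_ ?_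
  · intro x
    constructor
    · intro h
      exact ⟨⟨x, by simpa using h⟩, rfl⟩
    · rintro ⟨a, rfl⟩ h
      have h2 := a.2
      simp only [SimpleGraph.Subgraph.deleteVerts_verts, SimpleGraph.Subgraph.verts_top, Set.mem_diff, Set.mem_univ, true_and] at h2
      exact h2 h
  · intro a b
    have ha := a.2
    have hb := b.2
    simp only [SimpleGraph.Subgraph.coe_adj, SimpleGraph.Subgraph.deleteVerts_adj, SimpleGraph.Subgraph.top_adj, SimpleGraph.Subgraph.verts_top,
      Set.mem_univ, true_and]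
    simp only [SimpleGraph.Subgraph.deleteVerts_verts, SimpleGraph.Subgraph.verts_top, Set.mem_diff, Set.mem_univ, true_and] at ha hb
    exact ⟨fun h => h.2.2, fun h => ⟨ha, hb, h⟩⟩

theorem search : ∃ (M : ∀ n : ℕ, SimpleGraph (Fin n) → SimpleGraph (Fin n) → SimpleGraph (Fin n))
    (U : ∀ n : ℕ, SimpleGraph (Fin n) → SimpleGraph (Fin n) → Set (Fin n)) (C : ℕ),
    AUG.RelNC2 2 (fun n G A x => (M n G A).Adj (x 0) (x 1)) ∧ AUG.RelNC2 1 (fun n G A x => x 0 ∈ U n G A) ∧
    (∀ (n : ℕ) (G A : SimpleGraph (Fin n)), M n G A ≤ G ∧ ∀ u v w, (M n G A).Adj u v → (M n G A).Adj u w → v = w) ∧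
    ∀ n : ℕ, Nat.card {A : SimpleGraph (Fin n) // ∃ G : SimpleGraph (Fin n),
      ((⊤ : G.Subgraph).deleteVerts (U n G A)).coe.oddComponents.ncard ≠ (U n G A).ncard + {v | ∀ w, ¬ (M n G A).Adj v w}.ncard} ≤ n ^ (C * n) := by
  obtain ⟨C, hU⟩ := universal2
  obtain ⟨S, i1, i2, hS⟩ := exists_SS (2 * C + 12)
  refine ⟨MM S, UU S, 4 * C, ?_, ?_, ?_, ?_⟩
  · exact bridgeR (rel2_of_defP (P := fun n G u v => MR S n G u v) def_MR)
  · exact bridgeR (rel1_of_defP (P := fun n G u => UR S n G u) def_UR)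
  · intro n G A
    exact ⟨fun u v h => (mr_matching G A).1 u v h, fun u v w h1 h2 => (mr_matching G A).2.2 u v w h1 h2⟩
  · intro n
    rcases Nat.lt_or_ge 1 n with hn | hn
    · refine le_trans ?_ ((hU (n + n) (by omega)).trans (pow_le C n hn))
      refine Nat.card_le_card_of_injective (fun A : {A : SimpleGraph (Fin n) // ∃ G : SimpleGraph (Fin n),
        ((⊤ : G.Subgraph).deleteVerts (UU S n G A)).coe.oddComponents.ncard ≠ (UU S n G A).ncard + {v | ∀ w, ¬ (MM S n G A).Adj v w}.ncard} =>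
        (⟨SP (n + n) (pair ⊥ A.1), ?_⟩ : {A : SimpleGraph (Fin (n + n)) // ∃ G : SimpleGraph (Fin (n + n)), HasPM G ∧ ¬ OK2 C G A})) ?_
      · by_contra hc
        push Not at hc
        obtain ⟨G, hG⟩ := A.2
        rw [SP_congr ⊥ G A.1] at hc
        apply hG
        rw [← odd_eq]
        have h := mr_main (S := S) (by omega) (by omega) G A.1 hc
        exact h
      · intro a b hab
        exact Subtype.ext (SP_inj _ _ _ (congrArg (fun z : {A : SimpleGraph (Fin (n + n)) // ∃ G : SimpleGraph (Fin (n + n)), HasPM G ∧ ¬ OK2 C G A} => z.1) hab))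
    · have h1 : Subsingleton (SimpleGraph (Fin n)) := by
        have : Subsingleton (Fin n) := by
          rcases Nat.le_one_iff_eq_zero_or_eq_one.1 hn with rfl | rfl <;> infer_instance
        refine ⟨fun G H => ?_⟩
        ext u v
        have huv : u = v := Subsingleton.elim u v
        subst huv
        exact ⟨fun h => absurd h G.irrefl, fun h => absurd h H.irrefl⟩
      have h2 : ∀ P : SimpleGraph (Fin n) → Prop, Nat.card {A : SimpleGraph (Fin n) // P A} ≤ 1 := by
        intro P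
        exact Finite.card_le_one_iff_subsingleton.2 ⟨fun a b => Subtype.ext (Subsingleton.elim _ _)⟩
      refine (h2 _).trans ?_
      rcases Nat.le_one_iff_eq_zero_or_eq_one.1 hn with rfl | rfl
      · simp
      · simp

end PRS
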