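import Pool.Agent.Lib.MP_0087d5_lc.FRC.Uni

/-!
# Leaf XA (easy+): below the least weight the coefficients of the determinant vanish; coefficients from values

`coeff_zero`. Proof: as in `coeff_det_wm` (file FRC/Uni): `det_eq_sum_col` and for each colourable `σ` (colouring `χ`) the term is `C (..) * X ^ (∑ x, w x (σ x))`, which is `0` if some `b (σ v) v = 0`; otherwise `mat σ χ` and `mat σ (fun v => !χ v)` are `Mt b`
(`mt_mat`) and `sum_two` gives that twice the exponent is the sum of their weights, so the exponent is larger than `c`.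

`sum_eval`. Proof: write `D.eval x` as the sum of its coefficients times powers (`Polynomial.eval_eq_sum_range`), exchange the sums, and use that the sum over `x ≠ 0` of `x ^ k` is `-1` if `p - 1 ∣ k` and `0` otherwise (`FiniteField.sum_pow_units` or
`FiniteField.sum_pow_lt_card_sub_one` and `ZMod.card_units`/`Units`): here `k = e + j` with `0 ≤ j ≤ natDegree D < p - 1` and `1 ≤ e ≤ p - 1`, so `k` is divisible by `p - 1` only if `k = p - 1`.
-/

set_option autoImplicit false
set_option linter.all false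

namespace PRS

open Finset Pool.Agent.FRC.Uni

theorem coeff_zero {V R : Type*} [Fintype V] [DecidableEq V] [CommRing R] [IsDomain R] (b : V → V → R) (h0 : ∀ v, b v v = 0)
    (hb : ∀ u v, b u v = - b v u) (w : V → V → ℕ) (hw : ∀ u v, w u v = w v u) (c : ℕ)
    (h : ∀ m', Pool.Agent.FRC.Uni.Mt b m' → c < ∑ v, w v (m' v)) : (wm b w).det.coeff c = 0 := by
  classical
  rw [det_eq_sum_col (wm b w) (fun v => by simp [wm, h0]) (fun u v => by
    simp only [wm, Matrix.of_apply]
    rw [hb u v, hw u v, Polynomial.C_neg, neg_mul])]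
  rw [Polynomial.finsetSum_coeff]
  refine Finset.sum_eq_zero fun σ hσ => ?_
  have hterm : (((Equiv.Perm.sign σ : ℤ) : Polynomial R) * ∏ x, wm b w (σ x) x) =
      Polynomial.C (((Equiv.Perm.sign σ : ℤ) : R) * ∏ x, b (σ x) x) *
        Polynomial.X ^ (∑ x, w x (σ x)) := by
    simp only [wm, Matrix.of_apply]
    rw [Finset.prod_mul_distrib, Finset.prod_pow_eq_pow_sum, Polynomial.C_mul, ← map_prod]
    have e : ∑ x, w (σ x) x = ∑ x, w x (σ x) := Finset.sum_congr rfl fun x _ => hw _ _
    rw [e]
    simp only [map_intCast]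
    ring
  rw [hterm, Polynomial.coeff_C_mul_X_pow]
  have hc : Col σ := by simpa using hσ
  obtain ⟨χ, hχ⟩ := hc
  by_cases hs : ∀ v, b (σ v) v ≠ 0
  · rw [if_neg]
    have h1 := h _ (mt_mat hb hχ hs)
    have h2 := h _ (mt_mat hb (χ := fun v => !χ v) (fun v => by simp [hχ v]) hs)
    have h3 := sum_two hχ w hw
    omega
  · push Not at hs
    obtain ⟨v, hv⟩ := hs
    have e : ∏ x, b (σ x) x = 0 := Finset.prod_eq_zero (Finset.mem_univ v) hv
    rw [e, mul_zero]
    split_ifs <;> rfl

open Classical in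
theorem sum_eval (p : ℕ) [Fact p.Prime] (D : Polynomial (ZMod p)) (hD : D.natDegree < p - 1) (e : ℕ) (h1 : 1 ≤ e) (h2 : e ≤ p - 1) :
    ∑ x ∈ univ.filter (fun x : ZMod p => x ≠ 0), x ^ e * D.eval x = - D.coeff (p - 1 - e) := by
  have hp : 1 < p := (Fact.out : p.Prime).one_lt
  have key : ∀ k : ℕ, ∑ x ∈ univ.filter (fun x : ZMod p => x ≠ 0), x ^ k =
      if p - 1 ∣ k then (-1 : ZMod p) else 0 := by
    intro k
    have h3 := FiniteField.sum_pow_units (K := ZMod p) k
    rw [ZMod.card] at h3
    rw [← h3]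
    symm
    refine Finset.sum_bij (fun (u : (ZMod p)ˣ) _ => (u : ZMod p)) ?_ ?_ ?_ ?_
    · intro u _
      exact Finset.mem_filter.2 ⟨Finset.mem_univ _, u.ne_zero⟩
    · intro u _ v _ huv
      exact Units.ext huv
    · intro x hx
      exact ⟨Units.mk0 x (Finset.mem_filter.1 hx).2, Finset.mem_univ _, rfl⟩
    · intro u _
      rfl
  have h3 : ∀ x : ZMod p, x ^ e * D.eval x =
      ∑ i ∈ range (D.natDegree + 1), D.coeff i * x ^ (e + i) := by
    intro x
    rw [Polynomial.eval_eq_sum_range, Finset.mul_sum]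
    refine Finset.sum_congr rfl fun i _ => ?_
    rw [pow_add]
    ring
  rw [Finset.sum_congr rfl fun x _ => h3 x, Finset.sum_comm]
  have h4 : ∀ i ∈ range (D.natDegree + 1),
      ∑ x ∈ univ.filter (fun x : ZMod p => x ≠ 0), D.coeff i * x ^ (e + i) =
        if i = p - 1 - e then - D.coeff i else 0 := by
    intro i hi
    have hi' := Finset.mem_range.1 hi
    rw [← Finset.mul_sum, key]
    by_cases h5 : i = p - 1 - e
    · rw [if_pos h5, if_pos (by rw [h5]; exact ⟨1, by omega⟩)]
      ring
    · rw [if_neg h5, if_neg, mul_zero]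
      rintro ⟨t, ht⟩
      rcases t with _ | _ | t
      · omega
      · omega
      · have h6 : (p - 1) * 2 ≤ (p - 1) * (t + 1 + 1) := Nat.mul_le_mul_left _ (by omega)
        omega
  rw [Finset.sum_congr rfl h4, Finset.sum_ite_eq']
  split_ifs with h5
  · rfl
  · rw [Polynomial.coeff_eq_zero_of_natDegree_lt, neg_zero]
    exact Nat.lt_of_not_le fun h6 => h5 (Finset.mem_range.2 (Nat.lt_succ_of_le h6))

end PRS
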