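import Pool.Agent.Lib.MP_0087d5_lcPR.SDefs
import Pool.Agent.Lib.MP_0087d5_lcPR.XA

/-!
# Leaf XC (medium): the edges of an isolated perfect matching are read off correctly

Proof. Take `K, q, t, t', g, y, y'` from `OK2` and `f` the isolated perfect matching of `T` (`Iso`, weights `w = WT2 … = zW2 …` by `WT2_eq` as in `acc2_complete`, file LI/NC2), `c = ∑ u, w u (f u)`, the prime `p` with
`n ^ (2 * C + 8) < p ≤ 2 * n ^ (2 * C + 8)` as in `acc2_complete`; `w u v < n ^ (2 * C + 5)` (`zW2_lt`), so `c < p - 1` and the determinant of `wm b w` (`b` = `zB _` in `ZMod p`) has degree `< p - 1`; put `e = p - 1 - c` (so `1 ≤ e ≤ p - 1`;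
the numbers are represented in `S` by `nv_surj`). For a graph `T'` with the entries `zM2 … T' A … x` the image in `ZMod p` of the determinant is the value at `x` of `(wm b' w).det` (`RingHom.map_det`, `Polynomial.eval`-ring homomorphism), so
by `sum_eval` (leaf XA; the sum over `x : S n` with `nv x < p`, `nv x ≠ 0` is the sum over the nonzero elements of `ZMod p`) the image of `co T' A a` is `- (wm b' w).det.coeff c`. For `T' = del T (u, v)` with `T.Adj u v`:
if `f u ≠ v` then `f` is still the only perfect matching of least weight of `T'`, and the coefficient is not zero (`coeff_det_wm`, as in `det_wm_ne_zero`); if `f u = v` then every perfect matching of `T'` is one of `T` different from `f`, so it has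
weight larger than `c` (`Iso`), and the coefficient is zero (`coeff_zero`). `¬ nd p z` means `p ∣ z` for `p > 0`. If `T.Adj u v` fails then `f u ≠ v`.
-/

set_option autoImplicit false
set_option linter.all false

namespace PRS

open Finset Pool.Agent Pool.Agent.PMNC MTC LIN

open Classical in
private theorem XC_sum {S : ℕ → Type} [Env S] [∀ n, Fintype (S n)] {n : ℕ} (p : S n) [Fact (nv p).Prime]
    (F : ZMod (nv p) → ZMod (nv p)) :
    ∑ x ∈ univ.filter (fun x : S n => nv x < nv p ∧ ¬ nv x = 0), F ((nv x : ℕ) : ZMod (nv p)) =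
      ∑ z ∈ univ.filter (fun z : ZMod (nv p) => z ≠ 0), F z := by
  refine Finset.sum_bij (fun x _ => ((nv x : ℕ) : ZMod (nv p))) ?_ ?_ ?_ ?_
  · intro x hx
    rw [Finset.mem_filter] at hx ⊢
    refine ⟨mem_univ _, fun h => ?_⟩
    rw [ZMod.natCast_eq_zero_iff] at h
    exact hx.2.2 (Nat.eq_zero_of_dvd_of_lt h hx.2.1)
  · intro x hx x' hx' h
    rw [Finset.mem_filter] at hx hx'
    have h1 := congrArg ZMod.val h
    rw [ZMod.val_natCast_of_lt hx.2.1, ZMod.val_natCast_of_lt hx'.2.1] at h1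
    exact nv_injective h1
  · intro z hz
    rw [Finset.mem_filter] at hz
    obtain ⟨x, hx⟩ := nv_down (b := p) (m := z.val) (ZMod.val_lt z)
    refine ⟨x, ?_, ?_⟩
    · rw [Finset.mem_filter]
      refine ⟨mem_univ _, by rw [hx]; exact ZMod.val_lt z, fun h => hz.2 ?_⟩
      rw [hx, ZMod.val_eq_zero] at h
      exact h
    · rw [hx, ZMod.natCast_zmod_val]
  · intro x _
    rfl

private theorem XC_det {n P : ℕ} (T' A : SimpleGraph (Fin n)) (K q : ℕ) (g y : ℤ) (t : ℕ) (y' : ℤ) (t' : ℕ)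
    (x : ℕ) :
    ((zdet (T := fun n => Fin n) (zM2 K q T' A g y t y' t' (x : ℤ)) : ℤ) : ZMod P) =
      (Pool.Agent.FRC.Uni.wm (fun u v => ((zB T' u v : ℤ) : ZMod P)) (zW2 K q A g y t y' t')).det.eval
        ((x : ℕ) : ZMod P) := by
  rw [zdet_eq (T := fun n => Fin n) inferInstance]
  have h1 : ((Matrix.det (Matrix.of (zM2 K q T' A g y t y' t' (x : ℤ))) : ℤ) : ZMod P) =
      Matrix.det ((Int.castRingHom (ZMod P)).mapMatrix (Matrix.of (zM2 K q T' A g y t y' t' (x : ℤ)))) :=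
    RingHom.map_det (Int.castRingHom (ZMod P)) _
  have h2 : (Pool.Agent.FRC.Uni.wm (fun u v => ((zB T' u v : ℤ) : ZMod P)) (zW2 K q A g y t y' t')).det.eval
        ((x : ℕ) : ZMod P) =
      Matrix.det ((Polynomial.evalRingHom ((x : ℕ) : ZMod P)).mapMatrix
        (Pool.Agent.FRC.Uni.wm (fun u v => ((zB T' u v : ℤ) : ZMod P)) (zW2 K q A g y t y' t'))) :=
    RingHom.map_det (Polynomial.evalRingHom ((x : ℕ) : ZMod P)) _
  rw [h1, h2]
  congr 1
  ext u v
  simp [zM2, Pool.Agent.FRC.Uni.wm]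

private theorem XC_co {S : ℕ → Type} [Env S] [∀ n, Fintype (S n)] {n : ℕ} (T' A : SimpleGraph (Fin n))
    (K q g y t y' t' p e : S n) [Fact (nv p).Prime] (c : ℕ)
    (hdeg : (Pool.Agent.FRC.Uni.wm (fun u v => ((zB T' u v : ℤ) : ZMod (nv p)))
      (zW2 (nv K) (nv q) A (nv g) (nv y) (nv t) (nv y') (nv t'))).det.natDegree < nv p - 1)
    (hc : c < nv p - 1) (he : nv e = nv p - 1 - c) :
    ((co T' A (K, (q, (g, (y, (t, (y', (t', (p, e)))))))) : ℤ) : ZMod (nv p)) =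
      - (Pool.Agent.FRC.Uni.wm (fun u v => ((zB T' u v : ℤ) : ZMod (nv p)))
        (zW2 (nv K) (nv q) A (nv g) (nv y) (nv t) (nv y') (nv t'))).det.coeff c := by
  classical
  obtain ⟨D, hD⟩ : ∃ D, D = (Pool.Agent.FRC.Uni.wm (fun u v => ((zB T' u v : ℤ) : ZMod (nv p)))
      (zW2 (nv K) (nv q) A (nv g) (nv y) (nv t) (nv y') (nv t'))).det := ⟨_, rfl⟩
  rw [← hD] at hdeg ⊢
  have h1 := sum_eval (nv p) D hdeg (nv e) (by omega) (by omega)
  have h2 : nv p - 1 - nv e = c := by omega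
  rw [h2] at h1
  rw [← h1, ← XC_sum p (fun z => z ^ nv e * D.eval z), Finset.sum_filter]
  change (((∑ x : S n, cnd (nv x < nv p ∧ ¬ nv x = 0) (((nv x : ℕ) : ℤ) ^ nv e *
    zdet (T := fun n => Fin n) (zM2 (nv K) (nv q) T' A (nv g) (nv y) (nv t) (nv y') (nv t') (nv x))) 0 : ℤ)) :
      ZMod (nv p)) = _
  rw [Int.cast_sum]
  refine Finset.sum_congr rfl fun x _ => ?_
  by_cases hx : nv x < nv p ∧ ¬ nv x = 0
  · rw [cnd_pos hx, if_pos hx, Int.cast_mul, Int.cast_pow, Int.cast_natCast, XC_det, hD]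
  · rw [cnd_neg hx, if_neg hx, Int.cast_zero]

private theorem XC_supp {n P : ℕ} [Fact P.Prime] (G : SimpleGraph (Fin n)) (u v : Fin n) :
    ((zB G u v : ℤ) : ZMod P) ≠ 0 ↔ G.Adj u v := by
  constructor
  · intro h
    apply zB_adj
    intro h0
    apply h
    rw [h0, Int.cast_zero]
  · intro h
    rcases zB_cases G h with h1 | h1
    · rw [h1, Int.cast_one]
      exact one_ne_zero
    · rw [h1, Int.cast_neg, Int.cast_one]
      exact neg_ne_zero.2 one_ne_zero

private theorem XC_mt {n P : ℕ} [Fact P.Prime] (G : SimpleGraph (Fin n)) (m : Fin n → Fin n) :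
    Pool.Agent.FRC.Uni.Mt (fun u v => ((zB G u v : ℤ) : ZMod P)) m ↔ MTC.IsPM G.Adj m := by
  constructor
  · intro h
    exact ⟨h.invol, fun v => (XC_supp G v (m v)).1 (h.supp v)⟩
  · intro h
    exact ⟨h.1, fun v => (G.ne_of_adj (h.2 v)).symm, fun v => (XC_supp G v (m v)).2 (h.2 v)⟩

private theorem XC_coeff {n P : ℕ} [Fact P.Prime] (T : SimpleGraph (Fin n)) (w : Fin n → Fin n → ℕ)
    (hw : ∀ u v, w u v = w v u) {f : Fin n → Fin n} (hf : MTC.IsPM T.Adj f)
    (hmin : ∀ f', MTC.IsPM T.Adj f' → f' ≠ f → MTC.tw w f < MTC.tw w f') {u v : Fin n} (huv : T.Adj u v) :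
    (Pool.Agent.FRC.Uni.wm (fun x y => ((zB (del T (u, v)) x y : ℤ) : ZMod P)) w).det.coeff (MTC.tw w f) = 0 ↔
      f u = v := by
  have h0 : ∀ x : Fin n, ((zB (del T (u, v)) x x : ℤ) : ZMod P) = 0 := fun x => by
    rw [zB_diag, Int.cast_zero]
  have hb : ∀ x y : Fin n, ((zB (del T (u, v)) x y : ℤ) : ZMod P) = - ((zB (del T (u, v)) y x : ℤ) : ZMod P) :=
    fun x y => by rw [zB_skew, Int.cast_neg]
  have hsub : ∀ m, MTC.IsPM (del T (u, v)).Adj m → MTC.IsPM T.Adj m := fun m h => ⟨h.1, fun x => (h.2 x).1⟩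
  constructor
  · intro h
    by_contra hne
    have hf' : MTC.IsPM (del T (u, v)).Adj f := by
      refine ⟨hf.1, fun x => ⟨hf.2 x, ?_⟩⟩
      rintro (⟨h1, h2⟩ | ⟨h1, h2⟩)
      · have h1' : x = u := h1
        have h2' : f x = v := h2
        rw [h1'] at h2'
        exact hne h2'
      · have h1' : x = v := h1
        have h2' : f x = u := h2
        apply hne
        rw [← h2', hf.1, h1']
    have hm : Pool.Agent.FRC.Uni.Mt (fun x y => ((zB (del T (u, v)) x y : ℤ) : ZMod P)) f := (XC_mt _ f).2 hf'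
    have h1 := Pool.Agent.FRC.Uni.coeff_det_wm (fun x y => ((zB (del T (u, v)) x y : ℤ) : ZMod P)) h0 hb w hw hm
      fun m' hm' hne' => hmin m' (hsub _ ((XC_mt _ m').1 hm')) hne'
    have h2 : (Pool.Agent.FRC.Uni.wm (fun x y => ((zB (del T (u, v)) x y : ℤ) : ZMod P)) w).det.coeff
        (∑ v, w v (f v)) = 0 := h
    rw [h2] at h1
    have h3 : (((Equiv.Perm.sign hm.perm : ℤ) : ZMod P) *
        ∏ x, ((zB (del T (u, v)) (f x) x : ℤ) : ZMod P)) ≠ 0 := by
      refine mul_ne_zero ?_ (Finset.prod_ne_zero_iff.2 fun x _ => ?_)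
      · rcases Int.units_eq_one_or (Equiv.Perm.sign hm.perm) with e | e
        · rw [e]
          simp
        · rw [e]
          simp
      · rw [hb]
        exact neg_ne_zero.2 (hm.supp x)
    exact h3 h1.symm
  · intro h
    refine coeff_zero (fun x y => ((zB (del T (u, v)) x y : ℤ) : ZMod P)) h0 hb w hw _ fun m' hm' => ?_
    have h1 := (XC_mt _ m').1 hm'
    refine hmin m' (hsub _ h1) fun he => ?_
    have h2 := (h1.2 u).2
    apply h2
    left
    refine ⟨rfl, ?_⟩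
    rw [he]
    exact h

theorem ed_complete {S : ℕ → Type} [Env S] [∀ n, Fintype (S n)] {C n : ℕ} (hS : 2 * C + 12 ≤ dim S) (hn : 2 ≤ n) (T A : SimpleGraph (Fin n))
    (h : OK2 C T A) : ∃ (a : Par S n) (f : Fin n → Fin n), IsPM T.Adj f ∧ ∀ u v, ed T A a u v ↔ f u = v := by
  classical
  obtain ⟨K, q, t, t', g, y, y', hq, hK, hqC, ht, ht', hi⟩ := h
  haveI : NeZero q := ⟨hq.ne_zero⟩
  have hpow : n ^ C < n ^ dim S := Nat.pow_lt_pow_right (by omega) (by omega)
  obtain ⟨p₀, hp₀, hlt, hle⟩ := Nat.exists_prime_lt_and_le_two_mul (n ^ (2 * C + 8)) (by positivity)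
  have hp1 : p₀ < n ^ dim S := by
    calc p₀ ≤ 2 * n ^ (2 * C + 8) := hle
      _ ≤ n * n ^ (2 * C + 8) := Nat.mul_le_mul_right _ hn
      _ = n ^ (2 * C + 9) := by ring
      _ < n ^ dim S := Nat.pow_lt_pow_right (by omega) (by omega)
  obtain ⟨p, rfl⟩ := nv_surj (S := S) hp1
  obtain ⟨K', rfl⟩ := nv_surj (S := S) (n := n) (m := K) (lt_of_le_of_lt hK hpow)
  obtain ⟨g₁, hg₁⟩ := nv_surj (S := S) (n := n) (m := g.val) (lt_of_lt_of_le (ZMod.val_lt g) (hqC.trans hpow.le))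
  obtain ⟨y₁, hy₁⟩ := nv_surj (S := S) (n := n) (m := y.val) (lt_of_lt_of_le (ZMod.val_lt y) (hqC.trans hpow.le))
  obtain ⟨y₂, hy₂⟩ := nv_surj (S := S) (n := n) (m := y'.val) (lt_of_lt_of_le (ZMod.val_lt y') (hqC.trans hpow.le))
  have hb : ∀ {t : ℕ}, t ≤ 2 * n → t < n ^ dim S := by
    intro t ht
    calc t ≤ n * n := ht.trans (Nat.mul_le_mul_right _ hn)
      _ = n ^ 2 := by ring
      _ < n ^ dim S := Nat.pow_lt_pow_right (by omega) (by omega)
  obtain ⟨t₁, rfl⟩ := nv_surj (S := S) (n := n) (m := t) (hb ht)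
  obtain ⟨t₂, rfl⟩ := nv_surj (S := S) (n := n) (m := t') (hb ht')
  obtain ⟨q', hq'⟩ := nv_surj (S := S) (n := n) (m := q) (lt_of_le_of_lt hqC hpow)
  haveI : Fact (nv p).Prime := ⟨hp₀⟩
  have hW : WT2 (nv K') q A g y (nv t₁) y' (nv t₂) =
      zW2 (nv K') (nv q') A (nv g₁) (nv y₁) (nv t₁) (nv y₂) (nv t₂) := by
    rw [WT2_eq, hg₁, hy₁, hy₂, hq']
  rw [hW] at hi
  obtain ⟨w, hw⟩ : ∃ w, w = zW2 (nv K') (nv q') A (nv g₁) (nv y₁) (nv t₁) (nv y₂) (nv t₂) := ⟨_, rfl⟩
  have hwlt : ∀ u v, w u v < n ^ (2 * C + 5) := fun u v => by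
    rw [hw]
    exact zW2_lt hn A _ _ _ (by rw [hq']; exact hq.pos) hK (by rw [hq']; exact hqC) u v
  have hws : ∀ u v, w u v = w v u := fun u v => by
    rw [hw]
    exact zW2_symm _ _ A _ _ _ _ _ u v
  rw [← hw] at hi
  obtain ⟨f, hf, hmin⟩ := hi
  have hN : n * n ^ (2 * C + 5) < nv p - 1 := by
    have h1 : n * n ^ (2 * C + 5) = n ^ (2 * C + 6) := by ring
    have h2 : n ^ (2 * C + 6) < n ^ (2 * C + 8) := Nat.pow_lt_pow_right (by omega) (by omega)
    omega
  have hc : MTC.tw w f < nv p - 1 := by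
    refine lt_of_le_of_lt ?_ hN
    unfold MTC.tw
    refine (Finset.sum_le_card_nsmul _ _ (n ^ (2 * C + 5)) fun u _ => (hwlt _ _).le).trans ?_
    rw [Finset.card_univ, Fintype.card_fin, smul_eq_mul]
  obtain ⟨e, he⟩ := nv_surj (S := S) (n := n) (m := nv p - 1 - MTC.tw w f) (by omega)
  refine ⟨(K', (q', (g₁, (y₁, (t₁, (y₂, (t₂, (p, e)))))))), f, hf, fun u v => ?_⟩
  have hdeg : ∀ T' : SimpleGraph (Fin n),
      (Pool.Agent.FRC.Uni.wm (fun u v => ((zB T' u v : ℤ) : ZMod (nv p))) w).det.natDegree < nv p - 1 := by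
    intro T'
    refine lt_of_le_of_lt (det_deg _ (n ^ (2 * C + 5)) fun r c => ?_) ?_
    · exact (Polynomial.natDegree_C_mul_X_pow_le _ _).trans (hwlt r c).le
    · rw [Fintype.card_fin]
      exact hN
  have hco : ∀ T' : SimpleGraph (Fin n),
      ((co T' A (K', (q', (g₁, (y₁, (t₁, (y₂, (t₂, (p, e)))))))) : ℤ) : ZMod (nv p)) =
        - (Pool.Agent.FRC.Uni.wm (fun u v => ((zB T' u v : ℤ) : ZMod (nv p))) w).det.coeff (MTC.tw w f) := by
    intro T'
    have h1 := hdeg T'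
    rw [hw] at h1 ⊢
    rw [hw] at hc he
    exact XC_co T' A K' q' g₁ y₁ t₁ y₂ t₂ p e _ h1 hc he
  have hq0 : ¬ nv q' = 0 := by
    rw [hq']
    exact hq.ne_zero
  constructor
  · rintro ⟨-, -, huv, hnd⟩
    rw [← XC_coeff (P := nv p) T w hws hf hmin huv]
    have h1 : ((nv p : ℕ) : ℤ) ∣ co (del T (u, v)) A (K', (q', (g₁, (y₁, (t₁, (y₂, (t₂, (p, e)))))))) := by
      by_contra h2
      exact hnd ⟨hp₀.pos, h2⟩
    have h3 := (ZMod.intCast_zmod_eq_zero_iff_dvd _ _).2 h1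
    rw [hco, neg_eq_zero] at h3
    exact h3
  · intro h
    have huv : T.Adj u v := by
      rw [← h]
      exact hf.2 u
    refine ⟨(prS_iff p).2 hp₀, hq0, huv, fun hnd => hnd.2 ?_⟩
    rw [← ZMod.intCast_zmod_eq_zero_iff_dvd]
    have h1 := (XC_coeff (P := nv p) T w hws hf hmin huv).2 h
    exact (hco _).trans (by rw [h1, neg_zero])

end PRS
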