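import Pool.Agent.Lib.MP_0087d5_lcPR.SDefs

/-!
# Leaf XD (medium): the relation `ed` is definable

Proof. As `defP_acc2` (file LI/NC2). The environment of the sum: `E := fun n => ((B n × Par S n) × (Fin n × Fin n)) × S n` (the last component is `x`); the entries of the matrix by `defZ_zM2` with `B' := fun n => B n × (Fin n × Fin n)`,
`T' n G (b, e) := del (T n G b) e`, `A' n G (b, e) := A n G b` (`DefP` of `del` from `hT` and `DefP.eqFin`), with the factor `cnd (nv q = 0) 0 _` as there; then `DefZ.det`, `DefZ.mul`, `DefZ.pow`, `DefZ.nv'`, `DefZ.ite`, `DefZ.sum (F := S)`, `DefZ.ndvd`.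
For `nv q = 0` both sides are false, otherwise the factor is 1.
-/

set_option autoImplicit false
set_option linter.all false

namespace PRS

open Finset Pool.Agent Pool.Agent.PMNC MTC LIN

theorem defP_ed {S B : ℕ → Type} [Env S] [Env B] [∀ n, Fintype (S n)] {A T : ∀ n : ℕ, SimpleGraph (Fin n) → B n → SimpleGraph (Fin n)}
    (hA : DefP (E := fun n => B n × (Fin n × Fin n)) (fun n G X y => (A n G y.1).Adj y.2.1 y.2.2))
    (hT : DefP (E := fun n => B n × (Fin n × Fin n)) (fun n G X y => (T n G y.1).Adj y.2.1 y.2.2)) :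
    DefP (E := fun n => (B n × Par S n) × (Fin n × Fin n)) (fun n G X y => ed (T n G y.1.1) (A n G y.1.1) y.1.2 y.2.1 y.2.2) := by
  have hA' : DefP (E := fun n => (B n × (Fin n × Fin n)) × (Fin n × Fin n)) (fun n G X y => (A n G y.1.1).Adj y.2.1 y.2.2) :=
    DefP.comp (E := fun n => (B n × (Fin n × Fin n)) × (Fin n × Fin n)) (F := fun n => B n × (Fin n × Fin n))
      (f := fun n y => (y.1.1, y.2)) hA (Tm.pair (Tm.fst (Tm.fst Tm.id)) (Tm.snd Tm.id))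
  have hT' : DefP (E := fun n => (B n × (Fin n × Fin n)) × (Fin n × Fin n))
      (fun n G X y => (del (T n G y.1.1) y.1.2).Adj y.2.1 y.2.2) := by
    have h1 : DefP (E := fun n => (B n × (Fin n × Fin n)) × (Fin n × Fin n)) (fun n G X y => (T n G y.1.1).Adj y.2.1 y.2.2) :=
      DefP.comp (E := fun n => (B n × (Fin n × Fin n)) × (Fin n × Fin n)) (F := fun n => B n × (Fin n × Fin n))
        (f := fun n y => (y.1.1, y.2)) hT (Tm.pair (Tm.fst (Tm.fst Tm.id)) (Tm.snd Tm.id))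
    have u1 : Tm (E := fun n => (B n × (Fin n × Fin n)) × (Fin n × Fin n)) (F := fun n => Fin n) (fun n y => y.2.1) :=
      Tm.fst (Tm.snd Tm.id)
    have u2 : Tm (E := fun n => (B n × (Fin n × Fin n)) × (Fin n × Fin n)) (F := fun n => Fin n) (fun n y => y.2.2) :=
      Tm.snd (Tm.snd Tm.id)
    have w1 : Tm (E := fun n => (B n × (Fin n × Fin n)) × (Fin n × Fin n)) (F := fun n => Fin n) (fun n y => y.1.2.1) :=
      Tm.fst (Tm.snd (Tm.fst Tm.id))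
    have w2 : Tm (E := fun n => (B n × (Fin n × Fin n)) × (Fin n × Fin n)) (F := fun n => Fin n) (fun n y => y.1.2.2) :=
      Tm.snd (Tm.snd (Tm.fst Tm.id))
    exact DefP.congr (DefP.and h1 (DefP.not (DefP.or (DefP.and (DefP.eqFin u1 w1) (DefP.eqFin u2 w2))
      (DefP.and (DefP.eqFin u1 w2) (DefP.eqFin u2 w1))))) fun n G X y => Iff.rfl
  have T0 : Tm (E := fun n => (B n × Par S n) × (Fin n × Fin n)) (F := fun n => Par S n) (fun n e => e.1.2) := Tm.snd (Tm.fst Tm.id)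
  have T1 : Tm (E := fun n => (B n × Par S n) × (Fin n × Fin n)) (F := S) (fun n e => e.1.2.1) := Tm.fst T0
  have R1 : Tm (E := fun n => (B n × Par S n) × (Fin n × Fin n)) (F := fun n => S n × (S n × (S n × (S n × (S n × (S n × (S n × S n)))))))
    (fun n e => e.1.2.2) := Tm.snd T0
  have T2 : Tm (E := fun n => (B n × Par S n) × (Fin n × Fin n)) (F := S) (fun n e => e.1.2.2.1) := Tm.fst R1
  have T3 : Tm (E := fun n => (B n × Par S n) × (Fin n × Fin n)) (F := S) (fun n e => e.1.2.2.2.1) := Tm.fst (Tm.snd R1)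
  have T4 : Tm (E := fun n => (B n × Par S n) × (Fin n × Fin n)) (F := S) (fun n e => e.1.2.2.2.2.1) := Tm.fst (Tm.snd (Tm.snd R1))
  have T5 : Tm (E := fun n => (B n × Par S n) × (Fin n × Fin n)) (F := S) (fun n e => e.1.2.2.2.2.2.1) := Tm.fst (Tm.snd (Tm.snd (Tm.snd R1)))
  have T6 : Tm (E := fun n => (B n × Par S n) × (Fin n × Fin n)) (F := S) (fun n e => e.1.2.2.2.2.2.2.1) :=
    Tm.fst (Tm.snd (Tm.snd (Tm.snd (Tm.snd R1))))
  have T7 : Tm (E := fun n => (B n × Par S n) × (Fin n × Fin n)) (F := S) (fun n e => e.1.2.2.2.2.2.2.2.1) :=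
    Tm.fst (Tm.snd (Tm.snd (Tm.snd (Tm.snd (Tm.snd R1)))))
  have T8 : Tm (E := fun n => (B n × Par S n) × (Fin n × Fin n)) (F := S) (fun n e => e.1.2.2.2.2.2.2.2.2.1) :=
    Tm.fst (Tm.snd (Tm.snd (Tm.snd (Tm.snd (Tm.snd (Tm.snd R1))))))
  have T9 : Tm (E := fun n => (B n × Par S n) × (Fin n × Fin n)) (F := S) (fun n e => e.1.2.2.2.2.2.2.2.2.2) :=
    Tm.snd (Tm.snd (Tm.snd (Tm.snd (Tm.snd (Tm.snd (Tm.snd R1))))))
  have hc : ∀ {f : ∀ n : ℕ, ((B n × Par S n) × (Fin n × Fin n)) → S n}, Tm (E := fun n => (B n × Par S n) × (Fin n × Fin n)) f →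
      Tm (E := fun n => ((B n × Par S n) × (Fin n × Fin n)) × S n) (fun n y => f n y.1) :=
    fun hf => hf.comp (Tm.fst Tm.id)
  have hc2 : ∀ {f : ∀ n : ℕ, ((B n × Par S n) × (Fin n × Fin n)) → S n}, Tm (E := fun n => (B n × Par S n) × (Fin n × Fin n)) f →
      Tm (E := fun n => (((B n × Par S n) × (Fin n × Fin n)) × S n) × (Fin n × Fin n)) (fun n y => f n y.1.1) :=
    fun hf => hf.comp (Tm.fst (Tm.fst Tm.id))
  have hM := defZ_zM2 (E := fun n => (((B n × Par S n) × (Fin n × Fin n)) × S n) × (Fin n × Fin n)) (B := fun n => B n × (Fin n × Fin n))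
    (A := fun n G b => A n G b.1) (T := fun n G b => del (T n G b.1) b.2) hA' hT'
    (b := fun n y => (y.1.1.1.1, y.1.1.2)) (Tm.pair (Tm.fst (Tm.fst (Tm.fst (Tm.fst Tm.id)))) (Tm.snd (Tm.fst (Tm.fst Tm.id))))
    (hc2 T1) (hc2 T2) (hc2 T3) (hc2 T4) (hc2 T5) (hc2 T6) (hc2 T7) (hc2 T8) (x := fun n y => y.1.2) (Tm.snd (Tm.fst Tm.id))
    (u := fun n y => y.2.1) (v := fun n y => y.2.2) (Tm.fst (Tm.snd Tm.id)) (Tm.snd (Tm.snd Tm.id))
  have hD := DefZ.det (E := fun n => ((B n × Par S n) × (Fin n × Fin n)) × S n) (T := fun n => Fin n)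
    (M := fun n G X (y : ((B n × Par S n) × (Fin n × Fin n)) × S n) u v =>
      cnd (nv y.1.1.2.2.1 = 0) 0 (zM2 (nv y.1.1.2.1) (nv y.1.1.2.2.1) (del (T n G y.1.1.1) y.1.2) (A n G y.1.1.1) (nv y.1.1.2.2.2.1)
        (nv y.1.1.2.2.2.2.1) (nv y.1.1.2.2.2.2.2.1) (nv y.1.1.2.2.2.2.2.2.1) (nv y.1.1.2.2.2.2.2.2.2.1) (nv y.2) u v)) (hc T8) hM
  have hx : Tm (E := fun n => ((B n × Par S n) × (Fin n × Fin n)) × S n) (F := S) (fun n y => y.2) := Tm.snd Tm.id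
  have hP := DefZ.pow (H := S) (hc T8) (DefZ.nv' (H := S) (hc T8) hx) (hc T9)
  have hI := DefZ.ite (DefP.and (DefP.nLt hx (hc T8)) (DefP.not (DefP.nZero hx))) (DefZ.mul (hc T8) hP hD) (DefZ.zero (hc T8))
  have hS := DefZ.sum (E := fun n => (B n × Par S n) × (Fin n × Fin n)) (F := S) T8
    (φ := fun n G X (e : (B n × Par S n) × (Fin n × Fin n)) (x : S n) =>
      cnd (nv x < nv e.1.2.2.2.2.2.2.2.2.1 ∧ ¬ nv x = 0) (((nv x : ℕ) : ℤ) ^ nv e.1.2.2.2.2.2.2.2.2.2 *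
        zdet (T := fun n => Fin n) (fun u v : Fin n =>
          cnd (nv e.1.2.2.1 = 0) 0 (zM2 (nv e.1.2.1) (nv e.1.2.2.1) (del (T n G e.1.1) e.2) (A n G e.1.1) (nv e.1.2.2.2.1)
            (nv e.1.2.2.2.2.1) (nv e.1.2.2.2.2.2.1) (nv e.1.2.2.2.2.2.2.1) (nv e.1.2.2.2.2.2.2.2.1) (nv x) u v))) 0) hI
  have hAdj : DefP (E := fun n => (B n × Par S n) × (Fin n × Fin n)) (fun n G X y => (T n G y.1.1).Adj y.2.1 y.2.2) :=
    DefP.comp (E := fun n => (B n × Par S n) × (Fin n × Fin n)) (F := fun n => B n × (Fin n × Fin n))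
      (f := fun n y => (y.1.1, y.2)) hT (Tm.pair (Tm.fst (Tm.fst Tm.id)) (Tm.snd Tm.id))
  refine DefP.congr (DefP.and (DefP.prS T8) (DefP.and (DefP.not (DefP.nZero T2)) (DefP.and hAdj (DefP.not (DefZ.ndvd T8 hS)))))
    fun n G X e => ?_
  by_cases h0 : nv e.1.2.2.1 = 0
  · exact ⟨fun h => absurd h0 h.2.1, fun h => absurd h0 h.2.1⟩
  · have hE : ∀ x : S n, (fun u v : Fin n => cnd (nv e.1.2.2.1 = 0) 0 (zM2 (nv e.1.2.1) (nv e.1.2.2.1) (del (T n G e.1.1) e.2)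
        (A n G e.1.1) (nv e.1.2.2.2.1) (nv e.1.2.2.2.2.1) (nv e.1.2.2.2.2.2.1) (nv e.1.2.2.2.2.2.2.1) (nv e.1.2.2.2.2.2.2.2.1) (nv x) u v)) =
        zM2 (nv e.1.2.1) (nv e.1.2.2.1) (del (T n G e.1.1) e.2) (A n G e.1.1) (nv e.1.2.2.2.1) (nv e.1.2.2.2.2.1)
          (nv e.1.2.2.2.2.2.1) (nv e.1.2.2.2.2.2.2.1) (nv e.1.2.2.2.2.2.2.2.1) (nv x) := by
      intro x
      funext u v
      exact cnd_neg h0 _ _
    have hsum : (∑ x : S n, cnd (nv x < nv e.1.2.2.2.2.2.2.2.2.1 ∧ ¬ nv x = 0) (((nv x : ℕ) : ℤ) ^ nv e.1.2.2.2.2.2.2.2.2.2 *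
        zdet (T := fun n => Fin n) (fun u v : Fin n =>
          cnd (nv e.1.2.2.1 = 0) 0 (zM2 (nv e.1.2.1) (nv e.1.2.2.1) (del (T n G e.1.1) e.2) (A n G e.1.1) (nv e.1.2.2.2.1)
            (nv e.1.2.2.2.2.1) (nv e.1.2.2.2.2.2.1) (nv e.1.2.2.2.2.2.2.1) (nv e.1.2.2.2.2.2.2.2.1) (nv x) u v))) 0) =
        co (del (T n G e.1.1) (e.2.1, e.2.2)) (A n G e.1.1) e.1.2 := by
      unfold co
      refine Finset.sum_congr rfl fun x _ => ?_
      rw [hE x]
    unfold ed nd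
    rw [hsum]

end PRS
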