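import Pool.Agent.Lib.MP_0087d5_lcPR.SDefs
import Pool.Agent.Lib.MP_0087d5_lcPR.P1

/-!
# Leaf XE (easy): the tested graphs are definable

Proof. `def_lo` (file MT/Y3), `DefP.adj`, `DefP.eqFin`, `DefP.ex`, `DefP.nAdd` (file lc/WNum, see `def_lo` and `lo_iff` for its use with `nv_fin`), `DefP.and`, `DefP.or`, `DefP.not`.
-/

set_option autoImplicit false
set_option linter.all false

namespace PRS

open Finset Pool.Agent Pool.Agent.PMNC MTC LIN

private theorem XE_add {E : ℕ → Type} [Env E] {f g : ∀ n : ℕ, E n → Fin n} (hf : Tm (F := fun n => Fin n) f)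
    (hg : Tm (F := fun n => Fin n) g) :
    DefP (fun n G X x => ∃ w : Fin n, ((f n x : Fin n) : ℕ) + ((g n x : Fin n) : ℕ) = (w : ℕ)) := by
  have h1 : Tm (E := fun n => E n × Fin n) (F := E) (fun n y => y.1) := Tm.fst (H := fun n => Fin n) Tm.id
  have h2 : Tm (E := fun n => E n × Fin n) (F := fun n => Fin n) (fun n y => y.2) := Tm.snd (F := E) Tm.id
  refine DefP.congr (P := fun n G X x => ∃ w : Fin n, nv (S := fun n => Fin n) (f n x) + nv (S := fun n => Fin n) (g n x) =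
    nv (S := fun n => Fin n) w) ?_ (fun n G X x => by simp only [nv_fin])
  refine DefP.ex (F := fun n => Fin n) ?_
  exact DefP.nAdd (F := fun n => Fin n) (H := fun n => Fin n) (K := fun n => Fin n) (Tm.comp hf h1) (Tm.comp hg h1) h2

private theorem XE_T1 {E : ℕ → Type} [Env E] {d u v : ∀ n : ℕ, E n → Fin n} (hd : Tm (F := fun n => Fin n) d)
    (hu : Tm (F := fun n => Fin n) u) (hv : Tm (F := fun n => Fin n) v) :
    DefP (fun n G X x => (T1 n G (d n x)).Adj (u n x) (v n x)) := by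
  refine DefP.congr (P := fun n G X x => ¬ u n x = v n x ∧ ((lo (u n x) ∧ lo (v n x) ∧ G.Adj (u n x) (v n x)) ∨
    (¬ lo (u n x) ∧ ¬ lo (v n x)) ∨
    (lo (u n x) ∧ ¬ lo (v n x) ∧ ¬ ∃ w : Fin n, ((v n x : Fin n) : ℕ) + ((d n x : Fin n) : ℕ) = (w : ℕ)) ∨
    (¬ lo (u n x) ∧ lo (v n x) ∧ ¬ ∃ w : Fin n, ((u n x : Fin n) : ℕ) + ((d n x : Fin n) : ℕ) = (w : ℕ)))) ?_
    (fun n G X x => Iff.rfl)
  exact DefP.and (DefP.not (DefP.eqFin hu hv)) (DefP.or (DefP.and (def_lo hu) (DefP.and (def_lo hv) (DefP.adj hu hv)))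
    (DefP.or (DefP.and (DefP.not (def_lo hu)) (DefP.not (def_lo hv)))
      (DefP.or (DefP.and (def_lo hu) (DefP.and (DefP.not (def_lo hv)) (DefP.not (XE_add hv hd))))
        (DefP.and (DefP.not (def_lo hu)) (DefP.and (def_lo hv) (DefP.not (XE_add hu hd)))))))

theorem def_T1 : DefP (E := fun n => Fin n × (Fin n × Fin n)) (fun n G X y => (T1 n G y.1).Adj y.2.1 y.2.2) := by
  have a : Tm (E := fun n => Fin n × (Fin n × Fin n)) (F := fun n => Fin n × Fin n) (fun n y => y.2) :=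
    Tm.snd (F := fun n => Fin n) (H := fun n => Fin n × Fin n) Tm.id
  exact XE_T1 (Tm.fst (F := fun n => Fin n) (H := fun n => Fin n × Fin n) Tm.id)
    (Tm.fst (F := fun n => Fin n) (H := fun n => Fin n) a) (Tm.snd (F := fun n => Fin n) (H := fun n => Fin n) a)

theorem def_T2 : DefP (E := fun n => (Fin n × Fin n) × (Fin n × Fin n)) (fun n G X y => (T2 n G y.1).Adj y.2.1 y.2.2) := by
  have a : Tm (E := fun n => (Fin n × Fin n) × (Fin n × Fin n)) (F := fun n => Fin n × Fin n) (fun n y => y.1) :=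
    Tm.fst (F := fun n => Fin n × Fin n) (H := fun n => Fin n × Fin n) Tm.id
  have b : Tm (E := fun n => (Fin n × Fin n) × (Fin n × Fin n)) (F := fun n => Fin n × Fin n) (fun n y => y.2) :=
    Tm.snd (F := fun n => Fin n × Fin n) (H := fun n => Fin n × Fin n) Tm.id
  have d := Tm.fst (F := fun n => Fin n) (H := fun n => Fin n) a
  have v := Tm.snd (F := fun n => Fin n) (H := fun n => Fin n) a
  have x := Tm.fst (F := fun n => Fin n) (H := fun n => Fin n) b
  have y := Tm.snd (F := fun n => Fin n) (H := fun n => Fin n) b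
  refine DefP.congr (P := fun n G X z => (T1 n G z.1.1).Adj z.2.1 z.2.2 ∧ ¬ (lo z.2.1 ∧ lo z.2.2 ∧ (z.2.1 = z.1.2 ∨ z.2.2 = z.1.2))) ?_
    (fun n G X z => Iff.rfl)
  exact DefP.and (XE_T1 d x y) (DefP.not (DefP.and (def_lo x) (DefP.and (def_lo y) (DefP.or (DefP.eqFin x v) (DefP.eqFin y v)))))

end PRS
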