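import Pool.Agent.Lib.MP_0087d5_lcPR.XD
import Pool.Agent.Lib.MP_0087d5_lcPR.XE

/-!
# Leaf XG (easy+): the matching and the set are definable

Proof. `defP_ed` (leaf XD) with `B := fun n => Fin n`, `T := T1`, `A := fun n G _ => SP n G` (`def_T1`, `def_SP` composed with the projection); `PMr` by `DefP.allFin`, `DefP.exFin`, `DefP.imp`, `DefP.eqFin`; `Lst` by `DefP.all (F := fun n => Fin n × Par S n)`,
`DefP.lt`, `DefP.nLe`, `DefP.eqFin`; `MR`, `DR`, `UR` by `DefP.ex`. For `DR` use `defP_acc2` (file LI/NC2) with `B := fun n => Fin n × Fin n`, `T := T2`. See ZE/ZN and PR/P1 for the style (`DefP.comp` with `Tm.fst`, `Tm.snd`, `Tm.pair`).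
-/

set_option autoImplicit false
set_option linter.all false

namespace PRS

open Finset Pool.Agent Pool.Agent.PMNC MTC LIN

/-- the relation `ed` of the tested graphs -/
theorem XG_ed {S : ℕ → Type} [Env S] [∀ n, Fintype (S n)] :
    DefP (E := fun n => (Fin n × Par S n) × (Fin n × Fin n))
      (fun n G X y => ed (T1 n G y.1.1) (SP n G) y.1.2 y.2.1 y.2.2) := by
  refine defP_ed (S := S) (B := fun n => Fin n) (A := fun n G _ => SP n G) (T := T1) ?_ def_T1
  exact DefP.comp (F := fun n => Fin n × Fin n) (f := fun n (y : Fin n × (Fin n × Fin n)) => y.2) def_SP (Tm.snd Tm.id)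

section
variable {S E : ℕ → Type} [Env S] [Env E] [∀ n, Fintype (S n)]

theorem XG_edT {e : ∀ n : ℕ, E n → Fin n × Par S n} {u v : ∀ n : ℕ, E n → Fin n}
    (he : Tm (F := fun n => Fin n × Par S n) e) (hu : Tm (F := fun n => Fin n) u) (hv : Tm (F := fun n => Fin n) v) :
    DefP (fun n G X x => ed (T1 n G (e n x).1) (SP n G) (e n x).2 (u n x) (v n x)) :=
  DefP.comp (F := fun n => (Fin n × Par S n) × (Fin n × Fin n)) (f := fun n x => (e n x, (u n x, v n x))) XG_ed
    (Tm.pair (F := fun n => Fin n × Par S n) (H := fun n => Fin n × Fin n) he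
      (Tm.pair (F := fun n => Fin n) (H := fun n => Fin n) hu hv))

theorem XG_pm {e : ∀ n : ℕ, E n → Fin n × Par S n} (he : Tm (F := fun n => Fin n × Par S n) e) :
    DefP (fun n G X x => PMr (ed (T1 n G (e n x).1) (SP n G) (e n x).2)) := by
  unfold PMr
  have e2 : Tm (E := fun n => (E n × Fin n) × Fin n) (F := fun n => Fin n × Par S n) (fun n y => e n y.1.1) :=
    Tm.comp (g := e) (F := E) he (Tm.fst (Tm.fst Tm.id))
  have a2 : Tm (E := fun n => (E n × Fin n) × Fin n) (F := fun n => Fin n) (fun n y => y.1.2) := Tm.snd (Tm.fst Tm.id)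
  have b2 : Tm (E := fun n => (E n × Fin n) × Fin n) (F := fun n => Fin n) (fun n y => y.2) := Tm.snd Tm.id
  have e3 : Tm (E := fun n => ((E n × Fin n) × Fin n) × Fin n) (F := fun n => Fin n × Par S n) (fun n y => e n y.1.1.1) :=
    Tm.comp (g := e) (F := E) he (Tm.fst (Tm.fst (Tm.fst Tm.id)))
  have a3 : Tm (E := fun n => ((E n × Fin n) × Fin n) × Fin n) (F := fun n => Fin n) (fun n y => y.1.1.2) :=
    Tm.snd (Tm.fst (Tm.fst Tm.id))
  have b3 : Tm (E := fun n => ((E n × Fin n) × Fin n) × Fin n) (F := fun n => Fin n) (fun n y => y.1.2) := Tm.snd (Tm.fst Tm.id)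
  have c3 : Tm (E := fun n => ((E n × Fin n) × Fin n) × Fin n) (F := fun n => Fin n) (fun n y => y.2) := Tm.snd Tm.id
  refine DefP.and (DefP.allFin (DefP.exFin (XG_edT e2 a2 b2))) (DefP.and ?_ ?_)
  · exact DefP.allFin (DefP.allFin (DefP.allFin (DefP.imp (XG_edT e3 a3 b3) (DefP.imp (XG_edT e3 a3 c3) (DefP.eqFin b3 c3)))))
  · exact DefP.allFin (DefP.allFin (DefP.imp (XG_edT e2 a2 b2) (XG_edT e2 b2 a2)))

theorem XG_lst {e : ∀ n : ℕ, E n → Fin n × Par S n} (he : Tm (F := fun n => Fin n × Par S n) e) :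
    DefP (fun n G X x => Lst n G (e n x)) := by
  unfold Lst
  have f : Tm (E := fun n => E n × (Fin n × Par S n)) (F := fun n => Fin n × Par S n) (fun n y => y.2) := Tm.snd Tm.id
  have e1 : Tm (E := fun n => E n × (Fin n × Par S n)) (F := fun n => Fin n × Par S n) (fun n y => e n y.1) :=
    Tm.comp (g := e) (F := E) he (Tm.fst Tm.id)
  have fa := Tm.fst (F := fun n => Fin n) (H := fun n => Par S n) f
  have fb := Tm.snd (F := fun n => Fin n) (H := fun n => Par S n) f
  have ea := Tm.fst (F := fun n => Fin n) (H := fun n => Par S n) e1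
  have eb := Tm.snd (F := fun n => Fin n) (H := fun n => Par S n) e1
  refine DefP.and (XG_pm he) (DefP.all (F := fun n => Fin n × Par S n) (DefP.imp (XG_pm f) (DefP.or (DefP.lt ea fa)
    (DefP.and (DefP.eqFin ea fa) (DefP.nLe (F := fun n => Par S n) (H := fun n => Par S n) eb fb)))))

theorem XG_dr {v : ∀ n : ℕ, E n → Fin n} (hv : Tm (F := fun n => Fin n) v) : DefP (fun n G X x => DR S n G (v n x)) := by
  unfold DR
  have f : Tm (E := fun n => E n × (Fin n × Par S n)) (F := fun n => Fin n × Par S n) (fun n y => y.2) := Tm.snd Tm.id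
  have hA : DefP (E := fun n => (Fin n × Fin n) × (Fin n × Fin n)) (fun n G X y => (SP n G).Adj y.2.1 y.2.2) :=
    DefP.comp (F := fun n => Fin n × Fin n) (f := fun n (y : (Fin n × Fin n) × (Fin n × Fin n)) => y.2) def_SP (Tm.snd Tm.id)
  have h := defP_acc2 (S := S) (B := fun n => Fin n × Fin n) (A := fun n G _ => SP n G) (T := T2) hA def_T2
  refine DefP.and (def_lo hv) (DefP.ex (F := fun n => Fin n × Par S n) (DefP.and (XG_lst f) (DefP.ex (F := fun n => Par S n) ?_)))
  have g : Tm (E := fun n => (E n × (Fin n × Par S n)) × Par S n) (F := fun n => Fin n) (fun n y => y.1.2.1) :=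
    Tm.fst (F := fun n => Fin n) (H := fun n => Par S n) (Tm.snd (Tm.fst Tm.id))
  have w : Tm (E := fun n => (E n × (Fin n × Par S n)) × Par S n) (F := fun n => Fin n) (fun n y => v n y.1.1) :=
    Tm.comp (g := v) (F := E) hv (Tm.fst (Tm.fst Tm.id))
  have b : Tm (E := fun n => (E n × (Fin n × Par S n)) × Par S n) (F := fun n => Par S n) (fun n y => y.2) := Tm.snd Tm.id
  exact DefP.comp (F := fun n => (Fin n × Fin n) × Par S n)
    (f := fun n (y : (E n × (Fin n × Par S n)) × Par S n) => ((y.1.2.1, v n y.1.1), y.2)) h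
    (Tm.pair (F := fun n => Fin n × Fin n) (H := fun n => Par S n) (Tm.pair (F := fun n => Fin n) (H := fun n => Fin n) g w) b)

end

theorem def_MR {S : ℕ → Type} [Env S] [∀ n, Fintype (S n)] : DefP (E := fun n => Fin n × Fin n) (fun n G X y => MR S n G y.1 y.2) := by
  unfold MR
  have u : Tm (E := fun n => Fin n × Fin n) (F := fun n => Fin n) (fun n y => y.1) := Tm.fst Tm.id
  have v : Tm (E := fun n => Fin n × Fin n) (F := fun n => Fin n) (fun n y => y.2) := Tm.snd Tm.id
  have f : Tm (E := fun n => (Fin n × Fin n) × (Fin n × Par S n)) (F := fun n => Fin n × Par S n) (fun n y => y.2) := Tm.snd Tm.id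
  have u1 : Tm (E := fun n => (Fin n × Fin n) × (Fin n × Par S n)) (F := fun n => Fin n) (fun n y => y.1.1) :=
    Tm.fst (F := fun n => Fin n) (H := fun n => Fin n) (Tm.fst Tm.id)
  have v1 : Tm (E := fun n => (Fin n × Fin n) × (Fin n × Par S n)) (F := fun n => Fin n) (fun n y => y.1.2) :=
    Tm.snd (F := fun n => Fin n) (H := fun n => Fin n) (Tm.fst Tm.id)
  exact DefP.and (def_lo u) (DefP.and (def_lo v) (DefP.ex (F := fun n => Fin n × Par S n)
    (DefP.and (XG_lst f) (XG_edT f u1 v1))))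

theorem def_UR {S : ℕ → Type} [Env S] [∀ n, Fintype (S n)] : DefP (E := fun n => Fin n) (fun n G X v => UR S n G v) := by
  unfold UR
  have v : Tm (E := fun n => Fin n) (F := fun n => Fin n) (fun n y => y) := Tm.id
  have u1 : Tm (E := fun n => Fin n × Fin n) (F := fun n => Fin n) (fun n y => y.1) := Tm.fst Tm.id
  have v1 : Tm (E := fun n => Fin n × Fin n) (F := fun n => Fin n) (fun n y => y.2) := Tm.snd Tm.id
  exact DefP.and (def_lo v) (DefP.and (DefP.not (XG_dr v)) (DefP.exFin (DefP.and (XG_dr v1) (DefP.adj u1 v1))))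

end PRS
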